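import Mathlib

/-!
Project EH (helper270): simultaneous approximation along a residue class (Kronecker's theorem).
-/

set_option autoImplicit false

namespace Pool.Agent.Q270.EH

open Finset Filter Topology

/-- `e(x) = exp(2πix)` -/
noncomputable def ex (x : ℝ) : ℂ := Complex.exp (((2 * Real.pi * x : ℝ) : ℂ) * Complex.I)

lemma ex_add (x y : ℝ) : ex (x + y) = ex x * ex y := by
  unfold ex
  rw [← Complex.exp_add]
  congr 1
  push_cast
  ring

lemma ex_zero : ex 0 = 1 := by unfold ex; simp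

lemma norm_ex (x : ℝ) : ‖ex x‖ = 1 := by unfold ex; exact Complex.norm_exp_ofReal_mul_I _

lemma ex_nat (x : ℝ) (n : ℕ) : ex (x * n) = ex x ^ n := by
  unfold ex
  rw [← Complex.exp_nat_mul]
  congr 1
  push_cast
  ring

lemma ex_sum {ι : Type} (s : Finset ι) (x : ι → ℝ) : ex (∑ i ∈ s, x i) = ∏ i ∈ s, ex (x i) := by
  classical
  induction s using Finset.induction_on with
  | empty => simp [ex_zero]
  | insert a s ha ih => rw [sum_insert ha, prod_insert ha, ex_add, ih]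

lemma ex_conj (x : ℝ) : starRingEnd ℂ (ex x) = ex (-x) := by
  unfold ex
  rw [← Complex.exp_conj]
  congr 1
  rw [map_mul, Complex.conj_ofReal, Complex.conj_I]
  push_cast
  ring

lemma ex_eq_one {x : ℝ} (h : ex x = 1) : ∃ n : ℤ, x = n := by
  unfold ex at h
  rw [Complex.exp_eq_one_iff] at h
  obtain ⟨n, hn⟩ := h
  refine ⟨n, ?_⟩
  have h1 : ((2 * Real.pi * x : ℝ) : ℂ) = ((n * (2 * Real.pi) : ℝ) : ℂ) := by
    have h2 : ((2 * Real.pi * x : ℝ) : ℂ) * Complex.I = ((n * (2 * Real.pi) : ℝ) : ℂ) * Complex.I := by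
      rw [hn]
      push_cast
      ring
    exact mul_right_cancel₀ Complex.I_ne_zero h2
  have h3 : 2 * Real.pi * x = n * (2 * Real.pi) := by exact_mod_cast h1
  have hpi := Real.pi_pos
  have h4 : 2 * Real.pi * (x - n) = 0 := by linarith
  rcases mul_eq_zero.1 h4 with h5 | h5
  · linarith
  · linarith

/-- `|1 + e(x)|` away from the integers -/
lemma half_le {x η : ℝ} (hη : 0 < η) (_hη2 : η ≤ 1 / 2) (h : ∀ z : ℤ, η ≤ |x - z|) :
    ‖(1 + ex x) / 2‖ ≤ Real.cos (Real.pi * η) := by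
  have hpi := Real.pi_pos
  have h1 : ‖(1 + ex x) / 2‖ = |Real.cos (Real.pi * x)| := by
    have e1 : 1 + ex x = Complex.exp (((Real.pi * x : ℝ) : ℂ) * Complex.I) *
        (2 * ((Real.cos (Real.pi * x) : ℝ) : ℂ)) := by
      rw [Complex.ofReal_cos, Complex.two_cos]
      unfold ex
      rw [mul_add, ← Complex.exp_add, ← Complex.exp_add]
      have e2 : ((Real.pi * x : ℝ) : ℂ) * Complex.I + -((Real.pi * x : ℝ) : ℂ) * Complex.I = 0 := by ring
      have e3 : ((Real.pi * x : ℝ) : ℂ) * Complex.I + ((Real.pi * x : ℝ) : ℂ) * Complex.I =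
        ((2 * Real.pi * x : ℝ) : ℂ) * Complex.I := by push_cast; ring
      rw [e2, e3, Complex.exp_zero]
      ring
    rw [e1, norm_div, norm_mul, Complex.norm_exp_ofReal_mul_I, norm_mul, Complex.norm_real,
      Real.norm_eq_abs]
    simp
  rw [h1]
  -- reduce to the nearest integer
  obtain ⟨n, hn⟩ : ∃ n : ℤ, n = round x := ⟨_, rfl⟩
  have h2 : |x - n| ≤ 1 / 2 := by rw [hn]; exact abs_sub_round x
  have h3 := h n
  have h4 : |Real.cos (Real.pi * x)| = |Real.cos (Real.pi * |x - n|)| := by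
    have e1 : Real.pi * x = Real.pi * (x - n) + n * Real.pi := by ring
    rw [e1, Real.cos_add_int_mul_pi, abs_mul]
    have e2 : |((-1 : ℝ)) ^ n| = 1 := by
      rw [abs_zpow, abs_neg, abs_one, one_zpow]
    rw [e2, one_mul]
    congr 1
    have e3 : Real.pi * |x - n| = |Real.pi * (x - n)| := by rw [abs_mul, abs_of_pos hpi]
    rw [e3, Real.cos_abs]
  rw [h4]
  have h5 : 0 ≤ Real.cos (Real.pi * |x - n|) := by
    apply Real.cos_nonneg_of_neg_pi_div_two_le_of_le
    · have : 0 ≤ Real.pi * |x - n| := by positivity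
      linarith
    · have := mul_le_mul_of_nonneg_left h2 hpi.le
      linarith
  rw [abs_of_nonneg h5]
  apply Real.cos_le_cos_of_nonneg_of_le_pi (by positivity)
  · have := mul_le_mul_of_nonneg_left h2 hpi.le
    linarith
  · exact mul_le_mul_of_nonneg_left h3 hpi.le

/-- geometric means -/
lemma mean_geom (z : ℂ) (hz : ‖z‖ = 1) (h1 : z ≠ 1) :
    Tendsto (fun N : ℕ => (1 / (N : ℂ)) * ∑ T ∈ range N, z ^ T) atTop (𝓝 0) := by
  rw [tendsto_zero_iff_norm_tendsto_zero]
  have h2 : 0 < ‖z - 1‖ := norm_pos_iff.2 (sub_ne_zero.2 h1)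
  have h3 : Tendsto (fun N : ℕ => (2 / ‖z - 1‖) * (1 / (N : ℝ))) atTop (𝓝 ((2 / ‖z - 1‖) * 0)) :=
    tendsto_one_div_atTop_nhds_zero_nat.const_mul _
  rw [mul_zero] at h3
  refine squeeze_zero (fun N => norm_nonneg _) (fun N => ?_) h3
  rw [geom_sum_eq h1, norm_mul, norm_div, norm_div, norm_one, Complex.norm_natCast]
  have h4 : ‖z ^ N - 1‖ ≤ 2 := by
    refine (norm_sub_le _ _).trans ?_
    rw [norm_pow, hz, one_pow, norm_one]
    norm_num
  rw [mul_comm]
  refine mul_le_mul_of_nonneg_right ?_ (by positivity)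
  exact div_le_div_of_nonneg_right h4 h2.le

/-- means of exponential polynomials -/
lemma mean_poly {κ : Type} (s : Finset κ) (c y : κ → ℂ) (hy : ∀ x, ‖y x‖ = 1) :
    Tendsto (fun N : ℕ => (1 / (N : ℂ)) * ∑ T ∈ range N, ∑ x ∈ s, c x * y x ^ T) atTop
      (𝓝 (∑ x ∈ s, if y x = 1 then c x else 0)) := by
  have h1 : ∀ N : ℕ, (1 / (N : ℂ)) * ∑ T ∈ range N, ∑ x ∈ s, c x * y x ^ T =
      ∑ x ∈ s, c x * ((1 / (N : ℂ)) * ∑ T ∈ range N, y x ^ T) := by
    intro N
    rw [sum_comm, mul_sum]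
    refine sum_congr rfl fun x _ => ?_
    rw [← mul_sum]
    ring
  simp only [h1]
  refine tendsto_finset_sum _ fun x _ => ?_
  split_ifs with h
  · have h2 : Tendsto (fun N : ℕ => c x * ((1 / (N : ℂ)) * ∑ T ∈ range N, y x ^ T)) atTop
        (𝓝 (c x * 1)) := by
      refine Tendsto.const_mul _ ?_
      refine tendsto_const_nhds.congr' ?_
      filter_upwards [eventually_ge_atTop 1] with N hN
      have hN0 : (N : ℂ) ≠ 0 := by exact_mod_cast (by omega : N ≠ 0)
      rw [h]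
      simp only [one_pow, sum_const, card_range, nsmul_eq_mul, mul_one]
      field_simp
    rwa [mul_one] at h2
  · have h2 := (mean_geom (y x) (hy x) h).const_mul (c x)
    rwa [mul_zero] at h2

/-- **Kronecker's theorem**, along a residue class -/
theorem kro {ι : Type} [Fintype ι] (ξ : ι → ℝ)
    (hξ : ∀ (k : ι → ℤ) (a b : ℤ), b ≠ 0 → (b : ℝ) * ∑ i, (k i : ℝ) * ξ i = a → a = 0)
    (Q t : ℕ) (hQ : 1 ≤ Q) (η : ℝ) (hη : 0 < η) :
    ∃ T : ℕ, T % Q = t % Q ∧ ∀ i, ∃ z : ℤ, |ξ i * T - z| < η := by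
  classical
  by_contra hcon
  push Not at hcon
  obtain ⟨η', hη'⟩ : ∃ η' : ℝ, η' = min η (1 / 2) := ⟨_, rfl⟩
  have hη0 : 0 < η' := by rw [hη']; exact lt_min hη (by norm_num)
  have hη2 : η' ≤ 1 / 2 := by rw [hη']; exact min_le_right _ _
  have hηη : η' ≤ η := by rw [hη']; exact min_le_left _ _
  obtain ⟨ρ, hρ⟩ : ∃ ρ : ℝ, ρ = Real.cos (Real.pi * η') := ⟨_, rfl⟩
  have hpi := Real.pi_pos
  have hρ0 : 0 ≤ ρ := by
    rw [hρ]
    apply Real.cos_nonneg_of_neg_pi_div_two_le_of_le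
    · have : 0 ≤ Real.pi * η' := by positivity
      linarith
    · have := mul_le_mul_of_nonneg_left hη2 hpi.le
      linarith
  have hρ1 : ρ < 1 := by
    rw [hρ, ← Real.cos_zero]
    apply Real.cos_lt_cos_of_nonneg_of_le_pi le_rfl
    · have := mul_le_mul_of_nonneg_left hη2 hpi.le
      linarith
    · positivity
  -- the main inequality
  have key : ∀ K : ℕ, 1 / ((K : ℝ) + 1) ^ Fintype.card ι ≤ (ρ ^ K) ^ 2 := by
    intro K
    -- the polynomial
    obtain ⟨V, hV⟩ : ∃ V : Finset (ι → ℕ), V = Fintype.piFinset (fun _ : ι => range (K + 1)) := ⟨_, rfl⟩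
    obtain ⟨c, hc⟩ : ∃ c : (ι → ℕ) → ℝ, c = fun v => ∏ i, ((K.choose (v i) : ℝ) / 2 ^ K) := ⟨_, rfl⟩
    obtain ⟨ω, hω⟩ : ∃ ω : (ι → ℕ) → ℝ, ω = fun v => ∑ i, (v i : ℝ) * ξ i := ⟨_, rfl⟩
    have hc0 : ∀ v, 0 ≤ c v := fun v => by rw [hc]; exact prod_nonneg fun _ _ => by positivity
    have hP : ∀ x : ℝ, ∏ i, ((1 + ex (ξ i * x)) / 2) ^ K = ∑ v ∈ V, (c v : ℂ) * ex (ω v * x) := by
      intro x
      have h1 : ∀ i, ((1 + ex (ξ i * x)) / 2) ^ K = ∑ l ∈ range (K + 1),
          ((K.choose l : ℂ) / 2 ^ K) * ex ((l : ℝ) * (ξ i * x)) := by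
        intro i
        rw [div_pow, add_comm, add_pow, sum_div]
        refine sum_congr rfl fun l _ => ?_
        rw [one_pow, mul_one, mul_comm (l : ℝ), ex_nat]
        ring
      rw [prod_congr rfl fun i _ => h1 i, prod_univ_sum, hV]
      refine sum_congr rfl fun v _ => ?_
      rw [prod_mul_distrib, ← ex_sum, hc, hω]
      congr 1
      · push_cast
        rfl
      · congr 1
        rw [sum_mul]
        refine sum_congr rfl fun i _ => ?_
        ring
    have hc1 : ∑ v ∈ V, c v = 1 := by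
      have h1 := hP 0
      simp only [mul_zero, ex_zero, mul_one] at h1
      have h2 : (1 + 1 : ℂ) / 2 = 1 := by norm_num
      rw [h2] at h1
      simp only [one_pow, prod_const_one] at h1
      exact_mod_cast h1.symm
    -- the square
    obtain ⟨C, hC⟩ : ∃ C : (ι → ℕ) × (ι → ℕ) → ℂ, C = fun v => (c v.1 * c v.2 : ℝ) *
      ex ((ω v.1 - ω v.2) * t) := ⟨_, rfl⟩
    obtain ⟨y, hy⟩ : ∃ y : (ι → ℕ) × (ι → ℕ) → ℂ, y = fun v => ex ((ω v.1 - ω v.2) * Q) := ⟨_, rfl⟩
    have hsq : ∀ T : ℕ, ((‖∏ i, ((1 + ex (ξ i * ((t + Q * T : ℕ) : ℝ))) / 2) ^ K‖ ^ 2 : ℝ) : ℂ) =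
        ∑ v ∈ V ×ˢ V, C v * y v ^ T := by
      intro T
      rw [← Complex.normSq_eq_norm_sq, ← Complex.mul_conj, hP, map_sum, sum_mul_sum, ← sum_product']
      refine sum_congr rfl fun v _ => ?_
      rw [map_mul, Complex.conj_ofReal, ex_conj, hC, hy]
      dsimp only
      rw [← ex_nat]
      have e1 : (c v.1 : ℂ) * ex (ω v.1 * ((t + Q * T : ℕ) : ℝ)) *
          ((c v.2 : ℂ) * ex (-(ω v.2 * ((t + Q * T : ℕ) : ℝ)))) = (c v.1 * c v.2 : ℝ) *
          (ex (ω v.1 * ((t + Q * T : ℕ) : ℝ)) * ex (-(ω v.2 * ((t + Q * T : ℕ) : ℝ)))) := by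
        push_cast
        ring
      rw [e1, ← ex_add, mul_assoc, ← ex_add]
      congr 2
      push_cast
      ring
    have hlim := mean_poly (V ×ˢ V) C y (fun v => by rw [hy]; exact norm_ex _)
    -- the limit is at least the diagonal
    have hC1 : ∀ v : (ι → ℕ) × (ι → ℕ), y v = 1 → C v = (c v.1 * c v.2 : ℝ) := by
      intro v hv
      rw [hy] at hv
      obtain ⟨n, hn⟩ := ex_eq_one hv
      have h1 : n = 0 := by
        refine hξ (fun i => (v.1 i : ℤ) - (v.2 i : ℤ)) n Q (by omega) ?_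
        rw [← hn, hω]
        dsimp only
        rw [← sum_sub_distrib, mul_comm]
        push_cast
        congr 1
        refine sum_congr rfl fun i _ => ?_
        ring
      rw [h1, Int.cast_zero] at hn
      have hQ0 : (Q : ℝ) ≠ 0 := by exact_mod_cast (by omega : Q ≠ 0)
      have h2 : ω v.1 - ω v.2 = 0 := by
        rcases mul_eq_zero.1 hn with h3 | h3
        · exact h3
        · exact absurd h3 hQ0
      rw [hC]
      dsimp only
      rw [h2, zero_mul, ex_zero, mul_one]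
    have hL : (∑ x ∈ V ×ˢ V, if y x = 1 then C x else 0) =
        ((∑ x ∈ V ×ˢ V, if y x = 1 then c x.1 * c x.2 else 0 : ℝ) : ℂ) := by
      rw [Complex.ofReal_sum]
      refine sum_congr rfl fun v _ => ?_
      split_ifs with h
      · exact hC1 v h
      · simp
    have hdiag : ∑ v ∈ V, c v ^ 2 ≤ ∑ x ∈ V ×ˢ V, if y x = 1 then c x.1 * c x.2 else 0 := by
      rw [sum_product]
      refine sum_le_sum fun v hv => ?_
      have h1 : c v ^ 2 = if y (v, v) = 1 then c v * c v else 0 := by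
        rw [if_pos]
        · ring
        · rw [hy]
          dsimp only
          rw [sub_self, zero_mul, ex_zero]
      rw [h1]
      refine single_le_sum (f := fun v' => if y (v, v') = 1 then c v * c v' else 0) (fun v' _ => ?_) hv
      split_ifs
      · exact mul_nonneg (hc0 _) (hc0 _)
      · exact le_rfl
    have hcs : 1 / ((K : ℝ) + 1) ^ Fintype.card ι ≤ ∑ v ∈ V, c v ^ 2 := by
      have h1 := sq_sum_le_card_mul_sum_sq (s := V) (f := c)
      rw [hc1] at h1
      have h2 : (V.card : ℝ) = ((K : ℝ) + 1) ^ Fintype.card ι := by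
        rw [hV, Fintype.card_piFinset]
        simp
      rw [h2] at h1
      rw [div_le_iff₀ (by positivity)]
      linarith
    -- the upper bound
    have hup : ∀ T : ℕ, ‖∏ i, ((1 + ex (ξ i * ((t + Q * T : ℕ) : ℝ))) / 2) ^ K‖ ≤ ρ ^ K := by
      intro T
      obtain ⟨i, hi⟩ := hcon (t + Q * T) (by rw [Nat.add_mul_mod_self_left])
      rw [norm_prod, ← mul_prod_erase univ _ (mem_univ i)]
      have h1 : ∀ i, ‖(1 + ex (ξ i * ((t + Q * T : ℕ) : ℝ))) / 2‖ ≤ 1 := by
        intro i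
        rw [norm_div]
        have h2 : ‖1 + ex (ξ i * ((t + Q * T : ℕ) : ℝ))‖ ≤ 2 := by
          refine (norm_add_le _ _).trans ?_
          rw [norm_one, norm_ex]
          norm_num
        have h3 : ‖(2 : ℂ)‖ = 2 := by norm_num
        rw [h3]
        linarith
      have h2 : ‖((1 + ex (ξ i * ((t + Q * T : ℕ) : ℝ))) / 2) ^ K‖ ≤ ρ ^ K := by
        rw [norm_pow]
        refine pow_le_pow_left₀ (norm_nonneg _) ?_ K
        rw [hρ]
        exact half_le hη0 hη2 fun z => hηη.trans (hi z)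
      refine (mul_le_of_le_one_right (norm_nonneg _) ?_).trans h2
      exact prod_le_one (fun _ _ => norm_nonneg _) fun i' _ => by
        rw [norm_pow]
        exact pow_le_one₀ (norm_nonneg _) (h1 i')
    -- comparison
    have hre : Tendsto (fun N : ℕ => (1 / (N : ℝ)) * ∑ T ∈ range N,
        ‖∏ i, ((1 + ex (ξ i * ((t + Q * T : ℕ) : ℝ))) / 2) ^ K‖ ^ 2) atTop
        (𝓝 (∑ x ∈ V ×ˢ V, if y x = 1 then c x.1 * c x.2 else 0)) := by
      rw [hL] at hlim
      have h1 := (Complex.continuous_re.tendsto _).comp hlim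
      rw [Complex.ofReal_re] at h1
      refine h1.congr fun N => ?_
      dsimp only [Function.comp]
      rw [← sum_congr rfl fun T _ => hsq T, ← Complex.ofReal_sum]
      have e1 : (1 / (N : ℂ)) = ((1 / (N : ℝ) : ℝ) : ℂ) := by push_cast; ring
      rw [e1, ← Complex.ofReal_mul, Complex.ofReal_re]
    refine (hcs.trans hdiag).trans (le_of_tendsto hre ?_)
    filter_upwards [eventually_ge_atTop 1] with N hN
    have hN0 : (0 : ℝ) < N := by exact_mod_cast hN
    have h1 : ∑ T ∈ range N, ‖∏ i, ((1 + ex (ξ i * ((t + Q * T : ℕ) : ℝ))) / 2) ^ K‖ ^ 2 ≤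
        N * (ρ ^ K) ^ 2 := by
      refine (sum_le_sum fun T _ => pow_le_pow_left₀ (norm_nonneg _) (hup T) 2).trans ?_
      rw [sum_const, card_range, nsmul_eq_mul]
    calc (1 / (N : ℝ)) * _ ≤ (1 / (N : ℝ)) * (N * (ρ ^ K) ^ 2) := by gcongr
      _ = (ρ ^ K) ^ 2 := by field_simp
  -- contradiction
  have h1 : Tendsto (fun K : ℕ => ((K : ℝ) + 1) ^ Fintype.card ι * (ρ ^ 2) ^ K) atTop (𝓝 0) := by
    have h2 : ρ ^ 2 < 1 := by nlinarith
    have h3 := tendsto_pow_const_mul_const_pow_of_lt_one (Fintype.card ι) (by positivity : 0 ≤ ρ ^ 2) h2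
    -- `(K+1)^m r^K`: shift
    have h4 : ∀ K : ℕ, 1 ≤ K → ((K : ℝ) + 1) ^ Fintype.card ι * (ρ ^ 2) ^ K ≤
        2 ^ Fintype.card ι * ((K : ℝ) ^ Fintype.card ι * (ρ ^ 2) ^ K) := by
      intro K hK
      have h5 : (K : ℝ) + 1 ≤ 2 * K := by
        have : (1 : ℝ) ≤ K := by exact_mod_cast hK
        linarith
      have h6 : ((K : ℝ) + 1) ^ Fintype.card ι ≤ (2 * K) ^ Fintype.card ι :=
        pow_le_pow_left₀ (by positivity) h5 _
      rw [mul_pow] at h6
      calc _ ≤ (2 ^ Fintype.card ι * (K : ℝ) ^ Fintype.card ι) * (ρ ^ 2) ^ K :=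
            mul_le_mul_of_nonneg_right h6 (by positivity)
        _ = _ := by ring
    have h7 := h3.const_mul (2 ^ Fintype.card ι : ℝ)
    rw [mul_zero] at h7
    refine squeeze_zero' (Eventually.of_forall fun K => by positivity) ?_ h7
    filter_upwards [eventually_ge_atTop 1] with K hK
    exact h4 K hK
  have h2 := (h1.eventually (gt_mem_nhds (by norm_num : (0 : ℝ) < 1 / 2))).exists
  obtain ⟨K, hK⟩ := h2
  have h3 := key K
  rw [div_le_iff₀ (by positivity)] at h3
  have h4 : (ρ ^ K) ^ 2 = (ρ ^ 2) ^ K := by ring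
  rw [h4] at h3
  linarith

end Pool.Agent.Q270.EH
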