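import Pool.Agent.Q270.EH.Sp
import Pool.Agent.Q270.EH.Kro

/-!
Project EH (helper270): Beatty lines.
-/

set_option autoImplicit false

namespace Pool.Agent.Q270.EH

open Finset Filter Topology

lemma Lc.out {S : ℝ → ℕ → ℕ → Prop} (hS : Lc S) (δ : ℝ) (hδ : 0 < δ) : ∃ δ' : ℝ, 0 < δ' ∧ ∃ p0 : ℕ,
    ∀ p : ℕ, p0 ≤ p → ∃ N0 : ℕ, ∀ N : ℕ, N0 ≤ N → cnt N (S δ' p) ≤ δ * N := by
  obtain ⟨δ', h1, h2⟩ := ((hS δ hδ).and self_mem_nhdsWithin).exists
  obtain ⟨p0, hp0⟩ := eventually_atTop.1 h1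
  exact ⟨δ', h2, p0, fun p hp => eventually_atTop.1 (hp0 p hp)⟩

lemma Sp_false : Sp (fun _ _ => False) := by
  intro τ hτ
  refine Eventually.of_forall fun η => Eventually.of_forall fun N => ?_
  classical
  rw [← cnt_eq]
  simp
  positivity

/-- integer multiples of a rational number which are near an integer are integers -/
lemma rat_far (y : ℝ) (hy : ¬ Irrational y) : ∀ᶠ η in 𝓝[>] (0 : ℝ), ∀ K w : ℤ,
    |y * K - w| ≤ η → y * K = w := by
  classical
  unfold Irrational at hy
  push Not at hy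
  obtain ⟨q, hq⟩ := hy
  have hd : (0 : ℝ) < q.den := by exact_mod_cast q.den_pos
  have h3 : ∀ᶠ η in 𝓝[>] (0 : ℝ), η < (1 : ℝ) / (q.den : ℝ) :=
    (eventually_lt_nhds (by positivity : (0 : ℝ) < (1 : ℝ) / (q.den : ℝ))).filter_mono nhdsWithin_le_nhds
  filter_upwards [h3] with η hη K w h
  have h1 : y * q.den = q.num := by
    rw [← hq]
    have := Rat.mul_den_eq_num q
    exact_mod_cast this
  have h2 : (q.den : ℝ) * (y * K - w) = ((q.num * K - q.den * w : ℤ) : ℝ) := by
    push_cast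
    rw [← h1]
    ring
  have h4 : |((q.num * K - q.den * w : ℤ) : ℝ)| < 1 := by
    rw [← h2, abs_mul, abs_of_pos hd]
    calc (q.den : ℝ) * |y * K - w| ≤ q.den * η := by gcongr
      _ < q.den * (1 / q.den) := by gcongr
      _ = 1 := by field_simp
  have h5 : |q.num * K - q.den * w| < 1 := by exact_mod_cast h4
  have h6 : q.num * K - q.den * w = 0 := Int.abs_lt_one_iff.1 h5
  rw [h6] at h2
  have h7 : y * K - w = 0 := by
    have : (q.den : ℝ) * (y * K - w) = 0 := by rw [h2]; simp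
    rcases mul_eq_zero.1 this with h | h
    · exact absurd h hd.ne'
    · exact h
  linarith

lemma span_lem {ι : Type} [Fintype ι] (v : ι → ℝ) (hv : (1 : ℝ) ∉ Submodule.span ℚ (Set.range v))
    (D : ℕ) (hD : 0 < D) (k : ι → ℤ) (a b : ℤ) (hb : b ≠ 0)
    (h : (b : ℝ) * ∑ i, (k i : ℝ) * (v i / D) = a) : a = 0 := by
  by_contra ha
  apply hv
  have hD0 : (D : ℝ) ≠ 0 := by exact_mod_cast hD.ne'
  have ha0 : (a : ℝ) ≠ 0 := by exact_mod_cast ha
  have h1 : (1 : ℝ) = ∑ i, ((b * k i : ℚ) / (a * D : ℚ)) • v i := by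
    have h2 : ∀ i, ((b * k i : ℚ) / (a * D : ℚ)) • v i = (1 / (a : ℝ)) * (b * (k i * (v i / D))) := by
      intro i
      rw [Rat.smul_def]
      push_cast
      field_simp
    simp only [h2]
    rw [← mul_sum, ← mul_sum, h]
    field_simp
  rw [h1]
  exact Submodule.sum_mem _ fun i _ => Submodule.smul_mem _ _ (Submodule.subset_span ⟨i, rfl⟩)

lemma irr_of_span {ι : Type} (v : ι → ℝ) (hv : (1 : ℝ) ∉ Submodule.span ℚ (Set.range v)) (i : ι)
    (h0 : v i ≠ 0) : Irrational (v i) := by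
  rintro ⟨q, hq⟩
  apply hv
  have hq0 : (q : ℝ) ≠ 0 := by rw [hq]; exact h0
  have h1 : (1 : ℝ) = (1 / q : ℚ) • v i := by
    rw [Rat.smul_def, ← hq]
    push_cast
    field_simp
  rw [h1]
  exact Submodule.smul_mem _ _ (Submodule.subset_span ⟨i, rfl⟩)

/-- lines in `x` itself -/
theorem geoA {s : ℕ} (a b : Fin s → ℝ) (ha : ∀ j, 0 < a j)
    (hspan : (1 : ℝ) ∉ Submodule.span ℚ (Set.range a)) :
    ∃ G : Geo s, G.E = (fun _ => True) ∧ G.A = fun j x => ⌊a j * x + b j⌋ := by
  classical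
  have hirr : ∀ j, Irrational (a j) := fun j => irr_of_span a hspan j (ha j).ne'
  refine ⟨{ θ := a
            E := fun _ => True
            A := fun j x => ⌊a j * x + b j⌋
            C := ∑ j, |b j| + 1
            θ0 := ha
            C0 := by positivity
            pos := ?_
            loc := ?_
            per := ?_ }, rfl, rfl⟩
  · intro j x _
    have h1 := Int.floor_le (a j * x + b j)
    have h2 := Int.lt_floor_add_one (a j * x + b j)
    have h3 : |b j| ≤ ∑ j, |b j| := single_le_sum (f := fun j => |b j|) (fun _ _ => abs_nonneg _) (mem_univ j)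
    have h4 := neg_abs_le (b j)
    have h5 := le_abs_self (b j)
    rw [abs_le]
    constructor <;> linarith
  · intro δ hδ
    have hL : Lc (fun δ' p m => ∃ j : Fin s, ∃ k : ℤ, |(m : ℝ) - p * (1 / a j * k + -b j / a j)| ≤ δ' * p) :=
      Lc.ex fun j => Lc_base (1 / a j) (-b j / a j) (by have := ha j; positivity)
    obtain ⟨δ', hδ', p0, hp0⟩ := hL.out δ hδ
    refine ⟨δ', hδ', max p0 1, fun p hp => ?_⟩
    obtain ⟨N0, hN0⟩ := hp0 p ((le_max_left _ _).trans hp)
    refine ⟨N0, fun N hN => le_trans ?_ (hN0 N hN)⟩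
    have hp1 : (0 : ℝ) < p := by
      have : 1 ≤ p := (le_max_right _ _).trans hp
      exact_mod_cast this
    rw [cnt_eq]
    refine cnt_mono N fun m hm => ?_
    obtain ⟨l, hl, h | ⟨j, hj⟩⟩ := hm
    · exact absurd Iff.rfl h
    · refine ⟨j, ?_⟩
      have haj := ha j
      have h1 : a j * ((m : ℝ) / p) + b j ≤ a j * (((m + l : ℕ) : ℝ) / p) + b j := by
        have : (m : ℝ) ≤ ((m + l : ℕ) : ℝ) := by push_cast; linarith [(Nat.cast_nonneg l : (0 : ℝ) ≤ l)]
        gcongr
      have h2 := Int.floor_le_floor h1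
      have h3 : ⌊a j * ((m : ℝ) / p) + b j⌋ < ⌊a j * (((m + l : ℕ) : ℝ) / p) + b j⌋ :=
        lt_of_le_of_ne h2 (fun h => hj h.symm)
      obtain ⟨k, hk⟩ : ∃ k, k = ⌊a j * (((m + l : ℕ) : ℝ) / p) + b j⌋ := ⟨_, rfl⟩
      refine ⟨k, ?_⟩
      rw [← hk] at h3
      have h4 := Int.floor_lt.1 h3
      have h5 : (k : ℝ) ≤ a j * (((m + l : ℕ) : ℝ) / p) + b j := by
        rw [hk]
        exact Int.floor_le _
      have h6 : (m : ℝ) < p * (1 / a j * k + -b j / a j) := by
        have e1 : a j * ((m : ℝ) / p) < k - b j := by linarith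
        have e2 : (m : ℝ) = (p / a j) * (a j * ((m : ℝ) / p)) := by field_simp
        have e3 : p * (1 / a j * k + -b j / a j) = (p / a j) * (k - b j) := by ring
        rw [e2, e3]
        gcongr
      have h7 : p * (1 / a j * k + -b j / a j) ≤ m + l := by
        have e1 : k - b j ≤ a j * (((m + l : ℕ) : ℝ) / p) := by linarith
        have e2 : (m : ℝ) + l = (p / a j) * (a j * (((m + l : ℕ) : ℝ) / p)) := by
          push_cast
          field_simp
        have e3 : p * (1 / a j * k + -b j / a j) = (p / a j) * (k - b j) := by ring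
        rw [e2, e3]
        gcongr
      rw [abs_le]
      constructor <;> linarith
  · intro P0 Q t δ hQ hδ
    obtain ⟨D, hD⟩ : ∃ D, D = P0.factorial := ⟨_, rfl⟩
    have hD1 : 1 ≤ D := by rw [hD]; exact Nat.factorial_pos P0
    have hD0 : (0 : ℝ) < D := by exact_mod_cast hD1
    have hS : Sp (fun η m => ∃ i : Fin P0, ∃ j : Fin s, (nz (a j / ((i : ℕ) + 1 : ℕ) * m + b j) η ∨
        nz (a j * m + 0) η)) := by
      refine Sp.ex fun i => Sp.ex fun j => (Sp_lin _ _ ?_).or (Sp_lin _ _ (hirr j))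
      exact (hirr j).div_natCast (Nat.succ_ne_zero _)
    obtain ⟨η, h1, hη⟩ := ((hS δ hδ).and self_mem_nhdsWithin).exists
    obtain ⟨N0, hN0⟩ := eventually_atTop.1 h1
    obtain ⟨T, hT, hTz⟩ := kro (fun j => a j / D) (fun k a' b' hb h => span_lem a hspan D hD1 k a' b' hb h)
      Q t hQ (η / D) (by positivity)
    choose z hz using hTz
    refine ⟨T, hT, N0, fun N hN => le_trans ?_ (hN0 N hN)⟩
    rw [cnt_eq]
    refine cnt_mono N fun m hm => ?_
    by_contra hcon
    push Not at hcon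
    obtain ⟨p, hp1, hpP, h | ⟨j, hj⟩⟩ := hm
    · exact absurd Iff.rfl h
    · apply hj
      obtain ⟨e, he⟩ : ∃ e, D = p * e := by
        rw [hD]
        exact Nat.dvd_factorial hp1 hpP
      have hp0 : (0 : ℝ) < p := by exact_mod_cast hp1
      obtain ⟨h2, h3⟩ := hcon ⟨p - 1, by omega⟩ j
      have h4 : ((⟨p - 1, by omega⟩ : Fin P0) : ℕ) + 1 = p := by
        show p - 1 + 1 = p
        omega
      rw [h4] at h2
      have hDe : (D : ℝ) = p * e := by exact_mod_cast he
      obtain ⟨w, hw⟩ : ∃ w : ℝ, w = a j / D * T - z j := ⟨_, rfl⟩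
      have hw1 : |w| ≤ η / D := by rw [hw]; exact (hz j).le
      have hDw : |D * w| ≤ η := by
        rw [abs_mul, abs_of_pos hD0]
        rw [le_div_iff₀ hD0] at hw1
        linarith
      have he1 : (e : ℝ) ≤ D := by
        rw [hDe]
        have : (1 : ℝ) ≤ p := by exact_mod_cast hp1
        nlinarith [(Nat.cast_nonneg e : (0 : ℝ) ≤ e)]
      have hew : |e * w| ≤ η := by
        refine le_trans ?_ hDw
        rw [abs_mul, abs_mul, abs_of_nonneg (Nat.cast_nonneg e : (0 : ℝ) ≤ e), abs_of_pos hD0]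
        gcongr
      have e1 : a j * (((m + T : ℕ) : ℝ) / p) + b j = (a j / p * m + b j + e * w) + ((e * z j : ℤ) : ℝ) := by
        rw [hw]
        push_cast
        rw [hDe]
        have : (p : ℝ) * e ≠ 0 := by rw [← hDe]; exact hD0.ne'
        have he0 : (e : ℝ) ≠ 0 := fun h => this (by rw [h, mul_zero])
        field_simp
        ring
      have e2 : a j * ((m + T : ℕ) : ℝ) = (a j * m + 0 + D * w) + ((D * z j : ℤ) : ℝ) := by
        rw [hw]
        push_cast
        field_simp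
        ring
      rw [e1, e2, Int.floor_add_intCast, Int.floor_add_intCast, floor_shift h2 hew, floor_shift h3 hDw]
      have e3 : a j * ((m : ℝ) / p) + b j = a j / p * m + b j := by ring
      rw [e3, add_zero]
      have e4 : (D : ℤ) = p * e := by exact_mod_cast he
      rw [e4]
      ring

/-- lines in the index of the main line -/
theorem geoB {s : ℕ} (α β : ℝ) (a b : Fin s → ℝ) (r : ℕ) (hα : 0 < α) (ha : ∀ j, 0 < a j)
    (hspan : α ∉ Submodule.span ℚ (insert (1 : ℝ) (Set.range a))) :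
    ∃ G : Geo s, G.E = (fun x => α * ((⌈(x - β) / α⌉ + r : ℤ) : ℝ) + β < x + 1) ∧
      G.A = fun j x => ⌊a j * ((⌈(x - β) / α⌉ + r : ℤ) : ℝ) + b j⌋ := by
  classical
  obtain ⟨v, hv⟩ : ∃ v : Option (Fin s) → ℝ, v = fun o => o.elim (1 / α) (fun j => a j / α) := ⟨_, rfl⟩
  have hvs : (1 : ℝ) ∉ Submodule.span ℚ (Set.range v) := by
    intro h1
    apply hspan
    have h2 := Submodule.mem_map_of_mem (f := LinearMap.mulLeft ℚ α) h1
    rw [Submodule.map_span, LinearMap.mulLeft_apply, mul_one] at h2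
    refine Submodule.span_mono ?_ h2
    rintro x ⟨y, ⟨o, rfl⟩, rfl⟩
    rw [LinearMap.mulLeft_apply, hv]
    cases o with
    | none =>
      left
      simp only [Option.elim_none]
      field_simp
    | some j =>
      right
      refine ⟨j, ?_⟩
      simp only [Option.elim_some]
      field_simp
  have hv0 : ∀ o, v o ≠ 0 := fun o => by
    rw [hv]
    cases o with
    | none => simp only [Option.elim_none]; positivity
    | some j => simp only [Option.elim_some]; have := ha j; positivity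
  have hα1 : Irrational (1 / α) := by
    have := irr_of_span v hvs none (hv0 none)
    rw [hv] at this
    exact this
  have hθi : ∀ j, Irrational (a j / α) := fun j => by
    have := irr_of_span v hvs (some j) (hv0 (some j))
    rw [hv] at this
    exact this
  -- the breakpoints
  have hcell : ∀ (x x' : ℝ), x ≤ x' → (∀ k : ℤ, ¬ (x ≤ α * k + β ∧ α * k + β < x')) →
      ⌈(x - β) / α⌉ = ⌈(x' - β) / α⌉ := by
    intro x x' hxx h
    have h1 : ⌈(x - β) / α⌉ ≤ ⌈(x' - β) / α⌉ := Int.ceil_le_ceil (by gcongr)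
    by_contra hne
    have h2 : ⌈(x - β) / α⌉ < ⌈(x' - β) / α⌉ := lt_of_le_of_ne h1 hne
    apply h ⌈(x - β) / α⌉
    have h3 := Int.le_ceil ((x - β) / α)
    have h4 := Int.lt_ceil.1 h2
    rw [div_le_iff₀ hα] at h3
    rw [lt_div_iff₀ hα] at h4
    constructor <;> linarith
  refine ⟨{ θ := fun j => a j / α
            E := fun x => α * ((⌈(x - β) / α⌉ + r : ℤ) : ℝ) + β < x + 1
            A := fun j x => ⌊a j * ((⌈(x - β) / α⌉ + r : ℤ) : ℝ) + b j⌋
            C := ∑ j, (a j * |β| / α + a j * (r + 1) + |b j|) + 1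
            θ0 := fun j => by have := ha j; positivity
            C0 := ?_
            pos := ?_
            loc := ?_
            per := ?_ }, rfl, rfl⟩
  · refine add_nonneg (sum_nonneg fun j _ => ?_) zero_le_one
    have := ha j
    positivity
  · intro j x hx
    have haj := ha j
    have h1 := Int.floor_le (a j * ((⌈(x - β) / α⌉ + r : ℤ) : ℝ) + b j)
    have h2 := Int.lt_floor_add_one (a j * ((⌈(x - β) / α⌉ + r : ℤ) : ℝ) + b j)
    have h3 : a j * |β| / α + a j * (r + 1) + |b j| ≤ ∑ j, (a j * |β| / α + a j * (r + 1) + |b j|) :=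
      single_le_sum (f := fun j => a j * |β| / α + a j * (r + 1) + |b j|)
        (fun j _ => by have := ha j; positivity) (mem_univ j)
    have h4 := neg_abs_le (b j)
    have h5 := le_abs_self (b j)
    have h6 := Int.le_ceil ((x - β) / α)
    have h7 := Int.ceil_lt_add_one ((x - β) / α)
    have h8 : a j * ((x - β) / α) = a j / α * x - a j * β / α := by ring
    have h9 : |a j * β / α| = a j * |β| / α := by
      rw [abs_div, abs_mul, abs_of_pos haj, abs_of_pos hα]
    have h10 := neg_abs_le (a j * β / α)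
    have h11 := le_abs_self (a j * β / α)
    rw [h9] at h10 h11
    have h12 : a j * ((x - β) / α) + a j * r ≤ a j * ((⌈(x - β) / α⌉ + r : ℤ) : ℝ) := by
      push_cast
      rw [← mul_add]
      gcongr
    have h13 : a j * ((⌈(x - β) / α⌉ + r : ℤ) : ℝ) ≤ a j * ((x - β) / α) + a j * (r + 1) := by
      push_cast
      rw [← mul_add]
      refine mul_le_mul_of_nonneg_left ?_ haj.le
      linarith
    have h14 : 0 ≤ a j * r := by positivity
    have h15 : 0 ≤ a j * ((r : ℝ) + 1) := by positivity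
    rw [abs_le]
    constructor <;> linarith
  · intro δ hδ
    have hL := (Lc_base α β hα).or (Lc_base α (β - 1) hα)
    obtain ⟨δ', hδ', p0, hp0⟩ := hL.out δ hδ
    refine ⟨δ', hδ', max p0 1, fun p hp => ?_⟩
    obtain ⟨N0, hN0⟩ := hp0 p ((le_max_left _ _).trans hp)
    refine ⟨N0, fun N hN => le_trans ?_ (hN0 N hN)⟩
    have hp1 : (0 : ℝ) < p := by
      have : 1 ≤ p := (le_max_right _ _).trans hp
      exact_mod_cast this
    rw [cnt_eq]
    refine cnt_mono N fun m hm => ?_
    by_contra hcon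
    rw [not_or] at hcon
    push Not at hcon
    obtain ⟨hc1, hc2⟩ := hcon
    obtain ⟨l, hl, hbad⟩ := hm
    have hxx : (m : ℝ) / p ≤ ((m + l : ℕ) : ℝ) / p := by
      have : (m : ℝ) ≤ ((m + l : ℕ) : ℝ) := by push_cast; linarith [(Nat.cast_nonneg l : (0 : ℝ) ≤ l)]
      gcongr
    have hno : ∀ (γ : ℝ), (∀ k : ℤ, δ' * p < |(m : ℝ) - p * (α * k + γ)|) → ∀ k : ℤ,
        ¬ ((m : ℝ) / p ≤ α * k + γ ∧ α * k + γ < ((m + l : ℕ) : ℝ) / p) := by
      rintro γ h k ⟨h1, h2⟩
      rw [div_le_iff₀ hp1] at h1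
      rw [lt_div_iff₀ hp1] at h2
      have h3 := h k
      push_cast at h2
      have h4 : |(m : ℝ) - p * (α * k + γ)| ≤ δ' * p := by
        rw [abs_le]
        constructor <;> nlinarith
      linarith
    have h1 := hcell _ _ hxx (hno β hc1)
    have h2 := hno (β - 1) hc2 (⌈((m : ℝ) / p - β) / α⌉ + r)
    rcases hbad with h | ⟨j, hj⟩
    · apply h
      rw [← h1]
      constructor
      · intro h3
        by_contra h4
        apply h2
        refine ⟨by push_cast at h3 h4 ⊢; linarith, by push_cast at h3 h4 ⊢; linarith⟩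
      · intro h3
        linarith
    · apply hj
      rw [← h1]
  · intro P0 Q t δ hQ hδ
    obtain ⟨D, hD⟩ : ∃ D, D = P0.factorial := ⟨_, rfl⟩
    have hD1 : 1 ≤ D := by rw [hD]; exact Nat.factorial_pos P0
    have hD0 : (0 : ℝ) < D := by exact_mod_cast hD1
    -- the sparse sets
    have hS : Sp (fun η m => ∃ i : Fin P0,
        ((nz (((m : ℝ) - ((i : ℕ) + 1 : ℕ) * β) / (((i : ℕ) + 1 : ℕ) * α)) η ∨
          nz (((m : ℝ) - ((i : ℕ) + 1 : ℕ) * β) / (((i : ℕ) + 1 : ℕ) * α) + 1 / α) η) ∨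
        ∃ j : Fin s, ((Irrational (a j) ∧ nz (a j * ((⌈((m : ℝ) - ((i : ℕ) + 1 : ℕ) * β) /
          (((i : ℕ) + 1 : ℕ) * α)⌉ + r : ℤ) : ℝ) + b j) η) ∨ nz (a j / α * m + 0) η))) := by
      refine Sp.ex fun i => ?_
      have hy : (0 : ℝ) < ((i : ℕ) + 1 : ℕ) * α := by positivity
      have hyi : Irrational (1 / (((i : ℕ) + 1 : ℕ) * α)) := by
        have h1 : 1 / ((((i : ℕ) + 1 : ℕ) : ℝ) * α) = 1 / α / ((i : ℕ) + 1 : ℕ) := by
          rw [div_div, mul_comm]
        rw [h1]
        exact hα1.div_natCast (Nat.succ_ne_zero _)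
      refine (Sp.or ?_ ?_).or (Sp.ex fun j => Sp.or ?_ (Sp_lin _ _ (hθi j)))
      · refine (Sp_lin (1 / (((i : ℕ) + 1 : ℕ) * α)) (-(((i : ℕ) + 1 : ℕ) * β / (((i : ℕ) + 1 : ℕ) * α))) hyi).mono
          fun η m h => ?_
        have e1 : ((m : ℝ) - ((i : ℕ) + 1 : ℕ) * β) / (((i : ℕ) + 1 : ℕ) * α) =
          1 / (((i : ℕ) + 1 : ℕ) * α) * m + (-(((i : ℕ) + 1 : ℕ) * β / (((i : ℕ) + 1 : ℕ) * α))) := by ring
        rw [← e1]
        exact h
      · refine (Sp_lin (1 / (((i : ℕ) + 1 : ℕ) * α))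
          (-(((i : ℕ) + 1 : ℕ) * β / (((i : ℕ) + 1 : ℕ) * α)) + 1 / α) hyi).mono fun η m h => ?_
        have e1 : ((m : ℝ) - ((i : ℕ) + 1 : ℕ) * β) / (((i : ℕ) + 1 : ℕ) * α) + 1 / α =
          1 / (((i : ℕ) + 1 : ℕ) * α) * m + (-(((i : ℕ) + 1 : ℕ) * β / (((i : ℕ) + 1 : ℕ) * α)) + 1 / α) := by
          ring
        rw [← e1]
        exact h
      · by_cases hj : Irrational (a j)
        · exact (Sp_cell (a j) (b j) _ (((i : ℕ) + 1 : ℕ) * β) hj hy r).mono fun η m h => h.2
        · exact Sp_false.mono fun η m h => hj h.1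
    have hrat : ∀ᶠ η in 𝓝[>] (0 : ℝ), ∀ j, ¬ Irrational (a j) → ∀ K w : ℤ,
        |a j * K - w| ≤ η → a j * K = w := by
      refine eventually_all.2 fun j => ?_
      by_cases hj : Irrational (a j)
      · exact Eventually.of_forall fun η h => absurd hj h
      · filter_upwards [rat_far (a j) hj] with η h _
        exact h
    obtain ⟨η, ⟨h1, hη⟩, hηr⟩ := (((hS δ hδ).and self_mem_nhdsWithin).and hrat).exists
    obtain ⟨N0, hN0⟩ := eventually_atTop.1 h1
    obtain ⟨Aa, hAa⟩ : ∃ Aa : ℝ, Aa = 1 + ∑ j, a j := ⟨_, rfl⟩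
    have hAa1 : 1 ≤ Aa := by
      rw [hAa]
      have := sum_nonneg (f := a) (s := univ) fun j _ => (ha j).le
      linarith
    have hAaj : ∀ j, 1 + a j ≤ Aa := fun j => by
      rw [hAa]
      have := single_le_sum (f := a) (fun j _ => (ha j).le) (mem_univ j)
      linarith
    obtain ⟨T, hT, hTz⟩ := kro (fun o => v o / D) (fun k a' b' hb h => span_lem v hvs D hD1 k a' b' hb h)
      Q t hQ (η / (D * Aa)) (by positivity)
    choose z hz using hTz
    refine ⟨T, hT, N0, fun N hN => le_trans ?_ (hN0 N hN)⟩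
    rw [cnt_eq]
    refine cnt_mono N fun m hm => ?_
    by_contra hcon
    rw [not_exists] at hcon
    obtain ⟨p, hp1, hpP, hbad⟩ := hm
    obtain ⟨e, he⟩ : ∃ e, D = p * e := by
      rw [hD]
      exact Nat.dvd_factorial hp1 hpP
    have hp0 : (0 : ℝ) < p := by exact_mod_cast hp1
    have hDe : (D : ℝ) = p * e := by exact_mod_cast he
    have he0 : (0 : ℝ) < e := by
      have : (p : ℝ) * e ≠ 0 := by rw [← hDe]; exact hD0.ne'
      rcases (Nat.cast_nonneg e : (0 : ℝ) ≤ e).eq_or_lt with h | h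
      · exact absurd (by rw [← h, mul_zero]) this
      · exact h
    have he1 : (e : ℝ) ≤ D := by
      rw [hDe]
      have : (1 : ℝ) ≤ p := by exact_mod_cast hp1
      nlinarith
    have hc := hcon ⟨p - 1, by omega⟩
    have h4 : ((⟨p - 1, by omega⟩ : Fin P0) : ℕ) + 1 = p := by
      show p - 1 + 1 = p
      omega
    rw [h4] at hc
    rw [not_or, not_or, not_exists] at hc
    obtain ⟨⟨hc1, hc2⟩, hc3⟩ := hc
    -- the shift of the argument
    obtain ⟨u, hu⟩ : ∃ u : ℝ, u = ((m : ℝ) - p * β) / (p * α) := ⟨_, rfl⟩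
    rw [← hu] at hc1 hc2 hc3
    obtain ⟨w0, hw0⟩ : ∃ w : ℝ, w = v none / D * T - z none := ⟨_, rfl⟩
    have hw01 : |w0| ≤ η / (D * Aa) := by rw [hw0]; exact (hz none).le
    have hv1 : v none = 1 / α := by rw [hv]; rfl
    have hv2 : ∀ j, v (some j) = a j / α := fun j => by rw [hv]; rfl
    have hη' : ∀ w : ℝ, |w| ≤ η / (D * Aa) → D * (|w| * Aa) ≤ η := by
      intro w hw
      rw [le_div_iff₀ (by positivity)] at hw
      linarith
    obtain ⟨K, hK⟩ : ∃ K : ℤ, K = e * z none := ⟨_, rfl⟩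
    have hux : ((m : ℝ) / p - β) / α = u := by
      rw [hu]
      field_simp
    have hux' : (((m + T : ℕ) : ℝ) / p - β) / α = u + e * w0 + (K : ℝ) := by
      rw [hu, hK, hw0, hv1]
      push_cast
      rw [hDe]
      field_simp
      ring
    have hew0 : |e * w0| ≤ η := by
      rw [abs_mul, abs_of_pos he0]
      have h5 := hη' w0 hw01
      have h6 : (e : ℝ) * |w0| ≤ D * (|w0| * Aa) := by
        have : |w0| ≤ |w0| * Aa := le_mul_of_one_le_right (abs_nonneg _) hAa1
        calc (e : ℝ) * |w0| ≤ D * |w0| := by gcongr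
          _ ≤ _ := by gcongr
      linarith
    have hceil : ⌈(((m + T : ℕ) : ℝ) / p - β) / α⌉ = ⌈u⌉ + K := by
      rw [hux', Int.ceil_add_intCast, ceil_shift hc1 hew0]
    rcases hbad with h | ⟨j, hj⟩
    · apply h
      rw [hceil, hux]
      have h5 : ∀ (n : ℤ) (x : ℝ), (α * (n : ℝ) + β < x + 1 ↔ n < ⌈(x - β) / α + 1 / α⌉) := by
        intro n x
        rw [Int.lt_ceil, ← add_div, lt_div_iff₀ hα]
        constructor <;> intro h <;> linarith
      rw [h5, h5, hux, hux']
      have h6 : u + e * w0 + (K : ℝ) + 1 / α = (u + 1 / α) + e * w0 + (K : ℝ) := by ring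
      rw [h6, Int.ceil_add_intCast, ceil_shift hc2 hew0]
      constructor <;> intro h <;> omega
    · apply hj
      rw [hceil, hux]
      have haj := ha j
      have hc4 := hc3 j
      rw [not_or] at hc4
      obtain ⟨hc5, hc6⟩ := hc4
      obtain ⟨w, hw⟩ : ∃ w : ℝ, w = v (some j) / D * T - z (some j) := ⟨_, rfl⟩
      have hw1 : |w| ≤ η / (D * Aa) := by rw [hw]; exact (hz (some j)).le
      have hσ : a j * K - ((e * z (some j) : ℤ) : ℝ) = e * w - e * a j * w0 := by
        rw [hw, hw0, hK, hv1, hv2]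
        push_cast
        ring
      have hσ1 : |a j * K - ((e * z (some j) : ℤ) : ℝ)| ≤ η := by
        rw [hσ]
        refine (abs_sub _ _).trans ?_
        rw [abs_mul, abs_mul, abs_mul, abs_of_pos he0, abs_of_pos haj]
        have h7 : (e : ℝ) * |w| + e * a j * |w0| ≤ D * ((η / (D * Aa)) * (1 + a j)) := by
          calc (e : ℝ) * |w| + e * a j * |w0| ≤ e * (η / (D * Aa)) + e * a j * (η / (D * Aa)) := by gcongr
            _ = e * ((η / (D * Aa)) * (1 + a j)) := by ring
            _ ≤ _ := by gcongr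
        have h8 : D * ((η / (D * Aa)) * (1 + a j)) ≤ D * ((η / (D * Aa)) * Aa) := by
          have := hAaj j
          gcongr
        have h9 : D * ((η / (D * Aa)) * Aa) = η := by field_simp
        linarith
      have hDw : |D * w| ≤ η := by
        rw [abs_mul, abs_of_pos hD0]
        have h5 := hη' w hw1
        have h6 : (D : ℝ) * |w| ≤ D * (|w| * Aa) := by
          have : |w| ≤ |w| * Aa := le_mul_of_one_le_right (abs_nonneg _) hAa1
          gcongr
        linarith
      have e1 : a j * ((⌈u⌉ + K + r : ℤ) : ℝ) + b j = (a j * ((⌈u⌉ + r : ℤ) : ℝ) + b j +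
          (a j * K - ((e * z (some j) : ℤ) : ℝ))) + ((e * z (some j) : ℤ) : ℝ) := by
        push_cast
        ring
      have e2 : a j / α * ((m + T : ℕ) : ℝ) = (a j / α * m + 0 + D * w) + ((D * z (some j) : ℤ) : ℝ) := by
        rw [hw, hv2]
        push_cast
        field_simp
        ring
      have hfl : ⌊a j * ((⌈u⌉ + r : ℤ) : ℝ) + b j + (a j * K - ((e * z (some j) : ℤ) : ℝ))⌋ =
          ⌊a j * ((⌈u⌉ + r : ℤ) : ℝ) + b j⌋ := by
        by_cases hirr : Irrational (a j)
        · exact floor_shift (fun h => hc5 ⟨hirr, h⟩) hσ1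
        · have := hηr j hirr K (e * z (some j)) hσ1
          rw [this, sub_self, add_zero]
      rw [e1, e2, Int.floor_add_intCast, Int.floor_add_intCast, hfl, floor_shift hc6 hDw, add_zero]
      have e4 : (D : ℤ) = p * e := by exact_mod_cast he
      rw [e4]
      ring

end Pool.Agent.Q270.EH
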