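import Pool.Agent.Q270.EH.Red
import Pool.Agent.Q270.EH.Bea
import Pool.Agent.TH823.MRS.Circ2

/-!
Project EH (helper270): assembly.
-/

set_option autoImplicit false

namespace Pool.Agent.Q270.EH

open Finset Filter Pool.Agent.Q270.EA Pool.Agent.Q270.EB Pool.Agent.Q270.EC
open Pool.Agent.TH823.MRS (ExpoSmall win_l1)
open Pool.Agent.H807R2.Dav (ee ee_zero)

/-- short sums -/
lemma short_of_expo (f : ℕ → ℂ) (hE : ExpoSmall f) (ε : ℝ) (hε : 0 < ε) : ∃ h₀ : ℕ, ∀ h : ℕ, h₀ ≤ h →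
    ∃ N₀ : ℕ, ∀ N : ℕ, N₀ ≤ N → ∑ n ∈ Icc 1 N, ‖∑ l ∈ range h, f (n + l)‖ ≤ ε * h * N := by
  classical
  obtain ⟨W₀, X₀, hW⟩ := win_l1 f hE ε hε
  refine ⟨max W₀ 1, fun h hh => ⟨max X₀ h, fun N hN => ?_⟩⟩
  have hh1 : 1 ≤ h := (le_max_right _ _).trans hh
  have hNh : h ≤ N := (le_max_right _ _).trans hN
  have hmain := hW N ((le_max_left _ _).trans hN) h ((le_max_left _ _).trans hh) hNh 0
  refine le_trans ?_ hmain
  have h1 : ∑ n ∈ Icc 1 N, ‖∑ l ∈ range h, f (n + l)‖ = ∑ z ∈ (Icc 1 N).image (fun n => n + h - 1),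
      ‖∑ n ∈ Icc 1 (3 * N), if n ≤ z ∧ z < n + h then f n * ee ((n : ℝ) * 0) else 0‖ := by
    rw [sum_image (fun x hx y hy hxy => by
      rw [mem_coe, mem_Icc] at hx hy
      omega)]
    refine sum_congr rfl fun n hn => ?_
    rw [mem_Icc] at hn
    congr 1
    rw [← sum_filter]
    have h2 : (Icc 1 (3 * N)).filter (fun x => x ≤ n + h - 1 ∧ n + h - 1 < x + h) = Ico n (n + h) := by
      ext x
      rw [mem_filter, mem_Icc, mem_Ico]
      omega
    rw [h2, sum_Ico_eq_sum_range, Nat.add_sub_cancel_left]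
    refine sum_congr rfl fun l _ => ?_
    rw [mul_zero, ee_zero, mul_one]
  rw [h1]
  refine sum_le_sum_of_subset_of_nonneg ?_ fun _ _ _ => norm_nonneg _
  intro z hz
  rw [mem_image] at hz
  obtain ⟨n, hn, rfl⟩ := hz
  rw [mem_Icc] at hn
  rw [mem_range]
  omega

/-- averages over the scales -/
lemma EX_const (X : ℕ) (c : ℕ → ℝ) :
    EX X (fun N _ => c N) * ∑ N ∈ Icc 1 X, 1 / (N : ℝ) = ∑ N ∈ Icc 1 X, (1 / (N : ℝ)) * c N := by
  unfold EX
  have h1 : ∑ N ∈ Icc 1 X, (1 / (N : ℝ)) * ((1 / (N : ℝ)) * ∑ _n ∈ Icc 1 N, c N) =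
      ∑ N ∈ Icc 1 X, (1 / (N : ℝ)) * c N := by
    refine sum_congr rfl fun N hN => ?_
    have hN1 : (0 : ℝ) < N := by exact_mod_cast (mem_Icc.1 hN).1
    rw [sum_const, Nat.card_Icc, Nat.add_sub_cancel, nsmul_eq_mul]
    field_simp
  rw [h1]
  rcases Nat.eq_zero_or_pos X with h0 | h0
  · subst h0; simp
  · have hpos : 0 < ∑ N ∈ Icc 1 X, 1 / (N : ℝ) :=
      sum_pos (fun N hN => by
        have : (0 : ℝ) < N := by exact_mod_cast (mem_Icc.1 hN).1
        positivity) ⟨1, mem_Icc.2 ⟨le_rfl, h0⟩⟩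
    exact div_mul_cancel₀ _ hpos.ne'

lemma log_transfer (H V : ℕ → ℝ) (M : ℕ → ℕ) (C0 A R' : ℝ) (hC0 : 0 ≤ C0) (hA : 0 < A) (hR' : 0 ≤ R')
    (hH : ∀ m, 0 ≤ H m) (hV : ∀ N, 1 ≤ N → V N ≤ C0 / N + (M N / N) * H (M N))
    (hM : ∀ N : ℕ, 1 ≤ N → (M N : ℝ) ≤ A * N)
    (hfib : ∀ Y m : ℕ, (((Icc 1 Y).filter (fun N => M N = m)).card : ℝ) ≤ R') (Y : ℕ) :
    ∑ N ∈ Icc 1 Y, (1 / (N : ℝ)) * V N ≤ 2 * C0 + A ^ 2 * R' * ∑ m ∈ Icc 1 ⌊A * Y⌋₊, (1 / (m : ℝ)) * H m := by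
  have h1 : ∀ N ∈ Icc 1 Y, (1 / (N : ℝ)) * V N ≤ C0 * (1 / (N : ℝ) ^ 2) +
      A ^ 2 * (if 1 ≤ M N then (1 / (M N : ℝ)) * H (M N) else 0) := by
    intro N hN
    have hN1 := (mem_Icc.1 hN).1
    have hN0 : (0 : ℝ) < N := by exact_mod_cast hN1
    have h2 := hV N hN1
    have h3 : (1 / (N : ℝ)) * V N ≤ (1 / (N : ℝ)) * (C0 / N + (M N / N) * H (M N)) := by gcongr
    refine h3.trans ?_
    rw [mul_add]
    have h4 : (1 / (N : ℝ)) * (C0 / N) = C0 * (1 / (N : ℝ) ^ 2) := by ring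
    rw [h4]
    refine add_le_add le_rfl ?_
    split_ifs with hm
    · have hm0 : (0 : ℝ) < M N := by exact_mod_cast hm
      have h5 := hM N hN1
      have h6 : (1 / (N : ℝ)) * ((M N / N) * H (M N)) = ((M N : ℝ) / N) ^ 2 * ((1 / (M N : ℝ)) * H (M N)) := by
        field_simp
      rw [h6]
      have h7 : (M N : ℝ) / N ≤ A := by rw [div_le_iff₀ hN0]; exact h5
      have h8 := hH (M N)
      gcongr
    · have : M N = 0 := by omega
      rw [this]
      simp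
  refine (sum_le_sum h1).trans ?_
  rw [sum_add_distrib, ← mul_sum, ← mul_sum]
  have h2 : ∑ N ∈ Icc 1 Y, 1 / (N : ℝ) ^ 2 ≤ 2 := by
    have : ∀ Y : ℕ, ∑ N ∈ Icc 1 (Y + 1), 1 / (N : ℝ) ^ 2 ≤ 2 - 1 / (Y + 1 : ℝ) := by
      intro Y
      induction Y with
      | zero => norm_num
      | succ Y ih =>
        rw [sum_Icc_succ_top (by omega)]
        push_cast
        push_cast at ih
        have h3 : (0 : ℝ) ≤ Y := by positivity
        have h4 : 1 / ((Y : ℝ) + 1 + 1) ^ 2 ≤ 1 / ((Y : ℝ) + 1) - 1 / ((Y : ℝ) + 1 + 1) := by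
          have e1 : 1 / ((Y : ℝ) + 1) - 1 / ((Y : ℝ) + 1 + 1) = 1 / (((Y : ℝ) + 1) * ((Y : ℝ) + 1 + 1)) := by
            field_simp
            ring
          rw [e1]
          apply one_div_le_one_div_of_le (by positivity)
          nlinarith
        linarith
    rcases Nat.eq_zero_or_pos Y with h0 | h0
    · subst h0; simp
    · obtain ⟨Y', rfl⟩ : ∃ Y', Y = Y' + 1 := ⟨Y - 1, by omega⟩
      refine (this Y').trans ?_
      have : (0 : ℝ) ≤ 1 / (Y' + 1 : ℝ) := by positivity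
      linarith
  have h3 : ∑ N ∈ Icc 1 Y, (if 1 ≤ M N then (1 / (M N : ℝ)) * H (M N) else 0) ≤
      R' * ∑ m ∈ Icc 1 ⌊A * Y⌋₊, (1 / (m : ℝ)) * H m := by
    rw [← sum_filter]
    have hmaps : ∀ N ∈ (Icc 1 Y).filter (fun N => 1 ≤ M N), M N ∈ Icc 1 ⌊A * Y⌋₊ := by
      intro N hN
      rw [mem_filter, mem_Icc] at hN
      rw [mem_Icc]
      refine ⟨hN.2, Nat.le_floor ?_⟩
      have h4 : (N : ℝ) ≤ Y := by exact_mod_cast hN.1.2
      calc (M N : ℝ) ≤ A * N := hM N hN.1.1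
        _ ≤ A * Y := by gcongr
    rw [← sum_fiberwise_of_maps_to hmaps, mul_sum]
    refine sum_le_sum fun m hm => ?_
    have h4 : ∀ N ∈ ((Icc 1 Y).filter (fun N => 1 ≤ M N)).filter (fun N => M N = m),
        (1 / (M N : ℝ)) * H (M N) = (1 / (m : ℝ)) * H m := by
      intro N hN
      rw [(mem_filter.1 hN).2]
    rw [sum_congr rfl h4, sum_const, nsmul_eq_mul]
    have h5 : ((((Icc 1 Y).filter (fun N => 1 ≤ M N)).filter (fun N => M N = m)).card : ℝ) ≤ R' := by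
      refine le_trans ?_ (hfib Y m)
      have : ((Icc 1 Y).filter (fun N => 1 ≤ M N)).filter (fun N => M N = m) ⊆
          (Icc 1 Y).filter (fun N => M N = m) := by
        intro N hN
        rw [mem_filter, mem_filter] at hN
        exact mem_filter.2 ⟨hN.1.1, hN.2⟩
      exact_mod_cast card_le_card this
    have h6 := hH m
    have h7 : (0 : ℝ) ≤ (1 / (m : ℝ)) * H m := by positivity
    gcongr
  calc _ ≤ C0 * 2 + A ^ 2 * (R' * ∑ m ∈ Icc 1 ⌊A * Y⌋₊, (1 / (m : ℝ)) * H m) := by gcongr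
    _ = _ := by ring

/-- the sum over the index in terms of the main line -/
lemma cellsum (α β : ℝ) (hα : 0 < α) (f : ℕ → ℂ) (hf1 : ∀ n, ‖f n‖ ≤ 1) (w : ℤ → ℂ)
    (hw1 : ∀ n, ‖w n‖ ≤ 1) (R : ℕ) (hR : 1 / α ≤ R) (N : ℕ) :
    ‖∑ n ∈ Icc 1 N, f ⌊α * (n : ℝ) + β⌋₊ * w n - ∑ r ∈ range R, ∑ m ∈ Icc 1 ⌊α * (N : ℝ) + β⌋₊,
      (f m * (open scoped Classical in (if α * ((⌈((m : ℝ) - β) / α⌉ + r : ℤ) : ℝ) + β < m + 1 then (1 : ℂ) else 0)) *
        w (⌈((m : ℝ) - β) / α⌉ + r))‖ ≤ 2 * ((1 + |β|) / α) + 1 + (2 * R + 1) * (2 + |β|) := by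
  classical
  obtain ⟨L, hL⟩ : ∃ L : ℕ → ℕ, L = fun (n : ℕ) => ⌊α * (n : ℝ) + β⌋₊ := ⟨_, rfl⟩
  have hLm : Monotone L := fun x y hxy => by
    rw [hL]
    dsimp only
    refine Nat.floor_le_floor ?_
    have : (x : ℝ) ≤ y := by exact_mod_cast hxy
    gcongr
  have hLiff : ∀ n m : ℕ, 1 ≤ m → (L n = m ↔ (m : ℝ) ≤ α * n + β ∧ α * n + β < m + 1) := by
    intro n m hm
    rw [hL]
    dsimp only
    rw [Nat.floor_eq_iff' (by omega)]
  obtain ⟨M, hM⟩ : ∃ M, M = L N := ⟨_, rfl⟩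
  have hM' : ⌊α * (N : ℝ) + β⌋₊ = M := by rw [hM, hL]
  rw [hM']
  obtain ⟨B, hB⟩ : ∃ B : ℕ → ℂ, B = fun m => ∑ r ∈ range R,
      (f m * (if α * ((⌈((m : ℝ) - β) / α⌉ + r : ℤ) : ℝ) + β < m + 1 then (1 : ℂ) else 0) *
        w (⌈((m : ℝ) - β) / α⌉ + r)) := ⟨_, rfl⟩
  obtain ⟨D, hD⟩ : ∃ D : ℕ → ℂ, D = fun m => ∑ n ∈ (Icc 1 N).filter (fun n => L n = m),
      f (L n) * w n := ⟨_, rfl⟩
  have hterm : ∀ n : ℕ, ‖f (L n) * w n‖ ≤ 1 := fun n => by
    rw [norm_mul]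
    exact mul_le_one₀ (hf1 _) (norm_nonneg _) (hw1 _)
  have hαinv : 0 < 1 / α := by positivity
  have hBb : ∀ m, ‖B m‖ ≤ R := fun m => by
    rw [hB]
    refine (norm_sum_le _ _).trans ((sum_le_sum (g := fun _ => (1 : ℝ)) fun r _ => ?_).trans ?_)
    · rw [norm_mul, norm_mul]
      refine mul_le_one₀ (mul_le_one₀ (hf1 _) (norm_nonneg _) ?_) (norm_nonneg _) (hw1 _)
      split_ifs <;> simp
    · simp
  have hDb : ∀ m, 1 ≤ m → ‖D m‖ ≤ R + 1 := fun m hm => by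
    rw [hD]
    refine (norm_sum_le _ _).trans ((sum_le_sum (g := fun _ => (1 : ℝ)) fun n _ => hterm n).trans ?_)
    rw [sum_const, nsmul_eq_mul, mul_one]
    have h1 := card_near (((m : ℝ) - β) / α + 1 / α / 2) (1 / α / 2) (by positivity)
      ((Icc 1 N).filter (fun n => L n = m)) (fun n hn => by
        have h2 := (hLiff n m hm).1 (mem_filter.1 hn).2
        have h3 : ((m : ℝ) - β) / α ≤ n := by rw [div_le_iff₀ hα]; linarith [h2.1]
        have h4 : (n : ℝ) ≤ ((m : ℝ) - β) / α + 1 / α := by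
          rw [← add_div, le_div_iff₀ hα]; linarith [h2.2]
        rw [abs_le]
        constructor <;> linarith)
    linarith
  have hsplit : ∑ n ∈ Icc 1 N, f (L n) * w n = D 0 + ∑ m ∈ Icc 1 M, D m := by
    have hmaps : ∀ n ∈ Icc 1 N, L n ∈ Icc 0 M := by
      intro n hn
      rw [mem_Icc, hM]
      exact ⟨Nat.zero_le _, hLm (mem_Icc.1 hn).2⟩
    rw [← sum_fiberwise_of_maps_to hmaps]
    have h1 : Icc 0 M = insert 0 (Icc 1 M) := by
      ext x
      rw [mem_insert, mem_Icc, mem_Icc]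
      omega
    rw [h1, sum_insert (by simp), hD]
  have hD0 : ‖D 0‖ ≤ 2 * ((1 + |β|) / α) + 1 := by
    rw [hD]
    refine (norm_sum_le _ _).trans ((sum_le_sum (g := fun _ => (1 : ℝ)) fun n _ => hterm n).trans ?_)
    rw [sum_const, nsmul_eq_mul, mul_one]
    refine card_near 0 ((1 + |β|) / α) (by positivity) _ (fun n hn => ?_)
    have h2 := (mem_filter.1 hn).2
    rw [hL] at h2
    dsimp only at h2
    rw [Nat.floor_eq_zero] at h2
    rw [sub_zero, abs_of_nonneg (by positivity), le_div_iff₀ hα]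
    have := neg_abs_le β
    linarith
  -- the good cells
  have hgood : ∀ m, 1 ≤ m → m < M → |β| < m → D m = B m := by
    intro m hm hmM hβ
    have hm0 : (1 : ℝ) ≤ m := by exact_mod_cast hm
    have hβ1 := neg_abs_le β
    have hβ2 := le_abs_self β
    obtain ⟨c, hc⟩ : ∃ c : ℤ, c = ⌈((m : ℝ) - β) / α⌉ := ⟨_, rfl⟩
    have hc1 : ((m : ℝ) - β) ≤ α * c := by
      have := Int.le_ceil (((m : ℝ) - β) / α)
      rw [← hc, div_le_iff₀ hα] at this
      linarith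
    have hc0 : 1 ≤ c := by
      have : (0 : ℝ) < ((m : ℝ) - β) / α := by
        apply div_pos _ hα
        linarith
      rw [hc]
      exact Int.one_le_ceil_iff.2 this
    have hB' : B m = ∑ r ∈ (range R).filter (fun r : ℕ => α * ((c + r : ℤ) : ℝ) + β < m + 1), f m * w (c + r) := by
      rw [hB, sum_filter]
      dsimp only
      refine sum_congr rfl fun r _ => ?_
      rw [← hc]
      split_ifs <;> simp
    rw [hB', hD]
    symm
    refine sum_nbij' (fun r => (c + r).toNat) (fun n => ((n : ℤ) - c).toNat) ?_ ?_ ?_ ?_ ?_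
    · intro r hr
      rw [mem_filter, mem_range] at hr
      obtain ⟨hr1, hr2⟩ := hr
      have h1 : (((c + r).toNat : ℕ) : ℤ) = c + r := Int.toNat_of_nonneg (by omega)
      have h2 : (((c + r).toNat : ℕ) : ℝ) = ((c + r : ℤ) : ℝ) := by exact_mod_cast h1
      have h3 : (m : ℝ) ≤ α * ((c + r : ℤ) : ℝ) + β := by
        push_cast
        have : 0 ≤ α * (r : ℝ) := by positivity
        nlinarith
      rw [mem_filter, mem_Icc, hLiff _ _ hm, h2]
      refine ⟨⟨by omega, ?_⟩, h3, hr2⟩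
      -- at most N
      by_contra hlt
      push Not at hlt
      have h4 : M ≤ L ((c + r).toNat) := by
        rw [hM]
        exact hLm hlt.le
      have h5 : L ((c + r).toNat) = m := by
        rw [hLiff _ _ hm, h2]
        exact ⟨h3, hr2⟩
      omega
    · intro n hn
      rw [mem_filter, mem_Icc, hLiff _ _ hm] at hn
      obtain ⟨⟨hn1, hn2⟩, hn3, hn4⟩ := hn
      have h1 : c ≤ n := by
        rw [hc]
        refine Int.ceil_le.2 ?_
        push_cast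
        rw [div_le_iff₀ hα]
        linarith
      have h2 : ((((n : ℤ) - c).toNat : ℕ) : ℤ) = n - c := Int.toNat_of_nonneg (by omega)
      have h3 : ((((n : ℤ) - c).toNat : ℕ) : ℝ) = (n : ℝ) - c := by exact_mod_cast h2
      rw [mem_filter, mem_range]
      constructor
      · have h4 : ((((n : ℤ) - c).toNat : ℕ) : ℝ) < R := by
          rw [h3]
          refine lt_of_lt_of_le ?_ hR
          rw [lt_div_iff₀ hα]
          linarith
        exact_mod_cast h4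
      · push_cast
        rw [h3]
        have : α * ((c : ℝ) + (n - c)) = α * n := by ring
        rw [this]
        exact hn4
    · intro r _
      rw [Int.toNat_of_nonneg (by omega)]
      omega
    · intro n hn
      rw [mem_filter, mem_Icc, hLiff _ _ hm] at hn
      obtain ⟨⟨hn1, hn2⟩, hn3, hn4⟩ := hn
      have h1 : c ≤ n := by
        rw [hc]
        refine Int.ceil_le.2 ?_
        push_cast
        rw [div_le_iff₀ hα]
        linarith
      rw [Int.toNat_of_nonneg (by omega)]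
      omega
    · intro r hr
      rw [mem_filter, mem_range] at hr
      obtain ⟨hr1, hr2⟩ := hr
      have h1 : (((c + r).toNat : ℕ) : ℤ) = c + r := Int.toNat_of_nonneg (by omega)
      have h2 : (((c + r).toNat : ℕ) : ℝ) = ((c + r : ℤ) : ℝ) := by exact_mod_cast h1
      have h3 : (m : ℝ) ≤ α * ((c + r : ℤ) : ℝ) + β := by
        push_cast
        have : 0 ≤ α * (r : ℝ) := by positivity
        nlinarith
      have h5 : L ((c + r).toNat) = m := by
        rw [hLiff _ _ hm, h2]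
        exact ⟨h3, hr2⟩
      rw [h5, h1]
  have hswap : ∑ r ∈ range R, ∑ m ∈ Icc 1 M,
      (f m * (if α * ((⌈((m : ℝ) - β) / α⌉ + r : ℤ) : ℝ) + β < m + 1 then (1 : ℂ) else 0) *
        w (⌈((m : ℝ) - β) / α⌉ + r)) = ∑ m ∈ Icc 1 M, B m := by
    rw [sum_comm, hB]
  have hfin : ‖∑ m ∈ Icc 1 M, (D m - B m)‖ ≤ (2 * R + 1) * (2 + |β|) := by
    have h1 : ∀ m ∈ Icc 1 M, ‖D m - B m‖ ≤ if (m = M ∨ (m : ℝ) ≤ |β|) then (2 * R + 1 : ℝ) else 0 := by
      intro m hm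
      rw [mem_Icc] at hm
      split_ifs with hb
      · refine (norm_sub_le _ _).trans ?_
        have := hDb m hm.1
        have := hBb m
        linarith
      · rw [not_or] at hb
        rw [hgood m hm.1 (by omega) (by push Not at hb; exact hb.2), sub_self, norm_zero]
    refine (norm_sum_le _ _).trans ((sum_le_sum h1).trans ?_)
    rw [← sum_filter, sum_const, nsmul_eq_mul, mul_comm]
    have h2 : (((Icc 1 M).filter (fun m : ℕ => m = M ∨ (m : ℝ) ≤ |β|)).card : ℝ) ≤ 2 + |β| := by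
      have h3 : (Icc 1 M).filter (fun m : ℕ => m = M ∨ (m : ℝ) ≤ |β|) ⊆ insert M (Icc 1 ⌊|β|⌋₊) := by
        intro m hm
        rw [mem_filter, mem_Icc] at hm
        obtain ⟨hm1, hm2 | hm2⟩ := hm
        · rw [hm2]; exact mem_insert_self _ _
        · refine mem_insert_of_mem ?_
          rw [mem_Icc]
          exact ⟨hm1.1, Nat.le_floor hm2⟩
      have h4 := (card_le_card h3).trans (card_insert_le _ _)
      rw [Nat.card_Icc, Nat.add_sub_cancel] at h4
      have h5 : (((Icc 1 M).filter (fun m : ℕ => m = M ∨ (m : ℝ) ≤ |β|)).card : ℝ) ≤ ⌊|β|⌋₊ + 1 := by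
        exact_mod_cast h4
      have h6 := Nat.floor_le (abs_nonneg β)
      linarith
    gcongr
  have e1 : ∑ n ∈ Icc 1 N, f ⌊α * (n : ℝ) + β⌋₊ * w n = ∑ n ∈ Icc 1 N, f (L n) * w n := by rw [hL]
  rw [hswap, e1, hsplit, add_sub_assoc, ← sum_sub_distrib]
  refine (norm_add_le _ _).trans ?_
  linarith

end Pool.Agent.Q270.EH
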