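import Pool.Agent.Q270.EC.MX

/-!
Project EH (helper270): decoupling of the divisibility by `p` from a function of the window and of
the factor. Adapted from `Pool/Agent/Q261/EC/GOOD2.lean`.
-/

set_option autoImplicit false

namespace Pool.Agent.Q270.EH

open Finset Filter Pool.Agent.Q270.EA Pool.Agent.Q270.EC

/-- GOOD3: at a good scale the weight `p 1_{p | ν}` can be replaced by `1`, in the presence of
functions `ψ p` of the window and of the factor. -/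
theorem good3 {Ω A : Type} [Fintype A] (M : Sys Ω) (a : Ω → A) (κ : Ω → ℕ → ℂ) (β : Ω → ℕ → Prop)
    (ψ : ℕ → Ω → ℂ) (hκ1 : ∀ ω p, ‖κ ω p‖ ≤ 1) (hκS : ∀ ω, κ (M.S ω) = κ ω)
    (hψ1 : ∀ p ω, ‖ψ p ω‖ ≤ 1)
    (hIn : Indp M κ (fun e ω => open scoped Classical in if β ω e then (1 : ℂ) else 0))
    (h0 y0 : ℕ) (hh0 : y0 + 1 ≤ h0)
    (hdet : ∀ j : ℕ, ∃ i0 : ℕ, ∀ p ∈ PD j, ∀ l < 2 ^ j, ∀ ω ω' : Ω,
      win M a (h0 * 2 ^ j) ω = win M a (h0 * 2 ^ j) ω' →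
      (∀ l' < i0, ∀ e < i0, (β (M.S^[l'] ω) e ↔ β (M.S^[l'] ω') e)) →
      ψ p (M.S^[y0 * 2 ^ j + l] ω) = ψ p (M.S^[y0 * 2 ^ j + l] ω'))
    (ε : ℝ) (hε : 0 < ε) (J : ℕ) :
    ∃ j : ℕ, J ≤ j ∧
      ‖(∑ p ∈ PD j, mc M (fun ω => (if p ∣ M.ν ω then (p : ℂ) else 0) * (κ ω p * ψ p ω))) -
        ∑ p ∈ PD j, mc M (fun ω => κ ω p * ψ p ω)‖ ≤ ε * (PD j).card := by
  classical
  -- parameters
  obtain ⟨δ, hδ⟩ : ∃ δ, δ = ε / 12 := ⟨_, rfl⟩
  have hδ0 : 0 < δ := by rw [hδ]; positivity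
  obtain ⟨τ, hτ⟩ : ∃ τ, τ = ε / 100 := ⟨_, rfl⟩
  have hτ0 : 0 < τ := by rw [hτ]; positivity
  obtain ⟨R, iR, enc₀, dec, hR⟩ := t_RND δ hδ0
  obtain ⟨enc, henc⟩ : ∃ enc : ℂ → R × Bool, enc = fun z => (enc₀ z, decide (z = 1)) := ⟨_, rfl⟩
  obtain ⟨de, hde⟩ : ∃ de : R × Bool → ℂ, de = fun r => if ‖dec r.1‖ ≤ 1 then dec r.1 else 0 := ⟨_, rfl⟩
  have hde1 : ∀ r, ‖de r‖ ≤ 1 := fun r => by
    rw [hde]
    dsimp only
    split_ifs with h1
    · exact h1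
    · simp
  have hde2 : ∀ z : ℂ, ‖z‖ ≤ 1 → ‖de (enc z) - z‖ ≤ δ := fun z hz => by
    rw [hde, henc]
    dsimp only
    rw [if_pos (hR z hz).1]
    exact (hR z hz).2
  obtain ⟨B, hB⟩ : ∃ B : ℕ → Ω → ℂ, B = fun e ω => if β ω e then (1 : ℂ) else 0 := ⟨_, rfl⟩
  have hIn' : Indp M κ B := by rw [hB]; exact hIn
  have hencB : ∀ (e : ℕ) (ω ω' : Ω), enc (B e ω) = enc (B e ω') → (β ω e ↔ β ω' e) := by
    intro e ω ω' h
    rw [henc, hB] at h
    dsimp only at h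
    have h2 := (Prod.ext_iff.1 h).2
    dsimp only at h2
    by_cases h3 : β ω e <;> by_cases h4 : β ω' e <;> simp [h3, h4] at h2 ⊢
  obtain ⟨J₁, hJ₁⟩ := PD_large Pool.Agent.Q148.EA.t_CHEB (8 * Real.log 2 / (τ * ε))
  obtain ⟨κr, hκr⟩ : ∃ κr : Ω → ℕ → R × Bool, κr = fun ω p => enc (κ ω p) := ⟨_, rfl⟩
  obtain ⟨α, hα⟩ : ∃ α : Ω → ℕ → R × Bool, α = fun ω p => enc (B p ω) := ⟨_, rfl⟩
  obtain ⟨j, hjJ, -, hI0⟩ := c_DEC2 Ω A (R × Bool) (R × Bool) M a κr α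
    (fun ω => by rw [hκr]; dsimp only; rw [hκS])
    (fun n i j => by rw [hκr, hα]; exact Pool.Agent.Q177.EC.t_INDM Ω (R × Bool) M κ B enc hIn' n i j)
    h0 (τ ^ 2) 0 ∅ (max J J₁)
    (by omega) (by positivity) (fun s hs => by
      refine le_of_eq (sum_eq_zero fun j hj => ?_)
      exact absurd (hs j hj).1 (by simp))
  refine ⟨j, (le_max_left _ _).trans hjJ, ?_⟩
  have hPc := hJ₁ j ((le_max_right _ _).trans hjJ)
  obtain ⟨L, hL⟩ : ∃ L, L = h0 * 2 ^ j := ⟨_, rfl⟩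
  obtain ⟨i0, hi0⟩ := hdet j
  have hI := hI0 i0
  obtain ⟨W, hW⟩ : ∃ W : Ω → (Fin L → A) × ((Fin (2 ^ j + 1) → R × Bool) × (Fin i0 → Fin i0 → R × Bool)),
    W = fun ω => (win M a L ω, (KR κr (2 ^ j + 1) ω, qf M α i0 ω)) := ⟨_, rfl⟩
  have hI' : Real.log (QD j) - cH M (fun ω => (M.ν ω : ZMod (QD j))) W ≤
      τ ^ 2 * (PD j).card := by
    rw [← hL] at hI
    rw [hW]
    exact hI
  obtain ⟨κd, hκd⟩ : ∃ κd : ((Fin L → A) × ((Fin (2 ^ j + 1) → R × Bool) × (Fin i0 → Fin i0 → R × Bool))) →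
    ℕ → ℂ, κd = fun D p => if hp : p < 2 ^ j + 1 then de (D.2.1 ⟨p, hp⟩) else 0 := ⟨_, rfl⟩
  obtain ⟨Ψd, hΨd⟩ : ∃ Ψd : ((Fin L → A) × ((Fin (2 ^ j + 1) → R × Bool) × (Fin i0 → Fin i0 → R × Bool))) →
    ℕ → ℕ → ℂ, Ψd = fun D l p => if hD : ∃ ω, W ω = D then ψ p (M.S^[y0 * 2 ^ j + l] hD.choose)
      else 0 := ⟨_, rfl⟩
  have hκd1 : ∀ D p, ‖κd D p‖ ≤ 1 := fun D p => by
    rw [hκd]
    dsimp only
    split_ifs
    · exact hde1 _
    · simp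
  have hΨd1 : ∀ D l p, ‖Ψd D l p‖ ≤ 1 := fun D l p => by
    rw [hΨd]
    dsimp only
    split_ifs
    · exact hψ1 _ _
    · simp
  have hΨd2 : ∀ ω (l p : ℕ), l < 2 ^ j → p ∈ PD j → Ψd (W ω) l p = ψ p (M.S^[y0 * 2 ^ j + l] ω) :=
    fun ω l p hl hp => by
    have hD : ∃ ω', W ω' = W ω := ⟨ω, rfl⟩
    rw [hΨd]
    dsimp only
    rw [dif_pos hD]
    have h1 := hD.choose_spec
    obtain ⟨ω', hω'⟩ : ∃ ω', ω' = hD.choose := ⟨_, rfl⟩
    rw [← hω'] at h1 ⊢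
    rw [hW] at h1
    dsimp only at h1
    obtain ⟨h2, h3⟩ := Prod.ext_iff.1 h1
    obtain ⟨-, h4⟩ := Prod.ext_iff.1 h3
    dsimp only at h2 h4
    rw [hL] at h2
    refine hi0 p hp l hl _ _ h2 fun l' hl' e he => ?_
    have h5 := congrFun (congrFun h4 ⟨l', hl'⟩) ⟨e, he⟩
    unfold qf at h5
    rw [hα] at h5
    exact hencB e _ _ h5
  have hκd2 : ∀ ω p, p ≤ 2 ^ j → ‖κd (W ω) p - κ ω p‖ ≤ δ := fun ω p hp => by
    rw [hκd, hW]
    dsimp only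
    rw [dif_pos (by omega : p < 2 ^ j + 1)]
    unfold KR
    dsimp only
    rw [hκr]
    exact hde2 _ (hκ1 _ _)
  have hPDle : ∀ p ∈ PD j, p ≤ 2 ^ j := fun p hp => (mem_Ioc.1 (mem_filter.1 hp).1).2
  have hPDpr : ∀ p ∈ PD j, p.Prime := fun p hp => (mem_filter.1 hp).2
  have hdiff : ∀ ω (p l : ℕ), p ∈ PD j → l < 2 ^ j →
      ‖κ ω p * ψ p (M.S^[y0 * 2 ^ j + l] ω) - κd (W ω) p * Ψd (W ω) l p‖ ≤ δ := by
    intro ω p l hp hl
    rw [hΨd2 ω l p hl hp, ← sub_mul, norm_mul]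
    have h1 := hκd2 ω p (hPDle p hp)
    rw [norm_sub_rev] at h1
    exact (mul_le_of_le_one_right (norm_nonneg _) (hψ1 _ _)).trans h1
  -- the function `ζ`
  obtain ⟨ζ, hζ⟩ : ∃ ζ : ℕ → ((Fin L → A) × ((Fin (2 ^ j + 1) → R × Bool) × (Fin i0 → Fin i0 → R × Bool))) →
      ℕ → ℂ,
    ζ = fun p D r => if p ∈ PD j then (1 / ((2 ^ j : ℕ) : ℂ)) * ∑ l ∈ range (2 ^ j),
      (if p ∣ (r + y0 * 2 ^ j) + l then (p : ℂ) else 0) *
        (κd D p * Ψd D l p) else 0 := ⟨_, rfl⟩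
  -- a general bound for averages with weights
  have hwt : ∀ (p m : ℕ) (x : ℕ → ℂ) (B : ℝ), p ∈ PD j → (∀ l < 2 ^ j, ‖x l‖ ≤ B) →
      ‖(1 / ((2 ^ j : ℕ) : ℂ)) * ∑ l ∈ range (2 ^ j),
        (if p ∣ m + l then (p : ℂ) else 0) * x l‖ ≤ 2 * B := by
    intro p m x B hp hx
    have hB : 0 ≤ B := (norm_nonneg _).trans (hx 0 (by positivity))
    have h1 : ‖∑ l ∈ range (2 ^ j), (if p ∣ m + l then (p : ℂ) else 0) * x l‖ ≤
        ∑ l ∈ range (2 ^ j), (if p ∣ m + l then (p : ℝ) else 0) * B := by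
      refine (norm_sum_le _ _).trans (sum_le_sum fun l hl => ?_)
      rw [norm_mul]
      have h2 : ‖(if p ∣ m + l then (p : ℂ) else 0)‖ = if p ∣ m + l then (p : ℝ) else 0 := by
        split_ifs <;> simp
      rw [h2]
      exact mul_le_mul_of_nonneg_left (hx l (mem_range.1 hl)) (by split_ifs <;> positivity)
    rw [← sum_mul] at h1
    have h3 := sum_dvd_le p m (2 ^ j) (hPDpr p hp).one_le (hPDle p hp)
    rw [norm_mul, norm_div, norm_one, Complex.norm_natCast]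
    have h4 : (∑ l ∈ range (2 ^ j), (if p ∣ m + l then (p : ℝ) else 0)) * B ≤
        2 * ((2 ^ j : ℕ) : ℝ) * B := mul_le_mul_of_nonneg_right h3 hB
    have h5 : (0 : ℝ) < ((2 ^ j : ℕ) : ℝ) := by positivity
    rw [div_mul_eq_mul_div, one_mul, div_le_iff₀ h5]
    linarith
  have hζ1 : ∀ p D r, ‖ζ p D r‖ ≤ 2 := by
    intro p D r
    rw [hζ]
    dsimp only
    split_ifs with hp
    · have h1 := hwt p (r + y0 * 2 ^ j)
        (fun l => κd D p * Ψd D l p) 1 hp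
        (fun l _ => by
          rw [norm_mul]
          exact mul_le_one₀ (hκd1 _ _) (norm_nonneg _) (hΨd1 _ _ _))
      linarith
    · simp
  -- the mean of `ζ` over the residues
  obtain ⟨A', hA⟩ : ∃ A' : ℕ → ((Fin L → A) × ((Fin (2 ^ j + 1) → R × Bool) × (Fin i0 → Fin i0 → R × Bool))) → ℂ,
    A' = fun p D => (1 / ((2 ^ j : ℕ) : ℂ)) * ∑ l ∈ range (2 ^ j),
        κd D p * Ψd D l p := ⟨_, rfl⟩
  have hζA : ∀ p ∈ PD j, ∀ D, (∑ r ∈ range p, ζ p D r) / (p : ℂ) = A' p D := by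
    intro p hp D
    have hp0 : (p : ℂ) ≠ 0 := by exact_mod_cast (hPDpr p hp).ne_zero
    rw [div_eq_iff hp0, hζ, hA]
    dsimp only
    simp only [if_pos hp]
    rw [← mul_sum, sum_comm, mul_assoc, sum_mul]
    congr 1
    refine sum_congr rfl fun l _ => ?_
    rw [← sum_mul]
    have h1 : ∑ r ∈ range p, (if p ∣ (r + y0 * 2 ^ j) + l then (p : ℂ) else 0) = p := by
      have := sum_res p (y0 * 2 ^ j + l) (hPDpr p hp).one_le
      simp only [← add_assoc] at this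
      exact this
    rw [h1]
    ring
  have hA1 : ∀ p D, ‖A' p D‖ ≤ 1 := by
    intro p D
    rw [hA]
    dsimp only
    rw [norm_mul, norm_div, norm_one, Complex.norm_natCast]
    have h5 : (0 : ℝ) < ((2 ^ j : ℕ) : ℝ) := by positivity
    rw [div_mul_eq_mul_div, one_mul, div_le_iff₀ h5]
    refine (norm_sum_le _ _).trans ?_
    refine (sum_le_sum fun l _ => ?_ : _ ≤ ∑ l ∈ range (2 ^ j), (1 : ℝ)).trans ?_
    · rw [norm_mul]
      exact mul_le_one₀ (hκd1 _ _) (norm_nonneg _) (hΨd1 _ _ _)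
    · simp
  -- the two means of each `p`
  obtain ⟨A1, hA1d⟩ : ∃ A1 : ℕ → Ω → ℂ, A1 = fun p ω => (if p ∣ M.ν ω then (p : ℂ) else 0) *
    (κ ω p * ψ p ω) := ⟨_, rfl⟩
  obtain ⟨A2, hA2d⟩ : ∃ A2 : ℕ → Ω → ℂ, A2 = fun p ω => κ ω p * ψ p ω := ⟨_, rfl⟩
  have hA2b : ∀ p ω, ‖A2 p ω‖ ≤ 1 := fun p ω => by
    rw [hA2d]
    dsimp only
    rw [norm_mul]
    exact mul_le_one₀ (hκ1 _ _) (norm_nonneg _) (hψ1 _ _)
  have hA1b : ∀ p ω, ‖A1 p ω‖ ≤ p := fun p ω => by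
    have h1 := hA2b p ω
    rw [hA2d] at h1
    dsimp only at h1
    rw [hA1d]
    dsimp only
    rw [norm_mul]
    have h2 : ‖(if p ∣ M.ν ω then (p : ℂ) else 0)‖ ≤ p := by
      split_ifs <;> simp
    calc _ ≤ (p : ℝ) * 1 := mul_le_mul h2 h1 (norm_nonneg _) (by positivity)
      _ = p := mul_one _
  have hKS : ∀ (l : ℕ) (ω : Ω), κ (M.S^[l] ω) = κ ω := by
    intro l ω
    induction l with
    | zero => rfl
    | succ l ih => rw [Function.iterate_succ_apply', hκS, ih]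
  -- comparison of `A1` and `ζ`
  have hc1 : ∀ p ∈ PD j, ‖mc M (A1 p) - mc M (fun ω => ζ p (W ω) (M.ν ω % p))‖ ≤ 2 * δ := by
    intro p hp
    have hbA1 : BC (A1 p) := ⟨p, hA1b p⟩
    rw [← mc_avg M hbA1 (y0 * 2 ^ j) (2 ^ j) (by positivity)]
    rw [← mc_sub M]
    · refine mc_norm_le M fun ω => ?_
      have h1 : (1 / ((2 ^ j : ℕ) : ℂ)) * ∑ l ∈ range (2 ^ j), A1 p (M.S^[y0 * 2 ^ j + l] ω) -
          ζ p (W ω) (M.ν ω % p) = (1 / ((2 ^ j : ℕ) : ℂ)) * ∑ l ∈ range (2 ^ j),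
          (if p ∣ (M.ν ω + y0 * 2 ^ j) + l then (p : ℂ) else 0) *
          (κ ω p * ψ p (M.S^[y0 * 2 ^ j + l] ω) - κd (W ω) p * Ψd (W ω) l p) := by
        rw [hζ]
        dsimp only
        rw [if_pos hp, ← mul_sub, ← sum_sub_distrib]
        congr 1
        refine sum_congr rfl fun l _ => ?_
        have h2 : (p ∣ (M.ν ω % p + y0 * 2 ^ j) + l) ↔ (p ∣ (M.ν ω + y0 * 2 ^ j) + l) := by
          rw [Nat.dvd_iff_mod_eq_zero, Nat.dvd_iff_mod_eq_zero, add_assoc, add_assoc,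
            Nat.mod_add_mod]
        simp only [h2]
        rw [hA1d]
        dsimp only
        rw [M.pos_iter, hKS, ← add_assoc]
        ring
      rw [h1]
      exact hwt p _ _ _ hp fun l hl => hdiff ω p l hp hl
    · refine ⟨p, fun ω => ?_⟩
      rw [norm_mul, norm_div, norm_one, Complex.norm_natCast]
      have h5 : (0 : ℝ) < ((2 ^ j : ℕ) : ℝ) := by positivity
      rw [div_mul_eq_mul_div, one_mul, div_le_iff₀ h5]
      refine (norm_sum_le _ _).trans ?_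
      refine (sum_le_sum fun l _ => hA1b p _ : _ ≤ ∑ l ∈ range (2 ^ j), (p : ℝ)).trans ?_
      rw [sum_const, card_range, nsmul_eq_mul, mul_comm]
    · exact ⟨2, fun ω => hζ1 _ _ _⟩
  -- comparison of `A'` and `A2`
  have hc2 : ∀ p ∈ PD j, ‖mc M (fun ω => A' p (W ω)) - mc M (A2 p)‖ ≤ δ := by
    intro p hp
    have hbA2 : BC (A2 p) := ⟨1, hA2b p⟩
    rw [← mc_avg M hbA2 (y0 * 2 ^ j) (2 ^ j) (by positivity)]
    rw [← mc_sub M]
    · refine mc_norm_le M fun ω => ?_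
      have h1 : A' p (W ω) - (1 / ((2 ^ j : ℕ) : ℂ)) * ∑ l ∈ range (2 ^ j),
          A2 p (M.S^[y0 * 2 ^ j + l] ω) = (1 / ((2 ^ j : ℕ) : ℂ)) * ∑ l ∈ range (2 ^ j),
          (κd (W ω) p * Ψd (W ω) l p - κ ω p * ψ p (M.S^[y0 * 2 ^ j + l] ω)) := by
        rw [hA]
        dsimp only
        rw [← mul_sub, ← sum_sub_distrib]
        congr 1
        refine sum_congr rfl fun l _ => ?_
        rw [hA2d]
        dsimp only
        rw [hKS]
      rw [h1, norm_mul, norm_div, norm_one, Complex.norm_natCast]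
      have h5 : (0 : ℝ) < ((2 ^ j : ℕ) : ℝ) := by positivity
      rw [div_mul_eq_mul_div, one_mul, div_le_iff₀ h5]
      refine (norm_sum_le _ _).trans ?_
      refine (sum_le_sum fun l hl => ?_ :
        _ ≤ ∑ l ∈ range (2 ^ j), (δ : ℝ)).trans ?_
      · rw [norm_sub_rev]
        exact hdiff ω p l hp (mem_range.1 hl)
      · rw [sum_const, card_range, nsmul_eq_mul, mul_comm]
    · exact ⟨1, fun ω => hA1 _ _⟩
    · refine ⟨1, fun ω => ?_⟩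
      rw [norm_mul, norm_div, norm_one, Complex.norm_natCast]
      have h5 : (0 : ℝ) < ((2 ^ j : ℕ) : ℝ) := by positivity
      rw [div_mul_eq_mul_div, one_mul, div_le_iff₀ h5]
      refine (norm_sum_le _ _).trans ?_
      refine (sum_le_sum fun l _ => hA2b p _ : _ ≤ ∑ l ∈ range (2 ^ j), (1 : ℝ)).trans ?_
      simp
  -- the variational inequality
  have hdv : ∀ ζr : ℕ → ((Fin L → A) × ((Fin (2 ^ j + 1) → R × Bool) × (Fin i0 → Fin i0 → R × Bool))) → ℕ → ℝ,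
      (∀ p D r, |ζr p D r| ≤ 2) →
      M.m (fun ω => |∑ p ∈ PD j, (ζr p (W ω) (M.ν ω % p) -
        (∑ y ∈ range p, ζr p (W ω) y) / (p : ℝ))|) ≤ 9 * τ * (PD j).card + Real.log 2 / τ := by
    intro ζr hζr
    have h1 := Pool.Agent.Q92.EA.t_DVM Ω _ M W (PD j) (QD j) hPDpr rfl ζr 2 τ hζr hτ0
    have h2 : 1 / τ * (Real.log (QD j) + Real.log 2 -
        cH M (fun ω => (M.ν ω : ZMod (QD j))) W) ≤ 1 / τ * (τ ^ 2 * (PD j).card + Real.log 2) := by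
      apply mul_le_mul_of_nonneg_left _ (by positivity)
      linarith
    refine h1.trans ((add_le_add_left h2 _).trans (le_of_eq ?_))
    field_simp
    ring
  obtain ⟨Z, hZ⟩ : ∃ Z : Ω → ℂ, Z = fun ω => ∑ p ∈ PD j, (ζ p (W ω) (M.ν ω % p) -
    A' p (W ω)) := ⟨_, rfl⟩
  have hZb : BC Z := by
    rw [hZ]
    exact BC.sum _ fun p _ => BC.sub ⟨2, fun ω => hζ1 _ _ _⟩ ⟨1, fun ω => hA1 _ _⟩
  have hZ1 : ‖mc M Z‖ ≤ 18 * τ * (PD j).card + 2 * Real.log 2 / τ := by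
    have h1 := mc_parts M hZb
    have h2 := hdv (fun p D r => (ζ p D r).re)
      (fun p D r => (Complex.abs_re_le_norm _).trans (hζ1 _ _ _))
    have h3 := hdv (fun p D r => (ζ p D r).im)
      (fun p D r => (Complex.abs_im_le_norm _).trans (hζ1 _ _ _))
    have h4 : ∀ ω, (Z ω).re = ∑ p ∈ PD j, ((ζ p (W ω) (M.ν ω % p)).re -
        (∑ y ∈ range p, (ζ p (W ω) y).re) / (p : ℝ)) := fun ω => by
      rw [hZ]
      dsimp only
      rw [Complex.re_sum]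
      refine sum_congr rfl fun p hp => ?_
      rw [← hζA p hp, Complex.sub_re, Complex.div_natCast_re, Complex.re_sum]
    have h5 : ∀ ω, (Z ω).im = ∑ p ∈ PD j, ((ζ p (W ω) (M.ν ω % p)).im -
        (∑ y ∈ range p, (ζ p (W ω) y).im) / (p : ℝ)) := fun ω => by
      rw [hZ]
      dsimp only
      rw [Complex.im_sum]
      refine sum_congr rfl fun p hp => ?_
      rw [← hζA p hp, Complex.sub_im, Complex.div_natCast_im, Complex.im_sum]
    simp only [← h4, ← h5] at h2 h3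
    calc ‖mc M Z‖ ≤ _ := h1
      _ ≤ (9 * τ * (PD j).card + Real.log 2 / τ) + (9 * τ * (PD j).card + Real.log 2 / τ) :=
          add_le_add h2 h3
      _ = _ := by ring
  -- conclusion
  have hZ2 : mc M Z = ∑ p ∈ PD j, (mc M (fun ω => ζ p (W ω) (M.ν ω % p)) -
      mc M (fun ω => A' p (W ω))) := by
    rw [hZ, mc_sum M]
    · refine sum_congr rfl fun p _ => ?_
      exact mc_sub M ⟨2, fun ω => hζ1 _ _ _⟩ ⟨1, fun ω => hA1 _ _⟩
    · intro p _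
      exact BC.sub ⟨2, fun ω => hζ1 _ _ _⟩ ⟨1, fun ω => hA1 _ _⟩
  have hfin : (∑ p ∈ PD j, mc M (A1 p)) - ∑ p ∈ PD j, mc M (A2 p) =
      (∑ p ∈ PD j, (mc M (A1 p) - mc M (fun ω => ζ p (W ω) (M.ν ω % p)))) + mc M Z +
      ∑ p ∈ PD j, (mc M (fun ω => A' p (W ω)) - mc M (A2 p)) := by
    rw [hZ2, ← sum_sub_distrib, ← sum_add_distrib, ← sum_add_distrib]
    refine sum_congr rfl fun p _ => ?_
    ring
  have hgoal : (∑ p ∈ PD j, mc M (fun ω => (if p ∣ M.ν ω then (p : ℂ) else 0) * (κ ω p * ψ p ω))) -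
      ∑ p ∈ PD j, mc M (fun ω => κ ω p * ψ p ω) =
      (∑ p ∈ PD j, mc M (A1 p)) - ∑ p ∈ PD j, mc M (A2 p) := by
    rw [hA1d, hA2d]
  rw [hgoal, hfin]
  have hn1 : ‖∑ p ∈ PD j, (mc M (A1 p) - mc M (fun ω => ζ p (W ω) (M.ν ω % p)))‖ ≤
      (PD j).card * (2 * δ) := by
    refine (norm_sum_le _ _).trans ((sum_le_sum hc1).trans (le_of_eq ?_))
    rw [sum_const, nsmul_eq_mul]
  have hn2 : ‖∑ p ∈ PD j, (mc M (fun ω => A' p (W ω)) - mc M (A2 p))‖ ≤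
      (PD j).card * δ := by
    refine (norm_sum_le _ _).trans ((sum_le_sum hc2).trans (le_of_eq ?_))
    rw [sum_const, nsmul_eq_mul]
  have hlog : 2 * Real.log 2 / τ ≤ ε / 4 * (PD j).card := by
    rw [div_le_iff₀ (by positivity)] at hPc
    rw [div_le_iff₀ hτ0]
    nlinarith
  refine (norm_add₃_le).trans ?_
  rw [hδ] at hn1 hn2
  have h18 : 18 * τ * (PD j).card = 18 / 100 * ε * (PD j).card := by rw [hτ]; ring
  rw [h18] at hZ1
  have hPn : (0 : ℝ) ≤ (PD j).card := by positivity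
  have hεP : 0 ≤ ε * (PD j).card := by positivity
  nlinarith

end Pool.Agent.Q270.EH
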