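import Pool.Agent.Q270.EH.Dil

/-!
Project EH (helper270): the bits of the factor, the letters, and how they determine the function on
the dilated variable.
-/

set_option autoImplicit false

namespace Pool.Agent.Q270.EH

open Finset Filter Pool.Agent.Q270.EA Pool.Agent.Q270.EB Pool.Agent.Q270.EC Pool.Agent.Q119.EA

/-- the bits of the factor -/
def bit {s : ℕ} (G : Geo s) (n e : ℕ) : Prop :=
  ∃ p : ℕ, 1 ≤ p ∧ ((Encodable.decode e = some (p, (none : Option (Fin s × ℤ))) ∧ G.E ((n : ℝ) / p)) ∨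
    ∃ (j : Fin s) (d : ℤ), Encodable.decode e = some (p, some (j, d)) ∧
      (p : ℤ) * G.A j ((n : ℝ) / p) - ⌊G.θ j * (n : ℝ)⌋ = d)

lemma bit_E {s : ℕ} (G : Geo s) (n p : ℕ) (hp : 1 ≤ p) :
    bit G n (Encodable.encode (p, (none : Option (Fin s × ℤ)))) ↔ G.E ((n : ℝ) / p) := by
  unfold bit
  constructor
  · rintro ⟨q, -, ⟨h1, h2⟩ | ⟨j, d, h1, -⟩⟩
    · rw [Encodable.encodek] at h1
      have h3 := (Prod.ext_iff.1 (Option.some.inj h1)).1
      dsimp only at h3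
      rw [h3]
      exact h2
    · rw [Encodable.encodek] at h1
      have h3 := (Prod.ext_iff.1 (Option.some.inj h1)).2
      dsimp only at h3
      exact absurd h3 (by simp)
  · intro h
    exact ⟨p, hp, Or.inl ⟨Encodable.encodek _, h⟩⟩

lemma bit_A {s : ℕ} (G : Geo s) (n p : ℕ) (hp : 1 ≤ p) (j : Fin s) (d : ℤ) :
    bit G n (Encodable.encode (p, (some (j, d) : Option (Fin s × ℤ)))) ↔
      (p : ℤ) * G.A j ((n : ℝ) / p) - ⌊G.θ j * (n : ℝ)⌋ = d := by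
  unfold bit
  constructor
  · rintro ⟨q, -, ⟨h1, -⟩ | ⟨j', d', h1, h2⟩⟩
    · rw [Encodable.encodek] at h1
      have h3 := (Prod.ext_iff.1 (Option.some.inj h1)).2
      dsimp only at h3
      exact absurd h3 (by simp)
    · rw [Encodable.encodek] at h1
      have h3 := (Prod.ext_iff.1 (Option.some.inj h1)).1
      have h4 := (Prod.ext_iff.1 (Option.some.inj h1)).2
      dsimp only at h3 h4
      have h5 := Prod.ext_iff.1 (Option.some.inj h4)
      obtain ⟨h6, h7⟩ := h5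
      dsimp only at h6 h7
      rw [h3, h6, h7]
      exact h2
  · intro h
    exact ⟨p, hp, Or.inr ⟨j, d, Encodable.encodek _, h⟩⟩

open scoped Classical in
/-- the bits have almost periods in all classes -/
lemma bit_per {s : ℕ} (G : Geo s) (n₀ Q t : ℕ) (δ : ℝ) (hQ : 1 ≤ Q) (hδ : 0 < δ) :
    ∃ T : ℕ, T % Q = t % Q ∧ ∃ N0 : ℕ, ∀ N : ℕ, N0 ≤ N →
      (((Icc 1 N).filter (fun m : ℕ => (fun (l e : Fin n₀) => (if bit G (m + T + l) e then (1 : ℂ) else 0)) ≠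
        (fun (l e : Fin n₀) => (if bit G (m + l) e then (1 : ℂ) else 0)))).card : ℝ) ≤ δ * N := by
  obtain ⟨P0, hP0⟩ : ∃ P0 : ℕ, ∀ e < n₀, ∀ p : ℕ, ∀ o : Option (Fin s × ℤ),
      Encodable.decode e = some (p, o) → p ≤ P0 := by
    obtain ⟨q, hq⟩ : ∃ q : ℕ → ℕ, q = fun e => match (Encodable.decode e : Option (ℕ × Option (Fin s × ℤ))) with
      | some x => x.1
      | none => 0 := ⟨_, rfl⟩
    refine ⟨∑ e ∈ range n₀, q e, fun e he p o h => ?_⟩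
    have h1 : q e = p := by
      rw [hq]
      dsimp only
      rw [h]
    rw [← h1]
    exact single_le_sum (f := q) (fun _ _ => Nat.zero_le _) (mem_range.2 he)
  obtain ⟨T, hT, N0, hN0⟩ := G.per P0 Q t (δ / (2 * (n₀ + 1))) hQ (by positivity)
  refine ⟨T, hT, max N0 n₀, fun N hN => ?_⟩
  obtain ⟨Bad, hBad⟩ : ∃ Bad : ℕ → Prop, Bad = fun m : ℕ => ∃ p : ℕ, 1 ≤ p ∧ p ≤ P0 ∧
      (¬ (G.E (((m + T : ℕ) : ℝ) / p) ↔ G.E ((m : ℝ) / p)) ∨
        ∃ j, (p : ℤ) * G.A j (((m + T : ℕ) : ℝ) / p) - ⌊G.θ j * ((m + T : ℕ) : ℝ)⌋ ≠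
          (p : ℤ) * G.A j ((m : ℝ) / p) - ⌊G.θ j * (m : ℝ)⌋) := ⟨_, rfl⟩
  have hbit : ∀ m, ¬ Bad m → ∀ e < n₀, (bit G (m + T) e ↔ bit G m e) := by
    intro m hm e he
    rw [hBad] at hm
    push Not at hm
    unfold bit
    constructor
    · rintro ⟨p, hp, ⟨h1, h2⟩ | ⟨j, d, h1, h2⟩⟩
      · exact ⟨p, hp, Or.inl ⟨h1, (hm p hp (hP0 e he p _ h1)).1.1 h2⟩⟩
      · exact ⟨p, hp, Or.inr ⟨j, d, h1, by rw [← h2]; exact ((hm p hp (hP0 e he p _ h1)).2 j).symm⟩⟩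
    · rintro ⟨p, hp, ⟨h1, h2⟩ | ⟨j, d, h1, h2⟩⟩
      · exact ⟨p, hp, Or.inl ⟨h1, (hm p hp (hP0 e he p _ h1)).1.2 h2⟩⟩
      · exact ⟨p, hp, Or.inr ⟨j, d, h1, by rw [← h2]; exact (hm p hp (hP0 e he p _ h1)).2 j⟩⟩
  have hsub : (Icc 1 N).filter (fun m : ℕ => (fun (l e : Fin n₀) => (if bit G (m + T + l) e then (1 : ℂ) else 0)) ≠
        (fun (l e : Fin n₀) => (if bit G (m + l) e then (1 : ℂ) else 0))) ⊆
      (range n₀).biUnion (fun l => (Icc 1 N).filter (fun m => Bad (m + l))) := by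
    intro m hm
    rw [mem_filter] at hm
    obtain ⟨h1, h2⟩ := hm
    by_contra hcon
    apply h2
    funext l e
    have h3 : ¬ Bad (m + l) := by
      intro h
      apply hcon
      rw [mem_biUnion]
      exact ⟨l, mem_range.2 l.2, mem_filter.2 ⟨h1, h⟩⟩
    have h4 := hbit _ h3 e e.2
    have h5 : m + l + T = m + T + l := by omega
    rw [h5] at h4
    simp only [h4]
  have hone : ∀ l ∈ range n₀, (((Icc 1 N).filter (fun m => Bad (m + l))).card : ℝ) ≤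
      δ / (n₀ + 1) * N := by
    intro l hl
    have h1 : ((Icc 1 N).filter (fun m => Bad (m + l))).card ≤
        ((Icc 1 (N + n₀)).filter (fun m => Bad m)).card := by
      refine card_le_card_of_injOn (fun m => m + l) ?_ (fun x _ y _ h => by dsimp only at h; omega)
      intro m hm
      rw [mem_coe, mem_filter, mem_Icc] at hm
      rw [mem_coe, mem_filter, mem_Icc]
      have := mem_range.1 hl
      dsimp only
      exact ⟨by omega, hm.2⟩
    have h2 := hN0 (N + n₀) (by omega)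
    have h3 : (((Icc 1 (N + n₀)).filter (fun m => Bad m)).card : ℝ) ≤
        δ / (2 * (n₀ + 1)) * ((N + n₀ : ℕ) : ℝ) := by
      rw [hBad]
      exact h2
    have h4 : (n₀ : ℝ) ≤ N := by exact_mod_cast (le_max_right N0 n₀).trans hN
    calc (((Icc 1 N).filter (fun m => Bad (m + l))).card : ℝ) ≤
        (((Icc 1 (N + n₀)).filter (fun m => Bad m)).card : ℝ) := by exact_mod_cast h1
      _ ≤ δ / (2 * (n₀ + 1)) * ((N + n₀ : ℕ) : ℝ) := h3
      _ ≤ δ / (2 * (n₀ + 1)) * (2 * N) := by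
        push_cast
        gcongr
        linarith
      _ = _ := by field_simp
  calc _ ≤ (((range n₀).biUnion (fun l => (Icc 1 N).filter (fun m => Bad (m + l)))).card : ℝ) := by
        exact_mod_cast card_le_card hsub
    _ ≤ ∑ l ∈ range n₀, (((Icc 1 N).filter (fun m => Bad (m + l))).card : ℝ) := by
        exact_mod_cast card_biUnion_le
    _ ≤ ∑ l ∈ range n₀, δ / (n₀ + 1) * N := sum_le_sum hone
    _ = n₀ * (δ / (n₀ + 1) * N) := by rw [sum_const, card_range, nsmul_eq_mul]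
    _ ≤ _ := by
      have h1 : (n₀ : ℝ) * (δ / (n₀ + 1) * N) = (n₀ / (n₀ + 1)) * (δ * N) := by field_simp
      rw [h1]
      refine mul_le_of_le_one_left (by positivity) ?_
      rw [div_le_one (by positivity)]
      linarith

open scoped Classical in
/-- the letters -/
noncomputable def ltr {s : ℕ} (G : Geo s) {R : Type} (f : ℕ → ℂ) (L : ℕ) (u : Fin s → ℕ → R) (n : ℕ) :
    (Bool × Bool) × ((Fin s → Fin L → R) × (Fin s → Fin (L + 1))) :=
  ((decide (f n = 1), decide (f n = -1)),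
    (fun j l => u j (⌊G.θ j * (n : ℝ)⌋₊ + l), fun j =>
      Fin.ofNat (L + 1) (⌊G.θ j * ((n + 1 : ℕ) : ℝ)⌋₊ - ⌊G.θ j * (n : ℝ)⌋₊)))

/-- the letters and the bits determine the function on the dilated variable -/
lemma det_lem {s : ℕ} (G : Geo s) {R : Type} (f : ℕ → ℂ) (hf : ∀ n, f n = 0 ∨ f n = 1 ∨ f n = -1)
    (dec : R → ℂ) (L : ℕ) (hL : ∀ j, G.θ j + 1 ≤ L) (y0 : ℕ) (hy0 : ∀ j, G.C + 4 ≤ G.θ j * y0)
    (j₀ : ℕ) : ∃ i0 : ℕ, ∀ p ∈ PD j₀, ∀ l < 2 ^ j₀, ∀ (ν ν' : ℕ) (u u' : Fin s → ℕ → R),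
      (∀ x < (2 * y0 + 1) * 2 ^ j₀, ltr G f L u (ν + x) = ltr G f L u' (ν' + x)) →
      (∀ l' < i0, ∀ e < i0, (bit G (ν + l') e ↔ bit G (ν' + l') e)) →
      psi G f (fun j n => dec (u j n)) p (ν + (y0 * 2 ^ j₀ + l)) =
        psi G f (fun j n => dec (u' j n)) p (ν' + (y0 * 2 ^ j₀ + l)) := by
  classical
  obtain ⟨K, hK⟩ := exists_nat_ge (2 ^ j₀ * G.C + 1)
  obtain ⟨S, hS⟩ : ∃ S : Finset (ℕ × Option (Fin s × ℤ)), S = (range (2 ^ j₀ + 1)) ×ˢ
      (insert none (((univ : Finset (Fin s)) ×ˢ (Icc (-(K : ℤ)) K)).image some)) := ⟨_, rfl⟩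
  obtain ⟨i0, hi0⟩ : ∃ i0 : ℕ, i0 = (y0 + 1) * 2 ^ j₀ + ∑ x ∈ S, Encodable.encode x + 1 := ⟨_, rfl⟩
  have hiS : ∀ x ∈ S, Encodable.encode x < i0 := fun x hx => by
    have := single_le_sum (f := fun x => Encodable.encode x) (fun _ _ => Nat.zero_le _) hx
    rw [hi0]
    omega
  refine ⟨i0, fun p hp l hl ν ν' u u' hlet hbit => ?_⟩
  have hpp : p.Prime := (mem_filter.1 hp).2
  have hp1 : 1 ≤ p := hpp.one_le
  have hp2 : p ≤ 2 ^ j₀ := (mem_Ioc.1 (mem_filter.1 hp).1).2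
  have hp0 : (0 : ℝ) < p := by exact_mod_cast hpp.pos
  obtain ⟨x, hx⟩ : ∃ x, x = y0 * 2 ^ j₀ + l := ⟨_, rfl⟩
  obtain ⟨W, hW⟩ : ∃ W, W = (2 * y0 + 1) * 2 ^ j₀ := ⟨_, rfl⟩
  have hxW : x < W := by
    rw [hx, hW]
    nlinarith [Nat.zero_le (y0 * 2 ^ j₀)]
  have hWx : y0 * 2 ^ j₀ ≤ W - x := by
    have : W = 2 * (y0 * 2 ^ j₀) + 2 ^ j₀ := by rw [hW]; ring
    omega
  have hxi : x < i0 := by
    have : (y0 + 1) * 2 ^ j₀ = y0 * 2 ^ j₀ + 2 ^ j₀ := by ring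
    omega
  rw [← hx]
  rw [← hW] at hlet
  -- the function
  have h1 := hlet x hxW
  unfold ltr at h1
  obtain ⟨h2, -⟩ := Prod.ext_iff.1 h1
  obtain ⟨h3, h4⟩ := Prod.ext_iff.1 h2
  dsimp only at h3 h4
  have hff : f (ν + x) = f (ν' + x) := by
    have e1 := decide_eq_decide.1 h3
    have e2 := decide_eq_decide.1 h4
    rcases hf (ν + x) with h | h | h
    · rcases hf (ν' + x) with h' | h' | h'
      · rw [h, h']
      · exact absurd (e1.2 h') (by rw [h]; norm_num)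
      · exact absurd (e2.2 h') (by rw [h]; norm_num)
    · rw [h, e1.1 h]
    · rw [h, e2.1 h]
  -- the selection
  have hEE : G.E (((ν + x : ℕ) : ℝ) / p) ↔ G.E (((ν' + x : ℕ) : ℝ) / p) := by
    rw [← bit_E G _ p hp1, ← bit_E G _ p hp1]
    refine hbit x hxi _ (hiS _ ?_)
    rw [hS, mem_product, mem_range]
    exact ⟨by dsimp only; omega, mem_insert_self _ _⟩
  unfold psi
  rw [hff]
  simp only [hEE]
  congr 1
  refine prod_congr rfl fun j _ => ?_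
  have hθ := G.θ0 j
  have hθx : ∀ n : ℕ, (0 : ℝ) ≤ G.θ j * n := fun n => by positivity
  -- increments
  obtain ⟨F, hF⟩ : ∃ F : ℕ → ℕ → ℕ, F = fun n y => ⌊G.θ j * ((n + y : ℕ) : ℝ)⌋₊ := ⟨_, rfl⟩
  have hFm : ∀ n, Monotone (F n) := fun n a b hab => by
    rw [hF]
    dsimp only
    refine Nat.floor_le_floor ?_
    have : ((n + a : ℕ) : ℝ) ≤ ((n + b : ℕ) : ℝ) := by exact_mod_cast Nat.add_le_add_left hab n
    gcongr
  have hFlo : ∀ n y, G.θ j * ((n + y : ℕ) : ℝ) - 1 < F n y := fun n y => by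
    rw [hF]
    dsimp only
    have := Nat.lt_floor_add_one (G.θ j * ((n + y : ℕ) : ℝ))
    linarith
  have hFhi : ∀ n y, (F n y : ℝ) ≤ G.θ j * ((n + y : ℕ) : ℝ) := fun n y => by
    rw [hF]
    dsimp only
    exact Nat.floor_le (hθx _)
  have hFL : ∀ n y, F n (y + 1) - F n y ≤ L := by
    intro n y
    have e1 := hFlo n y
    have e2 := hFhi n (y + 1)
    have e3 := hL j
    have e4 : F n y ≤ F n (y + 1) := hFm n (Nat.le_succ _)
    have e5 : ((F n (y + 1) - F n y : ℕ) : ℝ) < (L + 1 : ℕ) := by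
      rw [Nat.cast_sub e4]
      push_cast at e1 e2 ⊢
      nlinarith
    have e6 : F n (y + 1) - F n y < L + 1 := by exact_mod_cast e5
    omega
  have hinc : ∀ y < W, F ν (y + 1) - F ν y = F ν' (y + 1) - F ν' y := by
    intro y hy
    have e1 := hlet y hy
    unfold ltr at e1
    obtain ⟨-, e2⟩ := Prod.ext_iff.1 e1
    obtain ⟨-, e3⟩ := Prod.ext_iff.1 e2
    have e4 := congrFun e3 j
    have e5 : ∀ n : ℕ, Fin.ofNat (L + 1) (⌊G.θ j * ((n + y + 1 : ℕ) : ℝ)⌋₊ - ⌊G.θ j * ((n + y : ℕ) : ℝ)⌋₊) =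
        Fin.ofNat (L + 1) (F n (y + 1) - F n y) := by
      intro n
      rw [hF]
      rfl
    dsimp only at e4
    rw [e5, e5] at e4
    have e6 := congrArg (fun a : Fin (L + 1) => (a : ℕ)) e4
    rw [Fin.val_ofNat, Fin.val_ofNat, Nat.mod_eq_of_lt (Nat.lt_succ_of_le (hFL ν y)),
      Nat.mod_eq_of_lt (Nat.lt_succ_of_le (hFL ν' y))] at e6
    exact e6
  have hval : ∀ y < W, ∀ l < L, u j (F ν y + l) = u' j (F ν' y + l) := by
    intro y hy l hl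
    have e1 := hlet y hy
    unfold ltr at e1
    obtain ⟨-, e2⟩ := Prod.ext_iff.1 e1
    obtain ⟨e3, -⟩ := Prod.ext_iff.1 e2
    have e4 := congrFun (congrFun e3 j) ⟨l, hl⟩
    rw [hF]
    exact e4
  -- the distance
  obtain ⟨d, hd⟩ : ∃ d : ℤ, d = (p : ℤ) * G.A j (((ν + x : ℕ) : ℝ) / p) - ⌊G.θ j * ((ν + x : ℕ) : ℝ)⌋ :=
    ⟨_, rfl⟩
  have hdb : |(d : ℝ)| ≤ 2 ^ j₀ * G.C + 1 := by
    have e1 := G.pos j (((ν + x : ℕ) : ℝ) / p) (by positivity)
    have e2 : (d : ℝ) = p * (G.A j (((ν + x : ℕ) : ℝ) / p) - G.θ j * (((ν + x : ℕ) : ℝ) / p)) +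
        (G.θ j * ((ν + x : ℕ) : ℝ) - ⌊G.θ j * ((ν + x : ℕ) : ℝ)⌋) := by
      rw [hd]
      push_cast
      field_simp
      ring
    have e3 := Int.floor_le (G.θ j * ((ν + x : ℕ) : ℝ))
    have e4 := Int.lt_floor_add_one (G.θ j * ((ν + x : ℕ) : ℝ))
    rw [e2]
    refine (abs_add_le _ _).trans ?_
    rw [abs_mul, abs_of_pos hp0]
    have e5 : |G.θ j * ((ν + x : ℕ) : ℝ) - ⌊G.θ j * ((ν + x : ℕ) : ℝ)⌋| ≤ 1 := by
      rw [abs_le]
      constructor <;> linarith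
    have e6 : (p : ℝ) ≤ 2 ^ j₀ := by exact_mod_cast hp2
    have e7 : (p : ℝ) * |(G.A j (((ν + x : ℕ) : ℝ) / p) : ℝ) - G.θ j * (((ν + x : ℕ) : ℝ) / p)| ≤
        2 ^ j₀ * G.C := mul_le_mul e6 e1 (abs_nonneg _) (by positivity)
    linarith
  have hdK : |d| ≤ K := by
    have : (|d| : ℝ) ≤ K := hdb.trans hK
    exact_mod_cast this
  have hd' : (p : ℤ) * G.A j (((ν' + x : ℕ) : ℝ) / p) - ⌊G.θ j * ((ν' + x : ℕ) : ℝ)⌋ = d := by
    have e1 : Encodable.encode (p, (some (j, d) : Option (Fin s × ℤ))) < i0 := by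
      refine hiS _ ?_
      rw [hS, mem_product, mem_range]
      refine ⟨by dsimp only; omega, mem_insert_of_mem (mem_image_of_mem _ ?_)⟩
      rw [mem_product, mem_Icc]
      exact ⟨mem_univ _, abs_le.1 hdK⟩
    have e2 := (bit_A G (ν + x) p hp1 j d).2 hd.symm
    exact (bit_A G (ν' + x) p hp1 j d).1 ((hbit x hxi _ e1).1 e2)
  -- the value
  have hpj : (1 : ℝ) ≤ 2 ^ j₀ := one_le_pow₀ (by norm_num)
  have hfar : ∀ n : ℕ, (2 : ℝ) ^ j₀ * G.C + 2 < F n x - F n 0 ∧ (2 : ℝ) ^ j₀ * G.C + 2 < F n W - F n x := by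
    intro n
    have e1 := hFlo n x
    have e2 := hFhi n 0
    have e3 := hFlo n W
    have e4 := hFhi n x
    have e5 := hy0 j
    have e6 : (y0 : ℝ) * 2 ^ j₀ ≤ x := by
      rw [hx]
      push_cast
      have : (0 : ℝ) ≤ l := by positivity
      linarith
    have e7 : (y0 : ℝ) * 2 ^ j₀ + x ≤ W := by
      have : y0 * 2 ^ j₀ + x ≤ W := by omega
      exact_mod_cast this
    have e8 : (G.C + 4) * 2 ^ j₀ ≤ G.θ j * (y0 * 2 ^ j₀) := by
      rw [← mul_assoc]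
      gcongr
    have e9 : G.θ j * (y0 * 2 ^ j₀) ≤ G.θ j * x := by gcongr
    have e10 : G.θ j * (y0 * 2 ^ j₀) + G.θ j * x ≤ G.θ j * W := by
      rw [← mul_add]
      gcongr
    push_cast at e1 e2 e3 e4
    rw [mul_add] at e1 e2 e3 e4
    constructor <;> nlinarith
  obtain ⟨D, hD⟩ : ∃ D : ℕ, (D : ℤ) = F ν x - F ν 0 + d := by
    refine ⟨((F ν x : ℤ) - F ν 0 + d).toNat, Int.toNat_of_nonneg ?_⟩
    have e1 := (hfar ν).1
    have e2 := (abs_le.1 hdb).1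
    have e3 : (0 : ℝ) ≤ ((F ν x : ℤ) - F ν 0 + d : ℤ) := by
      push_cast
      linarith
    exact_mod_cast e3
  have hDlt : D < F ν W - F ν 0 := by
    have e1 := (hfar ν).2
    have e2 := (abs_le.1 hdb).2
    have e3 : F ν 0 ≤ F ν W := hFm ν (Nat.zero_le _)
    have e4 : ((D : ℤ) : ℝ) = F ν x - F ν 0 + d := by
      rw [hD]
      push_cast
      ring
    have e5 : (D : ℝ) < ((F ν W - F ν 0 : ℕ) : ℝ) := by
      rw [Nat.cast_sub e3]
      have : (D : ℝ) = F ν x - F ν 0 + d := by exact_mod_cast e4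
      rw [this]
      linarith
    exact_mod_cast e5
  have hro := readoff L (F ν) (F ν') (u j) (u' j) (hFm ν) (hFm ν') W hinc (fun y _ => hFL ν y) hval D hDlt
  have hxx : F ν x - F ν 0 = F ν' x - F ν' 0 :=
    incr_sum (F ν) (F ν') (hFm ν) (hFm ν') x fun y hy => hinc y (by omega)
  have hm1 : F ν 0 ≤ F ν x := hFm ν (Nat.zero_le _)
  have hm2 : F ν' 0 ≤ F ν' x := hFm ν' (Nat.zero_le _)
  have hfl : ∀ n : ℕ, ⌊G.θ j * ((n + x : ℕ) : ℝ)⌋ = (F n x : ℤ) := by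
    intro n
    rw [hF]
    dsimp only
    exact (Int.natCast_floor_eq_floor (hθx _)).symm
  have hv1 : ((p : ℤ) * G.A j (((ν + x : ℕ) : ℝ) / p)).toNat = F ν 0 + D := by
    have : (p : ℤ) * G.A j (((ν + x : ℕ) : ℝ) / p) = ((F ν 0 + D : ℕ) : ℤ) := by
      rw [hfl] at hd
      rw [Nat.cast_add (F ν 0) D, hD, hd]
      ring
    rw [this, Int.toNat_natCast]
  have hv2 : ((p : ℤ) * G.A j (((ν' + x : ℕ) : ℝ) / p)).toNat = F ν' 0 + D := by
    have : (p : ℤ) * G.A j (((ν' + x : ℕ) : ℝ) / p) = ((F ν' 0 + D : ℕ) : ℤ) := by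
      rw [hfl] at hd'
      have hxx' : (F ν x : ℤ) - F ν 0 = F ν' x - F ν' 0 := by omega
      rw [Nat.cast_add (F ν' 0) D, hD, hxx', ← hd']
      ring
    rw [this, Int.toNat_natCast]
  rw [hv1, hv2, hro]

end Pool.Agent.Q270.EH
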