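import Pool.Agent.Q270.EH.Pre

/-!
Project EH (helper270): the dilation identity at one scale.
-/

set_option autoImplicit false

namespace Pool.Agent.Q270.EH

open Finset Filter Pool.Agent.Q270.EA Pool.Agent.Q270.EB Pool.Agent.Q270.EC Pool.Agent.Q119.EA

open scoped Classical in
/-- the function on the main variable -/
noncomputable def phi {s : ℕ} (G : Geo s) (f : ℕ → ℂ) (g : Fin s → ℕ → ℂ) (n : ℕ) : ℂ :=
  f n * (if G.E n then 1 else 0) * ∏ j, g j (G.A j n).toNat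

open scoped Classical in
/-- the function on the dilated variable -/
noncomputable def psi {s : ℕ} (G : Geo s) (f : ℕ → ℂ) (g : Fin s → ℕ → ℂ) (p n : ℕ) : ℂ :=
  f n * (if G.E ((n : ℝ) / p) then 1 else 0) * ∏ j, g j ((p : ℤ) * G.A j ((n : ℝ) / p)).toNat

lemma norm_phi {s : ℕ} (G : Geo s) (f : ℕ → ℂ) (g : Fin s → ℕ → ℂ) (hf : ∀ n, ‖f n‖ ≤ 1)
    (hg : ∀ j n, ‖g j n‖ ≤ 1) (n : ℕ) : ‖phi G f g n‖ ≤ 1 := by
  unfold phi
  rw [norm_mul, norm_mul, norm_prod]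
  refine mul_le_one₀ (mul_le_one₀ (hf _) (norm_nonneg _) ?_) (prod_nonneg fun _ _ => norm_nonneg _)
    (prod_le_one (fun _ _ => norm_nonneg _) fun j _ => hg _ _)
  split_ifs <;> simp

lemma norm_psi {s : ℕ} (G : Geo s) (f : ℕ → ℂ) (g : Fin s → ℕ → ℂ) (hf : ∀ n, ‖f n‖ ≤ 1)
    (hg : ∀ j n, ‖g j n‖ ≤ 1) (p n : ℕ) : ‖psi G f g p n‖ ≤ 1 := by
  unfold psi
  rw [norm_mul, norm_mul, norm_prod]
  refine mul_le_one₀ (mul_le_one₀ (hf _) (norm_nonneg _) ?_) (prod_nonneg fun _ _ => norm_nonneg _)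
    (prod_le_one (fun _ _ => norm_nonneg _) fun j _ => hg _ _)
  split_ifs <;> simp

/-- the dilation identity at one scale -/
lemma dil_fin3 {s : ℕ} (G : Geo s) (C₂ : ℝ) (hC₂0 : 0 ≤ C₂) (hC₂ : ∀ p M : ℕ, 1 ≤ p →
      (((Icc 1 M).filter (fun n : ℕ => p ∣ n ∨ ∃ j, (G.A j n ≤ 0 ∨ (p : ℤ) ∣ G.A j n))).card : ℝ) ≤
        C₂ * (M / p + 1))
    (f : ℕ → ℂ) (hf1 : ∀ n, ‖f n‖ ≤ 1) (g gt : Fin s → ℕ → ℂ) (hg1 : ∀ j n, ‖g j n‖ ≤ 1)
    (hgt1 : ∀ j n, ‖gt j n‖ ≤ 1) (τ : ℝ) (hτ : ∀ j n, ‖gt j n - g j n‖ ≤ τ)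
    (p : ℕ) (hp : p.Prime) (hfp : ∀ n, 1 ≤ n → ¬ p ∣ n → f (p * n) = - f n)
    (hgp : ∀ j, ‖g j p‖ = 1) (hgm : ∀ j n, ¬ p ∣ n → g j (p * n) = g j p * g j n)
    (N : ℕ) (hN : 1 ≤ N) :
    ‖AvN (N / p) (phi G f g)‖ - 2 * C₂ / p - s * τ - (2 * C₂ + 1) * p / N ≤
      (1 / (N : ℝ)) * ∑ n ∈ Icc 1 N, ((if p ∣ n then (p : ℂ) else 0) *
        ((ph (∑ n ∈ Icc 1 (N / p), phi G f g n) * (- ∏ j, starRingEnd ℂ (g j p))) *
          psi G f gt p n)).re := by
  classical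
  have hp0 : (0 : ℝ) < p := by exact_mod_cast hp.pos
  have hN0 : (0 : ℝ) < N := by exact_mod_cast hN
  have hp0' : (p : ℝ) ≠ 0 := hp0.ne'
  have hsτ : 0 ≤ s * τ := by
    rcases Nat.eq_zero_or_pos s with h0 | h0
    · subst h0; simp
    · have := (norm_nonneg _).trans (hτ ⟨0, h0⟩ 0)
      positivity
  obtain ⟨φ, hφ⟩ : ∃ φ, φ = phi G f g := ⟨_, rfl⟩
  have hφ1 : ∀ n, ‖φ n‖ ≤ 1 := fun n => by rw [hφ]; exact norm_phi G f g hf1 hg1 n
  obtain ⟨M, hM⟩ : ∃ M, M = N / p := ⟨_, rfl⟩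
  obtain ⟨S, hS⟩ : ∃ S, S = ∑ n ∈ Icc 1 M, φ n := ⟨_, rfl⟩
  obtain ⟨ψ, hψ⟩ : ∃ ψ : ℕ → ℂ, ψ = fun n => (ph S * (- ∏ j, starRingEnd ℂ (g j p))) * psi G f gt p n :=
    ⟨_, rfl⟩
  have hprodc : ‖- ∏ j, starRingEnd ℂ (g j p)‖ ≤ 1 := by
    rw [norm_neg, norm_prod]
    exact prod_le_one (fun _ _ => norm_nonneg _) fun j _ => by rw [RCLike.norm_conj, hgp]
  have hψ1 : ∀ n, ‖ψ n‖ ≤ 1 := fun n => by
    rw [hψ]
    dsimp only
    rw [norm_mul, norm_mul]
    exact mul_le_one₀ (mul_le_one₀ (norm_ph _) (norm_nonneg _) hprodc) (norm_nonneg _)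
      (norm_psi G f gt hf1 hgt1 p n)
  rw [← hφ, ← hM, ← hS]
  have h1 : ∑ n ∈ Icc 1 N, ((if p ∣ n then (p : ℂ) else 0) *
      ((ph S * (- ∏ j, starRingEnd ℂ (g j p))) * psi G f gt p n)).re =
      p * (∑ n ∈ Icc 1 M, ψ (p * n)).re := by
    have h2 : ∀ n, (if p ∣ n then (p : ℂ) else 0) *
        ((ph S * (- ∏ j, starRingEnd ℂ (g j p))) * psi G f gt p n) =
        (p : ℂ) * (if p ∣ n then ψ n else 0) := by
      intro n
      rw [hψ]
      dsimp only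
      split_ifs <;> ring
    simp only [h2]
    rw [← Complex.re_sum, ← mul_sum, sum_mult p N hp.one_le, ← hM, ← Complex.ofReal_natCast,
      Complex.re_ofReal_mul]
  rw [h1]
  -- comparison
  obtain ⟨Ex, hEx⟩ : ∃ Ex : Finset ℕ, Ex = (Icc 1 M).filter (fun n : ℕ => p ∣ n ∨
    ∃ j, (G.A j n ≤ 0 ∨ (p : ℤ) ∣ G.A j n)) := ⟨_, rfl⟩
  have hExc : (Ex.card : ℝ) ≤ C₂ * (M / p + 1) := by rw [hEx]; exact hC₂ p M hp.one_le
  have hterm : ∀ n ∈ Icc 1 M, ‖ψ (p * n) - ph S * φ n‖ ≤ s * τ + if n ∈ Ex then 2 else 0 := by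
    intro n hn
    have hn1 := (mem_Icc.1 hn).1
    split_ifs with hne
    · refine (norm_sub_le _ _).trans ?_
      have h2 : ‖ph S * φ n‖ ≤ 1 := by
        rw [norm_mul]
        exact mul_le_one₀ (norm_ph _) (norm_nonneg _) (hφ1 n)
      linarith [hψ1 (p * n)]
    · rw [add_zero]
      have hnd : ¬ (p ∣ n ∨ ∃ j, (G.A j n ≤ 0 ∨ (p : ℤ) ∣ G.A j n)) := by
        intro hj
        apply hne
        rw [hEx, mem_filter]
        exact ⟨hn, hj⟩
      push Not at hnd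
      obtain ⟨hnd1, hnd2⟩ := hnd
      have hdiv : (((p * n : ℕ) : ℝ)) / p = n := by
        push_cast
        rw [mul_comm, mul_div_assoc, div_self hp0', mul_one]
      have hval : ∀ j, ((p : ℤ) * G.A j n).toNat = p * (G.A j n).toNat := by
        intro j
        have h3 := (hnd2 j).1
        have : (((p : ℤ) * G.A j n).toNat : ℤ) = ((p * (G.A j n).toNat : ℕ) : ℤ) := by
          rw [Int.toNat_of_nonneg (by positivity)]
          push_cast
          rw [Int.toNat_of_nonneg h3.le]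
        exact_mod_cast this
      have hgv : ∀ j, g j ((p : ℤ) * G.A j n).toNat = g j p * g j (G.A j n).toNat := by
        intro j
        rw [hval, hgm]
        intro hd
        apply (hnd2 j).2
        have h3 := (hnd2 j).1
        have : (((G.A j n).toNat : ℕ) : ℤ) = G.A j n := Int.toNat_of_nonneg h3.le
        rw [← this]
        exact_mod_cast hd
      have h5 : (∏ j, starRingEnd ℂ (g j p)) * ∏ j, g j p = 1 := by
        rw [← prod_mul_distrib]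
        refine prod_eq_one fun j _ => ?_
        rw [mul_comm, Complex.mul_conj, Complex.normSq_eq_norm_sq, hgp]
        norm_num
      have h6 : (∏ j, starRingEnd ℂ (g j p)) * ∏ j, g j ((p : ℤ) * G.A j n).toNat =
          ∏ j, g j (G.A j n).toNat := by
        rw [prod_congr rfl fun j _ => hgv j, prod_mul_distrib, ← mul_assoc, h5, one_mul]
      have h2 : ψ (p * n) - ph S * φ n = ph S * (f n * (if G.E n then 1 else 0)) *
          (∏ j, starRingEnd ℂ (g j p)) * (∏ j, gt j ((p : ℤ) * G.A j n).toNat -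
            ∏ j, g j ((p : ℤ) * G.A j n).toNat) := by
        rw [hψ, hφ]
        unfold phi psi
        dsimp only
        rw [hdiv, hfp n hn1 hnd1, ← h6]
        ring
      rw [h2, norm_mul]
      have h7 : ‖ph S * (f n * (if G.E n then 1 else 0)) * (∏ j, starRingEnd ℂ (g j p))‖ ≤ 1 := by
        rw [norm_mul, norm_mul, norm_mul, ← norm_neg (∏ j, starRingEnd ℂ (g j p))]
        refine mul_le_one₀ (mul_le_one₀ (norm_ph _) (by positivity)
          (mul_le_one₀ (hf1 _) (norm_nonneg _) ?_)) (norm_nonneg _) hprodc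
        split_ifs <;> simp
      have h8 : ‖∏ j, gt j ((p : ℤ) * G.A j n).toNat - ∏ j, g j ((p : ℤ) * G.A j n).toNat‖ ≤ s * τ := by
        have h9 := norm_prod_sub_le univ (fun j => gt j ((p : ℤ) * G.A j n).toNat)
          (fun j => g j ((p : ℤ) * G.A j n).toNat) (fun j _ => hgt1 _ _) (fun j _ => hg1 _ _)
          (fun j _ => hτ j _)
        rwa [card_univ, Fintype.card_fin] at h9
      calc _ ≤ 1 * (s * τ) := mul_le_mul h7 h8 (norm_nonneg _) zero_le_one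
        _ = _ := one_mul _
  have hcmp : ‖∑ n ∈ Icc 1 M, ψ (p * n) - ph S * S‖ ≤ M * (s * τ) + 2 * Ex.card := by
    rw [hS, mul_sum, ← sum_sub_distrib, ← hS]
    refine (norm_sum_le _ _).trans ((sum_le_sum hterm).trans ?_)
    rw [sum_add_distrib, sum_const, Nat.card_Icc, Nat.add_sub_cancel, nsmul_eq_mul,
      ← sum_filter, sum_const, nsmul_eq_mul, mul_comm _ (2 : ℝ)]
    have h3 : (Icc 1 M).filter (fun n => n ∈ Ex) ⊆ Ex := fun n hn => (mem_filter.1 hn).2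
    have h4 : (((Icc 1 M).filter (fun n => n ∈ Ex)).card : ℝ) ≤ Ex.card := by
      exact_mod_cast card_le_card h3
    linarith
  have hre : ‖S‖ - (M * (s * τ) + 2 * (C₂ * (M / p + 1))) ≤ (∑ n ∈ Icc 1 M, ψ (p * n)).re := by
    have h2 := (abs_le.1 ((Complex.abs_re_le_norm _).trans hcmp)).1
    rw [Complex.sub_re, ph_mul, Complex.ofReal_re] at h2
    linarith
  have hMp : (M : ℝ) * p ≤ N := by
    have : M * p ≤ N := by rw [hM]; exact Nat.div_mul_le_self N p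
    exact_mod_cast this
  have hMp2 : (N : ℝ) ≤ M * p + p := by
    have : N ≤ M * p + p := by
      rw [hM]
      have := Nat.lt_div_mul_add (a := N) hp.pos
      omega
    exact_mod_cast this
  have hAv : ‖AvN M φ‖ * M = ‖S‖ := by
    rcases Nat.eq_zero_or_pos M with h0 | h0
    · subst h0
      rw [hS]
      simp
    · have hM0 : (0 : ℝ) < M := by exact_mod_cast h0
      unfold AvN
      rw [norm_mul, norm_div, norm_one, Complex.norm_natCast, ← hS]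
      field_simp
  have hAv1 : ‖AvN M φ‖ ≤ 1 := norm_AvN_le hφ1 M
  have hAv0 : 0 ≤ ‖AvN M φ‖ := norm_nonneg _
  have hkey : (‖AvN M φ‖ - 2 * C₂ / p - s * τ - (2 * C₂ + 1) * p / N) * N ≤
      p * (‖S‖ - (M * (s * τ) + 2 * (C₂ * (M / p + 1)))) := by
    have e1 : (‖AvN M φ‖ - 2 * C₂ / p - s * τ - (2 * C₂ + 1) * p / N) * N =
        ‖AvN M φ‖ * N - 2 * C₂ * N / p - s * τ * N - (2 * C₂ + 1) * p := by
      field_simp
    have e2 : p * (‖S‖ - (M * (s * τ) + 2 * (C₂ * (M / p + 1)))) =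
        ‖AvN M φ‖ * (M * p) - s * τ * (M * p) - 2 * C₂ * M - 2 * C₂ * p := by
      rw [← hAv]
      field_simp
      ring
    rw [e1, e2]
    have h3 : ‖AvN M φ‖ * N ≤ ‖AvN M φ‖ * (M * p) + p := by
      have : ‖AvN M φ‖ * N ≤ ‖AvN M φ‖ * (M * p + p) := mul_le_mul_of_nonneg_left hMp2 hAv0
      nlinarith
    have h4 : (M : ℝ) ≤ N / p := by rw [le_div_iff₀ hp0]; exact hMp
    have h5 : 2 * C₂ * M ≤ 2 * C₂ * N / p := by
      rw [mul_div_assoc]
      exact mul_le_mul_of_nonneg_left h4 (by positivity)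
    have h6 : s * τ * (M * p) ≤ s * τ * N := mul_le_mul_of_nonneg_left hMp hsτ
    linarith
  have h6 : (1 / (N : ℝ)) * (p * (∑ n ∈ Icc 1 M, ψ (p * n)).re) =
      (p * (∑ n ∈ Icc 1 M, ψ (p * n)).re) / N := by ring
  rw [h6, le_div_iff₀ hN0]
  exact hkey.trans (mul_le_mul_of_nonneg_left hre hp0.le)

end Pool.Agent.Q270.EH
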