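import Pool.Agent.Q270.EH.Main
import Pool.Agent.TH823.MRS.Circ5

/-!
Project EH (helper270): the Liouville and the Moebius function, other index types, exceptional scales.
-/

set_option autoImplicit false

namespace Pool.Agent.Q270.EH

open Finset Filter Pool.Agent.Q270.EA Pool.Agent.Q270.EB Pool.Agent.Q270.EC Pool.Agent.TH823.MRS
open Pool.Agent.H373R2.T7 (liR)

lemma fok_lam : Fok (fun n => (-1 : ℂ) ^ ArithmeticFunction.cardFactors n) := by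
  have hs : ∀ ε : ℝ, 0 < ε → ∃ h₀ : ℕ, ∀ h : ℕ, h₀ ≤ h → ∃ N₀ : ℕ, ∀ N : ℕ, N₀ ≤ N →
      ∑ n ∈ Icc 1 N, ‖∑ l ∈ range h, liR (n + l)‖ ≤ ε * h * N := short_of_expo liR liR_E
  refine ⟨fun n => ?_, fun p n hp hn _ => ?_, hs⟩
  · rcases neg_one_pow_eq_or ℂ (ArithmeticFunction.cardFactors n) with h | h
    · exact Or.inr (Or.inl h)
    · exact Or.inr (Or.inr h)
  · rw [ArithmeticFunction.cardFactors_mul hp.ne_zero (by omega), ArithmeticFunction.cardFactors_apply_prime hp,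
      pow_add, pow_one, neg_one_mul]

lemma fok_mu : Fok (fun n => ((ArithmeticFunction.moebius n : ℤ) : ℂ)) := by
  have hs : ∀ ε : ℝ, 0 < ε → ∃ h₀ : ℕ, ∀ h : ℕ, h₀ ≤ h → ∃ N₀ : ℕ, ∀ N : ℕ, N₀ ≤ N →
      ∑ n ∈ Icc 1 N, ‖∑ l ∈ range h, (fun n : ℕ => ((ArithmeticFunction.moebius n : ℤ) : ℂ)) (n + l)‖ ≤
        ε * h * N := short_of_expo (fun n => ((ArithmeticFunction.moebius n : ℤ) : ℂ)) mu_E
  refine ⟨fun n => ?_, fun p n hp hn hpn => ?_, hs⟩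
  · rcases ArithmeticFunction.moebius_eq_or n with h | h | h
    · left; simp [h]
    · right; left; simp [h]
    · right; right; simp [h]
  · rw [ArithmeticFunction.isMultiplicative_moebius.map_mul_of_coprime
      ((Nat.Prime.coprime_iff_not_dvd hp).2 hpn), ArithmeticFunction.moebius_apply_prime hp]
    push_cast
    ring

/-- `mainA` for finite index types -/
theorem mainA' {ι : Type*} [Fintype ι] (f : ℕ → ℂ) (hf : Fok f) (a b : ι → ℝ) (ha : ∀ j, 0 < a j)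
    (hspan : (1 : ℝ) ∉ Submodule.span ℚ (Set.range a)) (ε : ℝ) (hε : 0 < ε) :
    ∃ X₀ : ℕ, ∀ X : ℕ, X₀ ≤ X → ∀ g : ι → ℕ → ℂ, (∀ j, BM (g j)) →
      ∑ N ∈ Icc 1 X, (1 / (N : ℝ)) * ‖(1 / (N : ℂ)) * ∑ n ∈ Icc 1 N,
        f n * ∏ j, g j ⌊a j * (n : ℝ) + b j⌋₊‖ ≤ ε * Real.log X := by
  have e := Fintype.equivFin ι
  have hr : Set.range (a ∘ e.symm) = Set.range a := e.symm.surjective.range_comp a
  obtain ⟨X₀, h⟩ := mainA f hf (a ∘ e.symm) (b ∘ e.symm) (fun j => ha _) (by rw [hr]; exact hspan) ε hε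
  refine ⟨X₀, fun X hX g hg => ?_⟩
  refine le_trans (le_of_eq ?_) (h X hX (g ∘ e.symm) (fun j => hg _))
  refine sum_congr rfl fun N _ => ?_
  congr 3
  refine sum_congr rfl fun n _ => ?_
  congr 1
  exact (Equiv.prod_comp e.symm (fun j => g j ⌊a j * (n : ℝ) + b j⌋₊)).symm

/-- `mainB` for finite index types -/
theorem mainB' {ι : Type*} [Fintype ι] (f : ℕ → ℂ) (hf : Fok f) (α β : ℝ) (a b : ι → ℝ) (hα : 0 < α)
    (ha : ∀ j, 0 < a j) (hspan : α ∉ Submodule.span ℚ (insert (1 : ℝ) (Set.range a)))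
    (ε : ℝ) (hε : 0 < ε) :
    ∃ X₀ : ℕ, ∀ X : ℕ, X₀ ≤ X → ∀ g : ι → ℕ → ℂ, (∀ j, BM (g j)) →
      ∑ N ∈ Icc 1 X, (1 / (N : ℝ)) * ‖(1 / (N : ℂ)) * ∑ n ∈ Icc 1 N,
        f ⌊α * (n : ℝ) + β⌋₊ * ∏ j, g j ⌊a j * (n : ℝ) + b j⌋₊‖ ≤ ε * Real.log X := by
  have e := Fintype.equivFin ι
  have hr : Set.range (a ∘ e.symm) = Set.range a := e.symm.surjective.range_comp a
  obtain ⟨X₀, h⟩ := mainB f hf α β (a ∘ e.symm) (b ∘ e.symm) hα (fun j => ha _)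
    (by rw [hr]; exact hspan) ε hε
  refine ⟨X₀, fun X hX g hg => ?_⟩
  refine le_trans (le_of_eq ?_) (h X hX (g ∘ e.symm) (fun j => hg _))
  refine sum_congr rfl fun N _ => ?_
  congr 3
  refine sum_congr rfl fun n _ => ?_
  congr 1
  exact (Equiv.prod_comp e.symm (fun j => g j ⌊a j * (n : ℝ) + b j⌋₊)).symm

/-- Chebyshev's inequality over the scales -/
lemma rare (V : ℕ → ℝ) (hV : ∀ N, 0 ≤ V N) (X : ℕ) (ε L : ℝ) (hε : 0 < ε)
    (h : ∑ N ∈ Icc 1 X, (1 / (N : ℝ)) * V N ≤ ε ^ 2 * L) :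
    ∑ N ∈ (Icc 1 X).filter (fun N => ε < V N), 1 / (N : ℝ) ≤ ε * L := by
  have h1 : ε * ∑ N ∈ (Icc 1 X).filter (fun N => ε < V N), 1 / (N : ℝ) ≤
      ∑ N ∈ Icc 1 X, (1 / (N : ℝ)) * V N := by
    rw [mul_sum]
    refine le_trans (sum_le_sum fun N hN => ?_) (sum_le_sum_of_subset_of_nonneg (filter_subset _ _)
      fun N _ _ => mul_nonneg (by positivity) (hV N))
    rw [mem_filter] at hN
    rw [mul_comm]
    exact mul_le_mul_of_nonneg_left hN.2.le (by positivity)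
  have h2 : ε * ∑ N ∈ (Icc 1 X).filter (fun N => ε < V N), 1 / (N : ℝ) ≤ ε * (ε * L) := by
    calc _ ≤ _ := h1
      _ ≤ ε ^ 2 * L := h
      _ = _ := by ring
  exact le_of_mul_le_mul_left h2 hε

end Pool.Agent.Q270.EH
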