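import Mathlib

/-!
Project EH (helper270): the lines as seen from the main variable; the interface, and elementary
consequences.
-/

set_option autoImplicit false

namespace Pool.Agent.Q270.EH

open Finset Filter

open scoped Classical in
/-- a selection `E` and places `A j x = θ j x + O(1)`, all functions of a real variable, locally
constant outside a sparse set and almost periodic in the integers along multiples -/
structure Geo (s : ℕ) where
  θ : Fin s → ℝ
  E : ℝ → Prop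
  A : Fin s → ℝ → ℤ
  C : ℝ
  θ0 : ∀ j, 0 < θ j
  C0 : 0 ≤ C
  pos : ∀ j x, 0 ≤ x → |(A j x : ℝ) - θ j * x| ≤ C
  loc : ∀ δ : ℝ, 0 < δ → ∃ δ' : ℝ, 0 < δ' ∧ ∃ p0 : ℕ, ∀ p : ℕ, p0 ≤ p → ∃ N0 : ℕ, ∀ N : ℕ, N0 ≤ N →
    (((Icc 1 N).filter (fun m : ℕ => ∃ l : ℕ, (l : ℝ) ≤ δ' * p ∧
      (¬ (E (((m + l : ℕ) : ℝ) / p) ↔ E ((m : ℝ) / p)) ∨
        ∃ j, A j (((m + l : ℕ) : ℝ) / p) ≠ A j ((m : ℝ) / p)))).card : ℝ) ≤ δ * N
  per : ∀ (P0 Q t : ℕ) (δ : ℝ), 1 ≤ Q → 0 < δ → ∃ T : ℕ, T % Q = t % Q ∧ ∃ N0 : ℕ, ∀ N : ℕ, N0 ≤ N →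
    (((Icc 1 N).filter (fun m : ℕ => ∃ p : ℕ, 1 ≤ p ∧ p ≤ P0 ∧
      (¬ (E (((m + T : ℕ) : ℝ) / p) ↔ E ((m : ℝ) / p)) ∨
        ∃ j, (p : ℤ) * A j (((m + T : ℕ) : ℝ) / p) - ⌊θ j * ((m + T : ℕ) : ℝ)⌋ ≠
          (p : ℤ) * A j ((m : ℝ) / p) - ⌊θ j * (m : ℝ)⌋))).card : ℝ) ≤ δ * N

/-- a set with large gaps is small -/
lemma card_gap (R N : ℕ) (hR : 1 ≤ R) (S : Finset ℕ) (hS : S ⊆ Icc 1 N)
    (h : ∀ m ∈ S, ∀ m' ∈ S, m < m' → R ≤ m' - m) : (S.card : ℝ) ≤ N / R + 1 := by
  have h1 : S.card ≤ N / R + 1 := by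
    have h2 : S.card ≤ (range (N / R + 1)).card := by
      refine card_le_card_of_injOn (fun m => m / R) ?_ ?_
      · intro m hm
        rw [mem_coe, mem_range]
        have h3 := (mem_Icc.1 (hS hm)).2
        exact Nat.lt_succ_of_le (Nat.div_le_div_right h3)
      · intro m hm m' hm' he
        dsimp only at he
        by_contra hne
        rcases Nat.lt_or_gt_of_ne hne with hlt | hlt
        · have h3 := h m hm m' hm' hlt
          have h4 : m / R + 1 ≤ m' / R := by
            rw [← Nat.add_div_right m (by omega : 0 < R)]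
            exact Nat.div_le_div_right (by omega)
          omega
        · have h3 := h m' hm' m hm hlt
          have h4 : m' / R + 1 ≤ m / R := by
            rw [← Nat.add_div_right m' (by omega : 0 < R)]
            exact Nat.div_le_div_right (by omega)
          omega
    rwa [card_range] at h2
  have h2 : ((N / R : ℕ) : ℝ) ≤ N / R := Nat.cast_div_le
  calc (S.card : ℝ) ≤ ((N / R + 1 : ℕ) : ℝ) := by exact_mod_cast h1
    _ ≤ _ := by push_cast; linarith

/-- the integers in a real interval -/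
lemma card_near (c r : ℝ) (hr : 0 ≤ r) (S : Finset ℕ) (h : ∀ m ∈ S, |(m : ℝ) - c| ≤ r) :
    (S.card : ℝ) ≤ 2 * r + 1 := by
  rcases S.eq_empty_or_nonempty with h0 | h0
  · rw [h0]
    simp
    positivity
  · obtain ⟨a, ha⟩ : ∃ a, a = S.min' h0 := ⟨_, rfl⟩
    obtain ⟨b, hb⟩ : ∃ b, b = S.max' h0 := ⟨_, rfl⟩
    have haS : a ∈ S := by rw [ha]; exact S.min'_mem h0
    have hbS : b ∈ S := by rw [hb]; exact S.max'_mem h0
    have h1 : S ⊆ Icc a b := by
      intro x hx
      rw [mem_Icc, ha, hb]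
      exact ⟨S.min'_le x hx, S.le_max' x hx⟩
    have hab : a ≤ b := (mem_Icc.1 (h1 haS)).2
    have h2 := card_le_card h1
    rw [Nat.card_Icc] at h2
    have h3 : (S.card : ℝ) ≤ b - a + 1 := by
      have : S.card + a ≤ b + 1 := by omega
      have h4 : (S.card : ℝ) + a ≤ b + 1 := by exact_mod_cast this
      linarith
    have h4 := (abs_le.1 (h a haS)).1
    have h5 := (abs_le.1 (h b hbS)).2
    linarith

/-- few exceptions in the dilation identity -/
lemma exc_card {s : ℕ} (G : Geo s) : ∃ C₂ : ℝ, 0 ≤ C₂ ∧ ∀ p M : ℕ, 1 ≤ p →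
    (((Icc 1 M).filter (fun n : ℕ => p ∣ n ∨ ∃ j, (G.A j n ≤ 0 ∨ (p : ℤ) ∣ G.A j n))).card : ℝ) ≤
      C₂ * (M / p + 1) := by
  classical
  have hC := G.C0
  obtain ⟨c, hc⟩ : ∃ c : Fin s → ℝ, c = fun j => (2 * G.C / G.θ j + 1) * (2 * G.θ j + 2 * G.C + 2) :=
    ⟨_, rfl⟩
  have hc0 : ∀ j, 0 ≤ c j := fun j => by
    rw [hc]
    have := G.θ0 j
    dsimp only
    positivity
  refine ⟨1 + ∑ j, c j, add_nonneg zero_le_one (sum_nonneg fun j _ => hc0 j), fun p M hp => ?_⟩
  have hp0 : (0 : ℝ) < p := by exact_mod_cast hp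
  have hp1 : (1 : ℝ) ≤ p := by exact_mod_cast hp
  have hMp : (0 : ℝ) ≤ M / p := by positivity
  have h1 : ((Icc 1 M).filter (fun n : ℕ => p ∣ n ∨ ∃ j, (G.A j n ≤ 0 ∨ (p : ℤ) ∣ G.A j n))) ⊆
      ((Icc 1 M).filter (fun n : ℕ => p ∣ n)) ∪ univ.biUnion (fun j : Fin s =>
        (Icc 1 M).filter (fun n : ℕ => G.A j n ≤ 0 ∨ (p : ℤ) ∣ G.A j n)) := by
    intro n hn
    rw [mem_filter] at hn
    obtain ⟨h2, h3 | ⟨j, hj⟩⟩ := hn
    · exact mem_union_left _ (mem_filter.2 ⟨h2, h3⟩)
    · exact mem_union_right _ (mem_biUnion.2 ⟨j, mem_univ _, mem_filter.2 ⟨h2, hj⟩⟩)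
  have h2 : (((Icc 1 M).filter (fun n : ℕ => p ∣ n)).card : ℝ) ≤ M / p + 1 := by
    refine card_gap p M hp _ (filter_subset _ _) fun m hm m' hm' hlt => ?_
    have h3 := (mem_filter.1 hm).2
    have h4 := (mem_filter.1 hm').2
    exact Nat.le_of_dvd (by omega) (Nat.dvd_sub h4 h3)
  have h3 : ∀ j : Fin s, (((Icc 1 M).filter (fun n : ℕ => G.A j n ≤ 0 ∨ (p : ℤ) ∣ G.A j n)).card : ℝ) ≤
      c j * (M / p + 1) := by
    intro j
    have hθ := G.θ0 j
    -- the value
    obtain ⟨v, hv⟩ : ∃ v : ℕ → ℕ, v = fun (n : ℕ) => ((G.A j (n : ℝ)).toNat) / p := ⟨_, rfl⟩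
    have hfib : ∀ b : ℕ, ((((Icc 1 M).filter (fun n : ℕ => G.A j n ≤ 0 ∨ (p : ℤ) ∣ G.A j n)).filter
        (fun n => v n = b)).card : ℝ) ≤ 2 * (2 * G.C / G.θ j) + 1 := by
      intro b
      refine card_near ((p * b : ℝ) / G.θ j) (2 * G.C / G.θ j) (by positivity) _ fun n hn => ?_
      rw [mem_filter, mem_filter] at hn
      obtain ⟨⟨hn1, hn2⟩, hn3⟩ := hn
      have h4 := G.pos j n (by positivity)
      have h4' := abs_le.1 h4
      rw [abs_le]
      rw [hv] at hn3
      dsimp only at hn3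
      have hn0 : (0 : ℝ) ≤ n := by positivity
      by_cases hA : G.A j n ≤ 0
      · have h5 : (G.A j n).toNat = 0 := Int.toNat_of_nonpos hA
        rw [h5, Nat.zero_div] at hn3
        rw [← hn3]
        have h6 : (G.A j n : ℝ) ≤ 0 := by exact_mod_cast hA
        have h7 : (n : ℝ) ≤ G.C / G.θ j := by
          rw [le_div_iff₀ hθ]
          linarith [h4'.1, mul_comm (G.θ j) (n : ℝ)]
        have h8 : 2 * G.C / G.θ j = G.C / G.θ j + G.C / G.θ j := by ring
        have h9 : 0 ≤ G.C / G.θ j := by positivity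
        push_cast
        rw [mul_zero, zero_div, h8]
        constructor <;> linarith
      · have hd : (p : ℤ) ∣ G.A j n := by
          rcases hn2 with h | h
          · exact absurd h hA
          · exact h
        obtain ⟨q, hq⟩ := hd
        have hq0 : 0 ≤ q := by
          by_contra hneg
          push Not at hneg
          have : (p : ℤ) * q ≤ 0 := by
            have h1 : (0 : ℤ) ≤ p := by positivity
            nlinarith
          rw [← hq] at this
          exact hA this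
        have h5 : (G.A j n).toNat = p * q.toNat := by
          have : ((G.A j n).toNat : ℤ) = ((p * q.toNat : ℕ) : ℤ) := by
            push Not at hA
            rw [Int.toNat_of_nonneg hA.le]
            push_cast
            rw [Int.toNat_of_nonneg hq0, hq]
          exact_mod_cast this
        rw [h5, Nat.mul_div_cancel_left _ hp] at hn3
        have h6 : (G.A j n : ℝ) = p * b := by
          rw [← hn3]
          have : (q.toNat : ℤ) = q := Int.toNat_of_nonneg hq0
          have h7 : ((q.toNat : ℕ) : ℝ) = (q : ℝ) := by exact_mod_cast this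
          rw [h7, hq]
          push_cast
          ring
        rw [h6] at h4'
        have h7 : (p * b : ℝ) / G.θ j - n = (p * b - G.θ j * n) / G.θ j := by field_simp
        have h8 : (n : ℝ) - p * b / G.θ j = - ((p * b - G.θ j * n) / G.θ j) := by
          rw [← h7]
          ring
        rw [h8]
        have h9 : (p * b - G.θ j * n) / G.θ j ≤ G.C / G.θ j := by
          gcongr
          exact h4'.2
        have h10 : -(G.C / G.θ j) ≤ (p * b - G.θ j * n) / G.θ j := by
          rw [neg_div', div_le_div_iff_of_pos_right hθ]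
          exact h4'.1
        have h11 : 2 * G.C / G.θ j = G.C / G.θ j + G.C / G.θ j := by ring
        have h12 : 0 ≤ G.C / G.θ j := by positivity
        constructor <;> linarith
    have hmaps : ∀ n ∈ (Icc 1 M).filter (fun n : ℕ => G.A j n ≤ 0 ∨ (p : ℤ) ∣ G.A j n),
        v n ∈ range (⌊(G.θ j * M + G.C) / p⌋₊ + 1) := by
      intro n hn
      rw [mem_filter, mem_Icc] at hn
      rw [mem_range, hv]
      dsimp only
      refine Nat.lt_succ_of_le (Nat.le_floor ?_)
      have h4 := (abs_le.1 (G.pos j n (by positivity))).2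
      have h5 : (((G.A j n).toNat / p : ℕ) : ℝ) ≤ ((G.A j n).toNat : ℝ) / p := Nat.cast_div_le
      refine h5.trans ?_
      gcongr
      have h6 : ((G.A j n).toNat : ℝ) ≤ G.θ j * n + G.C := by
        rcases le_or_gt (G.A j n) 0 with h | h
        · rw [Int.toNat_of_nonpos h]
          push_cast
          positivity
        · have : ((G.A j n).toNat : ℤ) = G.A j n := Int.toNat_of_nonneg h.le
          have h7 : ((G.A j n).toNat : ℝ) = (G.A j n : ℝ) := by exact_mod_cast this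
          rw [h7]
          linarith
      have h7 : (n : ℝ) ≤ M := by exact_mod_cast hn.1.2
      have h8 : G.θ j * n ≤ G.θ j * M := by gcongr
      linarith
    have h4 := card_eq_sum_card_fiberwise hmaps
    rw [h4]
    push_cast
    refine (sum_le_sum fun b _ => hfib b).trans ?_
    rw [sum_const, card_range, nsmul_eq_mul]
    push_cast
    have h5 : (⌊(G.θ j * M + G.C) / p⌋₊ : ℝ) ≤ (G.θ j * M + G.C) / p := Nat.floor_le (by positivity)
    have h6 : (G.θ j * M + G.C) / p ≤ G.θ j * (M / p) + G.C := by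
      rw [add_div, mul_div_assoc]
      have : G.C / p ≤ G.C := div_le_self hC hp1
      linarith
    have h7 : 2 * (2 * G.C / G.θ j) + 1 ≤ 2 * (2 * G.C / G.θ j + 1) := by linarith
    have h8 : 0 ≤ 2 * G.C / G.θ j := by positivity
    rw [hc]
    dsimp only
    have h9 : (⌊(G.θ j * M + G.C) / p⌋₊ : ℝ) + 1 ≤ (G.θ j + G.C + 1) * (M / p + 1) := by
      have e1 : (G.θ j + G.C + 1) * (M / p + 1) = G.θ j * (M / p) + G.C + 1 + (G.θ j + G.C * (M / p) + M / p) := by ring
      have e2 : 0 ≤ G.θ j + G.C * (M / p) + M / p := by positivity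
      rw [e1]
      linarith
    calc ((⌊(G.θ j * M + G.C) / p⌋₊ : ℝ) + 1) * (2 * (2 * G.C / G.θ j) + 1) ≤
        ((G.θ j + G.C + 1) * (M / p + 1)) * (2 * (2 * G.C / G.θ j + 1)) := by gcongr
      _ = (2 * G.C / G.θ j + 1) * (2 * G.θ j + 2 * G.C + 2) * (M / p + 1) := by ring
  calc _ ≤ ((((Icc 1 M).filter (fun n : ℕ => p ∣ n)) ∪ univ.biUnion (fun j : Fin s =>
        (Icc 1 M).filter (fun n : ℕ => G.A j n ≤ 0 ∨ (p : ℤ) ∣ G.A j n))).card : ℝ) := by
        exact_mod_cast card_le_card h1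
    _ ≤ (((Icc 1 M).filter (fun n : ℕ => p ∣ n)).card : ℝ) + ∑ j : Fin s,
        (((Icc 1 M).filter (fun n : ℕ => G.A j n ≤ 0 ∨ (p : ℤ) ∣ G.A j n)).card : ℝ) := by
        have h4 := (card_union_le ((Icc 1 M).filter (fun n : ℕ => p ∣ n)) (univ.biUnion (fun j : Fin s =>
          (Icc 1 M).filter (fun n : ℕ => G.A j n ≤ 0 ∨ (p : ℤ) ∣ G.A j n)))).trans
          (Nat.add_le_add_left card_biUnion_le _)
        exact_mod_cast h4
    _ ≤ (M / p + 1) + ∑ j, c j * (M / p + 1) := add_le_add h2 (sum_le_sum fun j _ => h3 j)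
    _ = _ := by rw [← sum_mul]; ring

end Pool.Agent.Q270.EH
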