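import Pool.Agent.Q270.EH.Asm

/-!
Project EH (helper270): the theorems.
-/

set_option autoImplicit false

namespace Pool.Agent.Q270.EH

open Finset Filter Pool.Agent.Q270.EA Pool.Agent.Q270.EB Pool.Agent.Q270.EC

/-- what is used about `f` -/
structure Fok (f : ℕ → ℂ) : Prop where
  val : ∀ n, f n = 0 ∨ f n = 1 ∨ f n = -1
  neg : ∀ p n : ℕ, p.Prime → 1 ≤ n → ¬ p ∣ n → f (p * n) = - f n
  short : ∀ ε : ℝ, 0 < ε → ∃ h₀ : ℕ, ∀ h : ℕ, h₀ ≤ h → ∃ N₀ : ℕ, ∀ N : ℕ, N₀ ≤ N →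
      ∑ n ∈ Icc 1 N, ‖∑ l ∈ range h, f (n + l)‖ ≤ ε * h * N

lemma Fok.le {f : ℕ → ℂ} (hf : Fok f) (n : ℕ) : ‖f n‖ ≤ 1 := by
  rcases hf.val n with h | h | h <;> rw [h] <;> simp

/-- lines in `n` itself -/
theorem mainA {s : ℕ} (f : ℕ → ℂ) (hf : Fok f) (a b : Fin s → ℝ) (ha : ∀ j, 0 < a j)
    (hspan : (1 : ℝ) ∉ Submodule.span ℚ (Set.range a)) (ε : ℝ) (hε : 0 < ε) :
    ∃ X₀ : ℕ, ∀ X : ℕ, X₀ ≤ X → ∀ g : Fin s → ℕ → ℂ, (∀ j, BM (g j)) →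
      ∑ N ∈ Icc 1 X, (1 / (N : ℝ)) * ‖(1 / (N : ℂ)) * ∑ n ∈ Icc 1 N,
        f n * ∏ j, g j ⌊a j * (n : ℝ) + b j⌋₊‖ ≤ ε * Real.log X := by
  classical
  obtain ⟨G, hE, hA⟩ := geoA a b ha hspan
  obtain ⟨X₀, hX₀⟩ := eh_unif G f hf.val hf.neg hf.short (ε / 2) (by positivity)
  refine ⟨max X₀ 3, fun X hX g hg => ?_⟩
  have h1 := hX₀ X ((le_max_left _ _).trans hX) g hg
  have hX3 : 3 ≤ X := (le_max_right _ _).trans hX
  have hlog : 1 ≤ Real.log X := by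
    rw [Real.le_log_iff_exp_le (by positivity)]
    have h3 : (3 : ℝ) ≤ X := by exact_mod_cast hX3
    have := Real.exp_one_lt_d9
    linarith
  have h2 := EX_const X (fun N => ‖AvN N (phi G f g)‖)
  have h3 := sum_inv_le X
  have hS0 : 0 ≤ ∑ N ∈ Icc 1 X, 1 / (N : ℝ) := sum_nonneg fun _ _ => by positivity
  have h4 : ∀ N : ℕ, AvN N (phi G f g) = (1 / (N : ℂ)) * ∑ n ∈ Icc 1 N,
      f n * ∏ j, g j ⌊a j * (n : ℝ) + b j⌋₊ := by
    intro N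
    unfold AvN
    congr 1
    refine sum_congr rfl fun n _ => ?_
    unfold phi
    rw [hE, hA]
    simp only [if_true, mul_one, Int.floor_toNat]
  simp only [← h4]
  rw [← h2]
  calc EX X (fun N _ => ‖AvN N (phi G f g)‖) * ∑ N ∈ Icc 1 X, 1 / (N : ℝ) ≤
        ε / 2 * (1 + Real.log X) := by gcongr
    _ ≤ ε / 2 * (2 * Real.log X) := by gcongr; linarith
    _ = _ := by ring

/-- the main line is a Beatty line -/
theorem mainB {s : ℕ} (f : ℕ → ℂ) (hf : Fok f) (α β : ℝ) (a b : Fin s → ℝ) (hα : 0 < α)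
    (ha : ∀ j, 0 < a j) (hspan : α ∉ Submodule.span ℚ (insert (1 : ℝ) (Set.range a)))
    (ε : ℝ) (hε : 0 < ε) :
    ∃ X₀ : ℕ, ∀ X : ℕ, X₀ ≤ X → ∀ g : Fin s → ℕ → ℂ, (∀ j, BM (g j)) →
      ∑ N ∈ Icc 1 X, (1 / (N : ℝ)) * ‖(1 / (N : ℂ)) * ∑ n ∈ Icc 1 N,
        f ⌊α * (n : ℝ) + β⌋₊ * ∏ j, g j ⌊a j * (n : ℝ) + b j⌋₊‖ ≤ ε * Real.log X := by
  classical
  obtain ⟨R, hR⟩ := exists_nat_ge (1 / α)
  obtain ⟨A, hA⟩ : ∃ A, A = α + |β| := ⟨_, rfl⟩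
  have hA0 : 0 < A := by rw [hA]; positivity
  obtain ⟨C0, hC0⟩ : ∃ C0, C0 = 2 * ((1 + |β|) / α) + 1 + (2 * R + 1) * (2 + |β|) := ⟨_, rfl⟩
  have hC00 : 0 ≤ C0 := by rw [hC0]; positivity
  obtain ⟨R', hR'⟩ : ∃ R' : ℝ, R' = 2 * ((1 + |β|) / α + 1 / α) + 1 := ⟨_, rfl⟩
  have hR'0 : 0 ≤ R' := by rw [hR']; positivity
  obtain ⟨ε₁, hε₁⟩ : ∃ ε₁ : ℝ, ε₁ = ε / (4 * (A ^ 2 * R' * R + 1)) := ⟨_, rfl⟩
  have hε₁0 : 0 < ε₁ := by rw [hε₁]; positivity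
  choose G hE hAA using fun r : ℕ => geoB α β a b r hα ha hspan
  choose X₁ hX₁ using fun r : ℕ => eh_unif (G r) f hf.val hf.neg hf.short ε₁ hε₁0
  obtain ⟨Xm, hXm⟩ : ∃ Xm : ℕ, Xm = ∑ r ∈ range R, X₁ r := ⟨_, rfl⟩
  have hXle : ∀ r ∈ range R, X₁ r ≤ Xm := fun r hr => by
    rw [hXm]
    exact single_le_sum (f := X₁) (fun _ _ => Nat.zero_le _) hr
  -- large X
  obtain ⟨X₂, hX₂⟩ := exists_nat_ge ((Xm + 1) / A)
  obtain ⟨X₃, hX₃⟩ := exists_nat_ge (Real.exp (4 * C0 / ε))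
  obtain ⟨X₅, hX₅⟩ := exists_nat_ge (Real.exp (Real.log A + 1))
  refine ⟨max (max X₂ X₃) (max 3 X₅), fun X hX g hg => ?_⟩
  have hX2 : X₂ ≤ X := (le_max_left _ _).trans ((le_max_left _ _).trans hX)
  have hX3 : X₃ ≤ X := (le_max_right _ _).trans ((le_max_left _ _).trans hX)
  have hX33 : 3 ≤ X := (le_max_left _ _).trans ((le_max_right _ _).trans hX)
  have hX5 : X₅ ≤ X := (le_max_right _ _).trans ((le_max_right _ _).trans hX)
  have hXr0 : (0 : ℝ) < X := by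
    have : 0 < X := by omega
    exact_mod_cast this
  have hlog1 : 1 ≤ Real.log X := by
    rw [Real.le_log_iff_exp_le hXr0]
    have h3 : (3 : ℝ) ≤ X := by exact_mod_cast hX33
    have := Real.exp_one_lt_d9
    linarith
  have hlogC : 4 * C0 / ε ≤ Real.log X := by
    rw [Real.le_log_iff_exp_le hXr0]
    have h3 : (X₃ : ℝ) ≤ X := by exact_mod_cast hX3
    linarith
  have hlogA : Real.log A + 1 ≤ Real.log X := by
    rw [Real.le_log_iff_exp_le hXr0]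
    have h3 : (X₅ : ℝ) ≤ X := by exact_mod_cast hX5
    linarith
  obtain ⟨Z, hZ⟩ : ∃ Z : ℕ, Z = ⌊A * X⌋₊ := ⟨_, rfl⟩
  have hZm : Xm ≤ Z := by
    rw [hZ]
    refine Nat.le_floor ?_
    have h3 : (X₂ : ℝ) ≤ X := by exact_mod_cast hX2
    rw [div_le_iff₀ hA0] at hX₂
    nlinarith
  -- the functions of the scale
  obtain ⟨w, hw⟩ : ∃ w : ℤ → ℂ, w = fun (n : ℤ) => ∏ j, g j ⌊a j * (n : ℝ) + b j⌋₊ := ⟨_, rfl⟩
  have hw1 : ∀ n, ‖w n‖ ≤ 1 := fun n => by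
    rw [hw]
    dsimp only
    rw [norm_prod]
    exact prod_le_one (fun _ _ => norm_nonneg _) fun j _ => (hg j).1 _
  obtain ⟨H, hH⟩ : ∃ H : ℕ → ℝ, H = fun M => ∑ r ∈ range R, ‖AvN M (phi (G r) f g)‖ := ⟨_, rfl⟩
  have hH0 : ∀ m, 0 ≤ H m := fun m => by
    rw [hH]
    exact sum_nonneg fun _ _ => norm_nonneg _
  obtain ⟨V, hV⟩ : ∃ V : ℕ → ℝ, V = fun N : ℕ => ‖(1 / (N : ℂ)) * ∑ n ∈ Icc 1 N,
        f ⌊α * (n : ℝ) + β⌋₊ * ∏ j, g j ⌊a j * (n : ℝ) + b j⌋₊‖ := ⟨_, rfl⟩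
  obtain ⟨M, hM⟩ : ∃ M : ℕ → ℕ, M = fun N : ℕ => ⌊α * (N : ℝ) + β⌋₊ := ⟨_, rfl⟩
  have hphi : ∀ r m, phi (G r) f g m = f m * (if α * ((⌈((m : ℝ) - β) / α⌉ + r : ℤ) : ℝ) + β < m + 1
      then (1 : ℂ) else 0) * w (⌈((m : ℝ) - β) / α⌉ + r) := by
    intro r m
    unfold phi
    rw [hE, hAA, hw]
    simp only [Int.floor_toNat]
  have hV1 : ∀ N, 1 ≤ N → V N ≤ C0 / N + (M N / N) * H (M N) := by
    intro N hN
    have hN0 : (0 : ℝ) < N := by exact_mod_cast hN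
    have h1 := cellsum α β hα f hf.le w hw1 R hR N
    rw [← hC0] at h1
    have h2 : ‖∑ n ∈ Icc 1 N, f ⌊α * (n : ℝ) + β⌋₊ * w n‖ ≤ C0 + M N * H (M N) := by
      have h3 : ‖∑ r ∈ range R, ∑ m ∈ Icc 1 ⌊α * (N : ℝ) + β⌋₊,
          (f m * (if α * ((⌈((m : ℝ) - β) / α⌉ + r : ℤ) : ℝ) + β < m + 1 then (1 : ℂ) else 0) *
            w (⌈((m : ℝ) - β) / α⌉ + r))‖ ≤ M N * H (M N) := by
        rw [hH]
        dsimp only
        rw [mul_sum]
        refine norm_sum_le_of_le _ fun r _ => ?_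
        have h4 : ∑ m ∈ Icc 1 ⌊α * (N : ℝ) + β⌋₊,
          (f m * (if α * ((⌈((m : ℝ) - β) / α⌉ + r : ℤ) : ℝ) + β < m + 1 then (1 : ℂ) else 0) *
            w (⌈((m : ℝ) - β) / α⌉ + r)) = ∑ m ∈ Icc 1 (M N), phi (G r) f g m := by
          rw [hM]
          exact sum_congr rfl fun m _ => (hphi r m).symm
        rw [h4]
        unfold AvN
        rw [norm_mul, norm_div, norm_one, Complex.norm_natCast, ← mul_assoc]
        rcases Nat.eq_zero_or_pos (M N) with h0 | h0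
        · rw [h0]
          simp
        · have : (0 : ℝ) < M N := by exact_mod_cast h0
          rw [mul_one_div_cancel this.ne', one_mul]
      have h5 := norm_sub_norm_le (∑ n ∈ Icc 1 N, f ⌊α * (n : ℝ) + β⌋₊ * w n)
        (∑ r ∈ range R, ∑ m ∈ Icc 1 ⌊α * (N : ℝ) + β⌋₊,
          (f m * (if α * ((⌈((m : ℝ) - β) / α⌉ + r : ℤ) : ℝ) + β < m + 1 then (1 : ℂ) else 0) *
            w (⌈((m : ℝ) - β) / α⌉ + r)))
      linarith
    rw [hV]
    dsimp only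
    rw [norm_mul, norm_div, norm_one, Complex.norm_natCast]
    have h6 : ∑ n ∈ Icc 1 N, f ⌊α * (n : ℝ) + β⌋₊ * ∏ j, g j ⌊a j * (n : ℝ) + b j⌋₊ =
        ∑ n ∈ Icc 1 N, f ⌊α * (n : ℝ) + β⌋₊ * w n := by
      rw [hw]
      refine sum_congr rfl fun n _ => ?_
      simp only [Int.cast_natCast]
    rw [h6]
    calc 1 / (N : ℝ) * ‖∑ n ∈ Icc 1 N, f ⌊α * (n : ℝ) + β⌋₊ * w n‖ ≤ 1 / (N : ℝ) * (C0 + M N * H (M N)) := by
          gcongr
      _ = _ := by ring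
  have hMA : ∀ N : ℕ, 1 ≤ N → (M N : ℝ) ≤ A * N := by
    intro N hN
    have hN1 : (1 : ℝ) ≤ N := by exact_mod_cast hN
    rw [hM]
    dsimp only
    have h1 : (0 : ℝ) ≤ A * N := by positivity
    have h2 : α * N + β ≤ A * N := by
      rw [hA]
      have := le_abs_self β
      nlinarith [abs_nonneg β]
    rcases le_total 0 (α * N + β) with h | h
    · exact (Nat.floor_le h).trans h2
    · rw [Nat.floor_of_nonpos h]
      simpa using h1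
  have hfib : ∀ Y m : ℕ, (((Icc 1 Y).filter (fun N => M N = m)).card : ℝ) ≤ R' := by
    intro Y m
    rw [hR']
    rcases Nat.eq_zero_or_pos m with h0 | h0
    · refine card_near 0 _ (by positivity) _ (fun n hn => ?_)
      have h2 := (mem_filter.1 hn).2
      rw [hM, h0] at h2
      dsimp only at h2
      rw [Nat.floor_eq_zero] at h2
      rw [sub_zero, abs_of_nonneg (by positivity)]
      have h3 : (n : ℝ) ≤ (1 + |β|) / α := by
        rw [le_div_iff₀ hα]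
        have := neg_abs_le β
        linarith
      have : 0 < 1 / α := by positivity
      linarith
    · refine card_near (((m : ℝ) - β) / α) _ (by positivity) _ (fun n hn => ?_)
      have h2 := (mem_filter.1 hn).2
      rw [hM] at h2
      dsimp only at h2
      rw [Nat.floor_eq_iff' (by omega)] at h2
      have h3 : ((m : ℝ) - β) / α ≤ n := by rw [div_le_iff₀ hα]; linarith [h2.1]
      have h4 : (n : ℝ) ≤ ((m : ℝ) - β) / α + 1 / α := by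
        rw [← add_div, le_div_iff₀ hα]; linarith [h2.2]
      have h5 : 0 ≤ (1 + |β|) / α := by positivity
      have : 0 < 1 / α := by positivity
      rw [abs_le]
      constructor <;> linarith
  have hmain := log_transfer H V M C0 A R' hC00 hA0 hR'0 hH0 hV1 hMA hfib X
  rw [← hZ] at hmain
  have hsumH : ∑ m ∈ Icc 1 Z, (1 / (m : ℝ)) * H m ≤ R * ε₁ * (1 + Real.log Z) := by
    have h1 : ∑ m ∈ Icc 1 Z, (1 / (m : ℝ)) * H m = ∑ r ∈ range R, ∑ m ∈ Icc 1 Z,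
        (1 / (m : ℝ)) * ‖AvN m (phi (G r) f g)‖ := by
      rw [sum_comm]
      refine sum_congr rfl fun m _ => ?_
      rw [hH]
      dsimp only
      rw [mul_sum]
    rw [h1]
    have h2 : ∀ r ∈ range R, ∑ m ∈ Icc 1 Z, (1 / (m : ℝ)) * ‖AvN m (phi (G r) f g)‖ ≤
        ε₁ * (1 + Real.log Z) := by
      intro r hr
      rw [← EX_const Z (fun m => ‖AvN m (phi (G r) f g)‖)]
      have h3 := hX₁ r Z ((hXle r hr).trans hZm) g hg
      have h4 := sum_inv_le Z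
      have h5 : 0 ≤ ∑ N ∈ Icc 1 Z, 1 / (N : ℝ) := sum_nonneg fun _ _ => by positivity
      calc _ ≤ ε₁ * ∑ N ∈ Icc 1 Z, 1 / (N : ℝ) := by gcongr
        _ ≤ _ := by gcongr
    refine (sum_le_sum h2).trans ?_
    rw [sum_const, card_range, nsmul_eq_mul]
    apply le_of_eq
    ring
  have hlogZ : 1 + Real.log Z ≤ 2 * Real.log X := by
    rcases Nat.eq_zero_or_pos Z with h0 | h0
    · rw [h0]
      simp
      linarith
    · have hZ0 : (0 : ℝ) < Z := by exact_mod_cast h0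
      have h1 : (Z : ℝ) ≤ A * X := by
        rw [hZ]
        exact Nat.floor_le (by positivity)
      have h2 := Real.log_le_log hZ0 h1
      rw [Real.log_mul hA0.ne' hXr0.ne'] at h2
      linarith
  have hV' : ∑ N ∈ Icc 1 X, (1 / (N : ℝ)) * ‖(1 / (N : ℂ)) * ∑ n ∈ Icc 1 N,
        f ⌊α * (n : ℝ) + β⌋₊ * ∏ j, g j ⌊a j * (n : ℝ) + b j⌋₊‖ =
      ∑ N ∈ Icc 1 X, (1 / (N : ℝ)) * V N := by rw [hV]
  rw [hV']
  have hR0 : (0 : ℝ) ≤ R := by positivity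
  have e1 : 2 * C0 ≤ ε / 2 * Real.log X := by
    rw [div_le_iff₀ hε] at hlogC
    linarith
  have e2 : A ^ 2 * R' * ∑ m ∈ Icc 1 Z, (1 / (m : ℝ)) * H m ≤ ε / 2 * Real.log X := by
    calc A ^ 2 * R' * ∑ m ∈ Icc 1 Z, (1 / (m : ℝ)) * H m ≤
          A ^ 2 * R' * (R * ε₁ * (1 + Real.log Z)) := by gcongr
      _ ≤ A ^ 2 * R' * (R * ε₁ * (2 * Real.log X)) := by gcongr
      _ = (2 * (A ^ 2 * R' * R * ε₁)) * Real.log X := by ring
      _ ≤ ε / 2 * Real.log X := by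
        have h1 : A ^ 2 * R' * R * ε₁ ≤ ε / 4 := by
          rw [hε₁]
          have hx : 0 ≤ A ^ 2 * R' * R := by positivity
          rw [mul_div_assoc', div_le_div_iff₀ (by positivity) (by norm_num)]
          nlinarith
        have h2 : 0 ≤ Real.log X := by linarith
        gcongr
        linarith
  linarith

end Pool.Agent.Q270.EH
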