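import Pool.Agent.Q270.EH.Geo
import Pool.Agent.Q270.EC.Seq

/-!
Project EH (helper270): preliminaries for the main argument.
-/

set_option autoImplicit false

namespace Pool.Agent.Q270.EH

open Finset Filter Pool.Agent.Q270.EA Pool.Agent.Q270.EB Pool.Agent.Q270.EC Pool.Agent.Q119.EA

/-- the increments add up -/
lemma incr_sum (F F' : ℕ → ℕ) (hF : Monotone F) (hF' : Monotone F')
    (W : ℕ) (hinc : ∀ x < W, F (x + 1) - F x = F' (x + 1) - F' x) :
    F W - F 0 = F' W - F' 0 := by
  induction W with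
  | zero => simp
  | succ W ih =>
    have h0 : F 0 ≤ F W := hF (Nat.zero_le _)
    have h0' : F' 0 ≤ F' W := hF' (Nat.zero_le _)
    have h1 : F W ≤ F (W + 1) := hF (Nat.le_succ _)
    have h1' : F' W ≤ F' (W + 1) := hF' (Nat.le_succ _)
    have h2 := hinc W (Nat.lt_succ_self _)
    have h3 := ih fun x hx => hinc x (by omega)
    omega

/-- reading off a value from the values along the increments -/
lemma readoff {R : Type} (L : ℕ) (F F' : ℕ → ℕ) (u u' : ℕ → R) (hF : Monotone F) (hF' : Monotone F')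
    (W : ℕ) (hinc : ∀ x < W, F (x + 1) - F x = F' (x + 1) - F' x) (hL : ∀ x < W, F (x + 1) - F x ≤ L)
    (hu : ∀ x < W, ∀ l < L, u (F x + l) = u' (F' x + l)) (D : ℕ) (hD : D < F W - F 0) :
    u (F 0 + D) = u' (F' 0 + D) := by
  induction W with
  | zero => omega
  | succ W ih =>
    have h0 : F 0 ≤ F W := hF (Nat.zero_le _)
    have h0' : F' 0 ≤ F' W := hF' (Nat.zero_le _)
    have h1 : F W ≤ F (W + 1) := hF (Nat.le_succ _)
    have h3 := incr_sum F F' hF hF' W fun x hx => hinc x (by omega)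
    by_cases hDW : D < F W - F 0
    · exact ih (fun x hx => hinc x (by omega)) (fun x hx => hL x (by omega))
        (fun x hx => hu x (by omega)) hDW
    · have h4 := hL W (Nat.lt_succ_self _)
      have h5 := hu W (Nat.lt_succ_self _) (F 0 + D - F W) (by omega)
      have h6 : F W + (F 0 + D - F W) = F 0 + D := by omega
      have h7 : F' W + (F 0 + D - F W) = F' 0 + D := by omega
      rw [h6, h7] at h5
      exact h5

/-- averages over almost all scales of functions whose means are small at large scales -/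
lemma EX_tendsto' (X : ℕ → ℕ) (hX : Tendsto X atTop atTop)
    (φ : ℕ → ℕ → ℕ → ℝ) (C : ℝ) (hC : 0 ≤ C) (hφ : ∀ i N n, |φ i N n| ≤ C)
    (h : ∀ δ : ℝ, 0 < δ → ∃ N₀ : ℕ, ∀ i N : ℕ, 1 ≤ N → N₀ ≤ N →
      |(1 / (N : ℝ)) * ∑ n ∈ Icc 1 N, φ i N n| ≤ δ) :
    Tendsto (fun i => EX (X i) (φ i)) atTop (nhds 0) := by
  have hlogX : Tendsto (fun i : ℕ => 1 / Real.log (X i)) atTop (nhds 0) := by
    have h1 : Tendsto (fun i : ℕ => Real.log (X i)) atTop atTop :=
      Real.tendsto_log_atTop.comp (tendsto_natCast_atTop_atTop.comp hX)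
    simp only [one_div]
    exact h1.inv_tendsto_atTop
  rw [Metric.tendsto_atTop]
  intro δ hδ
  obtain ⟨N₀, hN₀⟩ := h (δ / 2) (by positivity)
  have hlim : Tendsto (fun i : ℕ => C * ((1 + Real.log N₀) * (1 / Real.log (X i))))
      atTop (nhds (C * ((1 + Real.log N₀) * 0))) := (hlogX.const_mul _).const_mul C
  rw [mul_zero, mul_zero] at hlim
  have hev := (hlim.eventually_lt_const (show 0 < δ / 2 by positivity)).and (hX.eventually_ge_atTop 2)
  obtain ⟨I, hI⟩ := eventually_atTop.1 hev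
  refine ⟨I, fun i hi => ?_⟩
  obtain ⟨h1, h3⟩ := hI i hi
  have h4 := EX_split (X i) N₀ (φ i) C (δ / 2) hC (by positivity) (hφ i)
    (fun N hN hNZ => hN₀ i N hN hNZ) h3
  rw [Real.dist_eq, sub_zero]
  have h5 : C * ((1 + Real.log N₀) / Real.log (X i)) = C * ((1 + Real.log N₀) * (1 / Real.log (X i))) := by
    ring
  rw [h5] at h4
  linarith

open scoped Classical in
/-- independence of the residue, from almost periods in all classes -/
lemma hind_of_per {U : Type} (u : ℕ → U)
    (h : ∀ (Q t : ℕ) (δ : ℝ), 1 ≤ Q → 0 < δ → ∃ T : ℕ, T % Q = t % Q ∧ ∃ N0 : ℕ, ∀ N : ℕ, N0 ≤ N →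
      (((Icc 1 N).filter (fun m : ℕ => u (m + T) ≠ u m)).card : ℝ) ≤ δ * N)
    (Q r : ℕ) (hQ : 1 ≤ Q) (hr : r < Q) (δ : ℝ) (hδ : 0 < δ) : ∃ N0 : ℕ, ∀ N : ℕ, 1 ≤ N → N0 ≤ N →
      ∀ φ : U → ℝ, (∀ y, |φ y| ≤ 1) →
      |(1 / (N : ℝ)) * ∑ n ∈ Icc 1 N, ((if n % Q = r then (1 : ℝ) else 0) - 1 / (Q : ℝ)) *
        φ (u n)| ≤ δ := by
  have hQ0 : (0 : ℝ) < Q := by exact_mod_cast hQ
  choose T hT N1 hN1 using fun t : ℕ => h Q t (δ / 4) hQ (by positivity)
  obtain ⟨Tm, hTm⟩ : ∃ Tm : ℕ, Tm = ∑ t ∈ range Q, T t := ⟨_, rfl⟩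
  have hTle : ∀ t ∈ range Q, T t ≤ Tm := fun t ht => by
    rw [hTm]
    exact single_le_sum (f := T) (fun _ _ => Nat.zero_le _) ht
  obtain ⟨Nm, hNm⟩ : ∃ Nm : ℕ, Nm = ∑ t ∈ range Q, N1 t := ⟨_, rfl⟩
  have hNle : ∀ t ∈ range Q, N1 t ≤ Nm := fun t ht => by
    rw [hNm]
    exact single_le_sum (f := N1) (fun _ _ => Nat.zero_le _) ht
  obtain ⟨K, hK⟩ := exists_nat_ge (4 * Tm / δ)
  refine ⟨max Nm K, fun N hN hNN φ hφ => ?_⟩
  have hN0 : (0 : ℝ) < N := by exact_mod_cast hN
  have hTN : (2 : ℝ) * Tm ≤ δ / 2 * N := by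
    have h1 : (K : ℝ) ≤ N := by exact_mod_cast (le_max_right Nm K).trans hNN
    rw [div_le_iff₀ hδ] at hK
    nlinarith
  obtain ⟨S, hS⟩ : ∃ S : ℕ → ℝ, S = fun r' => ∑ n ∈ Icc 1 N, (if n % Q = r' then (1 : ℝ) else 0) * φ (u n) :=
    ⟨_, rfl⟩
  -- comparison of two classes
  have hcmp : ∀ t ∈ range Q, |S r - S ((r + t) % Q)| ≤ δ * N := by
    intro t ht
    obtain ⟨w, hw⟩ : ∃ w : ℕ → ℝ, w = fun n => (if n % Q = (r + t) % Q then (1 : ℝ) else 0) * φ (u n) :=
      ⟨_, rfl⟩
    have hw1 : ∀ n, |w n| ≤ 1 := fun n => by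
      rw [hw]
      dsimp only
      split_ifs
      · rw [one_mul]; exact hφ _
      · simp
    have h1 : |∑ n ∈ Icc 1 N, w (n + T t) - ∑ n ∈ Icc 1 N, w n| ≤ 2 * T t := by
      have e1 : ∑ n ∈ Icc 1 N, w (n + T t) = ∑ n ∈ Icc (1 + T t) (N + T t), w n := by
        rw [← Finset.map_add_right_Icc, sum_map]
        rfl
      have e2 : ∑ n ∈ Icc 1 (N + T t), w n = ∑ n ∈ Icc 1 (T t), w n + ∑ n ∈ Icc (1 + T t) (N + T t), w n := by
        rw [← sum_union]
        · congr 1
          ext x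
          rw [mem_union, mem_Icc, mem_Icc, mem_Icc]
          omega
        · rw [disjoint_left]
          intro x hx hx'
          rw [mem_Icc] at hx hx'
          omega
      have e3 : ∑ n ∈ Icc 1 (N + T t), w n = ∑ n ∈ Icc 1 N, w n + ∑ n ∈ Icc (N + 1) (N + T t), w n := by
        rw [← sum_union]
        · congr 1
          ext x
          rw [mem_union, mem_Icc, mem_Icc, mem_Icc]
          omega
        · rw [disjoint_left]
          intro x hx hx'
          rw [mem_Icc] at hx hx'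
          omega
      have e4 : |∑ n ∈ Icc 1 (T t), w n| ≤ T t := by
        refine (abs_sum_le_sum_abs _ _).trans ((sum_le_sum fun n _ => hw1 n).trans ?_)
        simp
      have e5 : |∑ n ∈ Icc (N + 1) (N + T t), w n| ≤ T t := by
        refine (abs_sum_le_sum_abs _ _).trans ((sum_le_sum fun n _ => hw1 n).trans ?_)
        rw [sum_const, Nat.card_Icc, nsmul_eq_mul, mul_one]
        have : N + T t + 1 - (N + 1) = T t := by omega
        rw [this]
      rw [e1]
      have e6 : ∑ n ∈ Icc (1 + T t) (N + T t), w n - ∑ n ∈ Icc 1 N, w n =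
          ∑ n ∈ Icc (N + 1) (N + T t), w n - ∑ n ∈ Icc 1 (T t), w n := by linarith
      rw [e6]
      refine (abs_sub _ _).trans ?_
      linarith
    have h2 : |S r - ∑ n ∈ Icc 1 N, w (n + T t)| ≤ 2 * (δ / 4 * N) := by
      have e1 : ∀ n ∈ Icc 1 N, |(if n % Q = r then (1 : ℝ) else 0) * φ (u n) - w (n + T t)| ≤
          if u (n + T t) ≠ u n then 2 else 0 := by
        intro n _
        have e2 : (n + T t) % Q = (r + t) % Q ↔ n % Q = r := by
          have e3 : (n + T t) % Q = (n + t) % Q := by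
            rw [Nat.add_mod, hT t, ← Nat.add_mod]
          rw [e3]
          constructor
          · intro h
            have : n ≡ r [MOD Q] := Nat.ModEq.add_right_cancel' t h
            have h4 : n % Q = r % Q := this
            rw [h4, Nat.mod_eq_of_lt hr]
          · intro h
            have : n ≡ r [MOD Q] := by
              show n % Q = r % Q
              rw [h, Nat.mod_eq_of_lt hr]
            exact Nat.ModEq.add_right t this
        rw [hw]
        dsimp only
        by_cases h3 : u (n + T t) = u n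
        · have h5 : (if u (n + T t) ≠ u n then (2 : ℝ) else 0) = 0 := if_neg (not_not.2 h3)
          rw [h5, h3]
          by_cases h4 : n % Q = r
          · rw [if_pos h4, if_pos (e2.2 h4), sub_self, abs_zero]
          · rw [if_neg h4, if_neg (fun h => h4 (e2.1 h))]
            simp
        · rw [if_pos h3]
          refine (abs_sub _ _).trans ?_
          have e4 : |(if n % Q = r then (1 : ℝ) else 0) * φ (u n)| ≤ 1 := by
            split_ifs
            · rw [one_mul]; exact hφ _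
            · simp
          have e5 : |(if (n + T t) % Q = (r + t) % Q then (1 : ℝ) else 0) * φ (u (n + T t))| ≤ 1 := by
            split_ifs
            · rw [one_mul]; exact hφ _
            · simp
          linarith
      rw [hS]
      dsimp only
      rw [← sum_sub_distrib]
      refine (abs_sum_le_sum_abs _ _).trans ((sum_le_sum e1).trans ?_)
      rw [← sum_filter, sum_const, nsmul_eq_mul, mul_comm]
      have e6 := hN1 t N (((hNle t ht).trans (le_max_left _ _)).trans hNN)
      linarith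
    have h3 : ∑ n ∈ Icc 1 N, w n = S ((r + t) % Q) := by rw [hS, hw]
    rw [h3] at h1
    have h4 : (T t : ℝ) ≤ Tm := by exact_mod_cast hTle t ht
    have h5 := abs_sub_le (S r) (∑ n ∈ Icc 1 N, w (n + T t)) (S ((r + t) % Q))
    linarith
  -- the sum over the classes
  have htot : ∑ t ∈ range Q, S ((r + t) % Q) = ∑ n ∈ Icc 1 N, φ (u n) := by
    rw [hS]
    dsimp only
    rw [sum_comm]
    refine sum_congr rfl fun n _ => ?_
    rw [← sum_mul]
    have : ∑ t ∈ range Q, (if n % Q = (r + t) % Q then (1 : ℝ) else 0) = 1 := by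
      rw [sum_eq_single ((n % Q + (Q - r)) % Q)]
      · rw [if_pos]
        rw [Nat.add_mod_mod, ← add_assoc, add_comm r, add_assoc, Nat.add_sub_cancel' hr.le,
          Nat.add_mod_right, Nat.mod_mod]
      · intro t ht hne
        rw [if_neg]
        intro h1
        apply hne
        have h2 : n % Q + (Q - r) ≡ t [MOD Q] := by
          have h3 : n % Q ≡ r + t [MOD Q] := by
            show n % Q % Q = (r + t) % Q
            rw [Nat.mod_mod, h1]
          have h4 : n % Q + (Q - r) ≡ r + t + (Q - r) [MOD Q] := Nat.ModEq.add_right _ h3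
          have h5 : r + t + (Q - r) = t + Q := by omega
          rw [h5] at h4
          exact h4.trans (by show (t + Q) % Q = t % Q; exact Nat.add_mod_right _ _)
        have h6 : (n % Q + (Q - r)) % Q = t % Q := h2
        rw [h6, Nat.mod_eq_of_lt (mem_range.1 ht)]
      · intro h
        exact absurd (mem_range.2 (Nat.mod_lt _ hQ)) h
    rw [this, one_mul]
  have hfin : |Q * S r - ∑ n ∈ Icc 1 N, φ (u n)| ≤ Q * (δ * N) := by
    rw [← htot]
    have e1 : Q * S r = ∑ t ∈ range Q, S r := by rw [sum_const, card_range, nsmul_eq_mul]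
    rw [e1, ← sum_sub_distrib]
    refine (abs_sum_le_sum_abs _ _).trans ((sum_le_sum hcmp).trans ?_)
    rw [sum_const, card_range, nsmul_eq_mul]
  have e1 : (1 / (N : ℝ)) * ∑ n ∈ Icc 1 N, ((if n % Q = r then (1 : ℝ) else 0) - 1 / (Q : ℝ)) *
      φ (u n) = (Q * S r - ∑ n ∈ Icc 1 N, φ (u n)) / (Q * N) := by
    have e2 : ∀ n, ((if n % Q = r then (1 : ℝ) else 0) - 1 / (Q : ℝ)) * φ (u n) =
        (if n % Q = r then (1 : ℝ) else 0) * φ (u n) - (1 / (Q : ℝ)) * φ (u n) := fun n => by ring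
    simp only [e2]
    rw [sum_sub_distrib, ← mul_sum, hS]
    field_simp
  rw [e1, abs_div, abs_of_pos (by positivity : (0 : ℝ) < Q * N), div_le_iff₀ (by positivity)]
  calc _ ≤ Q * (δ * N) := hfin
    _ = _ := by ring

end Pool.Agent.Q270.EH
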