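import Pool.Agent.Q270.EH.Seq
import Pool.Agent.Q239.EA.RED

/-!
Project EH (helper270): reduction to unimodular companions, and the uniform statement.
-/

set_option autoImplicit false

namespace Pool.Agent.Q270.EH

open Finset Filter Pool.Agent.Q270.EA Pool.Agent.Q270.EB Pool.Agent.Q270.EC Pool.Agent.Q119.EA
open Pool.Agent.Q239.EA (GG GG_affine GG_BM GG_unimod GG_of GG_congr midpoint)

/-- the functional -/
noncomputable def Phi {ι : Type} {k : ℕ} (v : Fin k → ℕ → ℕ) (s : Finset ι) (w : ι → ℝ)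
    (c : ι → ℕ → ℂ) (Y : ℕ) (V : Fin k × ℕ → ℂ) : ℝ :=
  ∑ i ∈ s, w i * ‖∑ n ∈ Icc 1 Y, c i n * ∏ j, GG (fun q => V (j, q)) (v j n)‖

theorem Phi_step {ι : Type} {k : ℕ} (v : Fin k → ℕ → ℕ) (s : Finset ι) (w : ι → ℝ) (c : ι → ℕ → ℂ)
    (Y : ℕ) (hw : ∀ i ∈ s, 0 ≤ w i) (V : Fin k × ℕ → ℂ) (x : Fin k × ℕ) (hx : ‖V x‖ ≤ 1) :
    ∃ u : ℂ, ‖u‖ = 1 ∧ Phi v s w c Y V ≤ Phi v s w c Y (Function.update V x u) := by
  classical
  obtain ⟨j0, q⟩ := x
  have haff : ∀ n : ℕ, ∃ a b : ℂ, ∀ z, ∏ j, GG (fun q' => Function.update V (j0, q) z (j, q'))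
      (v j n) = a + b * z := by
    intro n
    obtain ⟨a, b, hab⟩ := GG_affine (fun q' => V (j0, q')) q (v j0 n)
    set R : ℂ := ∏ j ∈ univ.erase j0, GG (fun q' => V (j, q')) (v j n) with hR
    refine ⟨a * R, b * R, fun z => ?_⟩
    rw [← mul_prod_erase univ _ (mem_univ j0)]
    have e1 : (fun q' => Function.update V (j0, q) z (j0, q')) =
        Function.update (fun q' => V (j0, q')) q z := by
      funext q'
      by_cases hq : q' = q
      · rw [hq, Function.update_self, Function.update_self]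
      · rw [Function.update_of_ne hq, Function.update_of_ne]
        intro he
        exact hq (Prod.ext_iff.1 he).2
    rw [e1, hab]
    have e2 : ∏ j ∈ univ.erase j0, GG (fun q' => Function.update V (j0, q) z (j, q'))
        (v j n) = R := by
      refine prod_congr rfl fun j hj => ?_
      congr 1
      funext q'
      refine Function.update_of_ne ?_ _ _
      intro he
      exact (mem_erase.1 hj).1 (Prod.ext_iff.1 he).1
    rw [e2]
    ring
  choose a b hab using haff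
  have hPhi : ∀ z, Phi v s w c Y (Function.update V (j0, q) z) =
      ∑ i ∈ s, w i * ‖∑ n ∈ Icc 1 Y, c i n * (a n + b n * z)‖ := by
    intro z
    unfold Phi
    simp only [hab]
  obtain ⟨u, u', hu, hu', hz⟩ := midpoint (V (j0, q)) hx
  have hV : Phi v s w c Y V = Phi v s w c Y (Function.update V (j0, q) (V (j0, q))) := by
    rw [Function.update_eq_self]
  have hmid : Phi v s w c Y V ≤ (Phi v s w c Y (Function.update V (j0, q) u) +
      Phi v s w c Y (Function.update V (j0, q) u')) / 2 := by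
    rw [hV, hPhi, hPhi, hPhi, ← sum_add_distrib, sum_div]
    refine sum_le_sum fun i hi => ?_
    rw [← mul_add, mul_div_assoc]
    refine mul_le_mul_of_nonneg_left ?_ (hw i hi)
    have e : ∑ n ∈ Icc 1 Y, c i n * (a n + b n * V (j0, q)) =
        (∑ n ∈ Icc 1 Y, c i n * (a n + b n * u) + ∑ n ∈ Icc 1 Y, c i n * (a n + b n * u')) / 2 := by
      rw [← sum_add_distrib, sum_div]
      refine sum_congr rfl fun n _ => ?_
      rw [hz]
      ring
    rw [e, norm_div, Complex.norm_ofNat]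
    have := norm_add_le (∑ n ∈ Icc 1 Y, c i n * (a n + b n * u))
      (∑ n ∈ Icc 1 Y, c i n * (a n + b n * u'))
    linarith
  rcases le_total (Phi v s w c Y (Function.update V (j0, q) u))
    (Phi v s w c Y (Function.update V (j0, q) u')) with h1 | h1
  · exact ⟨u', hu', by linarith⟩
  · exact ⟨u, hu, by linarith⟩

theorem Phi_all {ι : Type} {k : ℕ} (v : Fin k → ℕ → ℕ) (s : Finset ι) (w : ι → ℝ) (c : ι → ℕ → ℂ)
    (Y : ℕ) (hw : ∀ i ∈ s, 0 ≤ w i) (T : Finset (Fin k × ℕ)) :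
    ∀ V : Fin k × ℕ → ℂ, (∀ x, ‖V x‖ ≤ 1) → ∃ V' : Fin k × ℕ → ℂ, (∀ x ∈ T, ‖V' x‖ = 1) ∧
      (∀ x, ‖V' x‖ ≤ 1) ∧ Phi v s w c Y V ≤ Phi v s w c Y V' := by
  classical
  induction T using Finset.induction_on with
  | empty => exact fun V hV => ⟨V, by simp, hV, le_rfl⟩
  | insert x T hx ih =>
    intro V hV
    obtain ⟨V', h1, h2, h3⟩ := ih V hV
    obtain ⟨u, hu, h4⟩ := Phi_step v s w c Y hw V' x (h2 x)
    refine ⟨Function.update V' x u, fun y hy => ?_, fun y => ?_, h3.trans h4⟩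
    · by_cases hyx : y = x
      · rw [hyx, Function.update_self]; exact hu
      · rw [Function.update_of_ne hyx]
        exact h1 y ((mem_insert.1 hy).resolve_left hyx)
    · by_cases hyx : y = x
      · rw [hyx, Function.update_self]; exact hu.le
      · rw [Function.update_of_ne hyx]
        exact h2 y

/-- the companions may be taken unimodular -/
theorem red2 (ι : Type) (k : ℕ) (g : Fin k → ℕ → ℂ) (v : Fin k → ℕ → ℕ) (s : Finset ι)
    (w : ι → ℝ) (c : ι → ℕ → ℂ) (Y : ℕ) (hg : ∀ j, BM (g j)) (hw : ∀ i ∈ s, 0 ≤ w i) :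
    ∃ g' : Fin k → ℕ → ℂ, (∀ j, BM (g' j)) ∧ (∀ j n, 1 ≤ n → ‖g' j n‖ = 1) ∧
      ∑ i ∈ s, w i * ‖∑ n ∈ Icc 1 Y, c i n * ∏ j, g j (v j n)‖ ≤
      ∑ i ∈ s, w i * ‖∑ n ∈ Icc 1 Y, c i n * ∏ j, g' j (v j n)‖ := by
  set B : ℕ := ∑ n ∈ Icc 1 Y, ∑ j, v j n with hB
  obtain ⟨V, hV1, hV2, hV3⟩ := Phi_all v s w c Y hw (univ ×ˢ range (B + 1)) (fun x => g x.1 x.2)
    (fun x => (hg x.1).1 x.2)
  set u : Fin k → ℕ → ℂ := fun j q => if q ≤ B then V (j, q) else 1 with hu
  have hv1 : ∀ j q, ‖u j q‖ = 1 := by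
    intro j q
    simp only [hu]
    split_ifs with hq
    · exact hV1 (j, q) (mem_product.2 ⟨mem_univ _, mem_range.2 (by omega)⟩)
    · exact norm_one
  refine ⟨fun j => GG (u j), fun j => GG_BM _ fun q => (hv1 j q).le,
    fun j n hn => GG_unimod _ (hv1 j) hn, ?_⟩
  have e1 : Phi v s w c Y (fun x => g x.1 x.2) =
      ∑ i ∈ s, w i * ‖∑ n ∈ Icc 1 Y, c i n * ∏ j, g j (v j n)‖ := by
    unfold Phi
    have : ∀ j n, GG (fun q => g j q) n = g j n := fun j n => GG_of (hg j) n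
    simp only [this]
  have e2 : Phi v s w c Y V =
      ∑ i ∈ s, w i * ‖∑ n ∈ Icc 1 Y, c i n * ∏ j, GG (u j) (v j n)‖ := by
    unfold Phi
    refine sum_congr rfl fun i _ => ?_
    congr 2
    refine sum_congr rfl fun n hn => ?_
    congr 1
    refine prod_congr rfl fun j _ => ?_
    refine GG_congr fun q hq => ?_
    have h1 : v j n ≤ ∑ j, v j n :=
      single_le_sum (f := fun j => v j n) (fun _ _ => Nat.zero_le _) (mem_univ j)
    have h2 : ∑ j, v j n ≤ B :=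
      single_le_sum (f := fun n => ∑ j, v j n) (fun _ _ => Nat.zero_le _) hn
    simp only [hu]
    rw [if_pos (hq.trans (h1.trans h2))]
  rw [← e1, ← e2]
  exact hV3

/-- the uniform statement -/
theorem eh_unif {s : ℕ} (G : Geo s) (f : ℕ → ℂ) (hf : ∀ n, f n = 0 ∨ f n = 1 ∨ f n = -1)
    (hfp : ∀ p n : ℕ, p.Prime → 1 ≤ n → ¬ p ∣ n → f (p * n) = - f n)
    (hsh : ∀ ε : ℝ, 0 < ε → ∃ h₀ : ℕ, ∀ h : ℕ, h₀ ≤ h → ∃ N₀ : ℕ, ∀ N : ℕ, N₀ ≤ N →
      ∑ n ∈ Icc 1 N, ‖∑ l ∈ range h, f (n + l)‖ ≤ ε * h * N)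
    (ε : ℝ) (hε : 0 < ε) : ∃ X₀ : ℕ, ∀ X : ℕ, X₀ ≤ X → ∀ g : Fin s → ℕ → ℂ, (∀ j, BM (g j)) →
      EX X (fun N _ => ‖AvN N (phi G f g)‖) ≤ ε := by
  classical
  by_contra hcon
  push Not at hcon
  choose X hX g hg hgX using hcon
  have hXt : Tendsto X atTop atTop := tendsto_atTop_mono hX tendsto_id
  have key : ∀ i, ∃ g' : Fin s → ℕ → ℂ, (∀ j, BM (g' j)) ∧ (∀ j n, 1 ≤ n → ‖g' j n‖ = 1) ∧
      EX (X i) (fun N _ => ‖AvN N (phi G f (g i))‖) ≤ EX (X i) (fun N _ => ‖AvN N (phi G f g')‖) := by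
    intro i
    obtain ⟨g', h1, h2, h3⟩ := red2 ℕ s (g i) (fun j n => (G.A j n).toNat) (Icc 1 (X i))
      (fun N => (1 / (N : ℝ)) * (1 / (N : ℝ)))
      (fun N n => if n ≤ N then f n * (if G.E n then 1 else 0) else 0) (X i) (hg i)
      (fun N _ => by positivity)
    refine ⟨g', h1, h2, ?_⟩
    have e : ∀ g : Fin s → ℕ → ℂ, EX (X i) (fun N _ => ‖AvN N (phi G f g)‖) =
        (∑ N ∈ Icc 1 (X i), (1 / (N : ℝ)) * (1 / (N : ℝ)) *
          ‖∑ n ∈ Icc 1 (X i), (if n ≤ N then f n * (if G.E n then 1 else 0) else 0) *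
            ∏ j, g j (G.A j n).toNat‖) / ∑ N ∈ Icc 1 (X i), 1 / (N : ℝ) := by
      intro g
      unfold EX
      congr 1
      refine sum_congr rfl fun N hN => ?_
      have hN1 : (0 : ℝ) < N := by exact_mod_cast (mem_Icc.1 hN).1
      have hNX := (mem_Icc.1 hN).2
      rw [sum_const, Nat.card_Icc, Nat.add_sub_cancel, nsmul_eq_mul]
      have e1 : (1 / (N : ℝ)) * (N * ‖AvN N (phi G f g)‖) = ‖AvN N (phi G f g)‖ := by field_simp
      rw [e1, mul_assoc]
      congr 1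
      unfold AvN
      rw [norm_mul, norm_div, norm_one, Complex.norm_natCast]
      congr 2
      have e2 : Icc 1 N = (Icc 1 (X i)).filter (fun n => n ≤ N) := by
        ext n
        rw [mem_filter, mem_Icc, mem_Icc]
        omega
      rw [e2, sum_filter]
      refine sum_congr rfl fun n _ => ?_
      unfold phi
      split_ifs <;> simp
    rw [e, e]
    exact div_le_div_of_nonneg_right h3 (sum_nonneg fun N _ => by positivity)
  choose g' hg'1 hg'2 hg'3 using key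
  refine ehseq G f hf hfp hsh X hXt g' (fun i j n => (hg'1 i j).1 n)
    (fun i j p hp => hg'2 i j p hp.one_le) (fun i j p n hp hn => ?_) ε hε
    (fun i => ((hgX i).le).trans (hg'3 i))
  exact (hg'1 i j).2.2 p n ((Nat.Prime.coprime_iff_not_dvd hp).2 hn)

end Pool.Agent.Q270.EH
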