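import Pool.Agent.Q270.EH.Dec
import Pool.Agent.Q270.EH.Det

/-!
Project EH (helper270): the main argument, for sequences.
-/

set_option autoImplicit false

namespace Pool.Agent.Q270.EH

open Finset Filter Pool.Agent.Q270.EA Pool.Agent.Q270.EB Pool.Agent.Q270.EC Pool.Agent.Q119.EA

/-- the sequence form of the theorem -/
theorem ehseq {s : ℕ} (G : Geo s) (f : ℕ → ℂ) (hf : ∀ n, f n = 0 ∨ f n = 1 ∨ f n = -1)
    (hfp : ∀ p n : ℕ, p.Prime → 1 ≤ n → ¬ p ∣ n → f (p * n) = - f n)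
    (hsh : ∀ ε : ℝ, 0 < ε → ∃ h₀ : ℕ, ∀ h : ℕ, h₀ ≤ h → ∃ N₀ : ℕ, ∀ N : ℕ, N₀ ≤ N →
      ∑ n ∈ Icc 1 N, ‖∑ l ∈ range h, f (n + l)‖ ≤ ε * h * N)
    (X : ℕ → ℕ) (hX : Tendsto X atTop atTop)
    (g : ℕ → Fin s → ℕ → ℂ) (hg1 : ∀ i j n, ‖g i j n‖ ≤ 1)
    (hgp : ∀ i j (p : ℕ), p.Prime → ‖g i j p‖ = 1)
    (hgm : ∀ i j (p n : ℕ), p.Prime → ¬ p ∣ n → g i j (p * n) = g i j p * g i j n)
    (ε : ℝ) (hε : 0 < ε) :
    ¬ ∀ i, ε ≤ EX (X i) (fun N _ => ‖AvN N (phi G f (g i))‖) := by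
  classical
  intro hcon
  obtain ⟨M, hS, hν, hdil, hlow, hlim⟩ := Pool.Agent.Q239.EA.t_SY3 X hX
  obtain ⟨E, hE1, hE2⟩ : ∃ E : Dil M (ℕ × ℕ), (∀ ω, E.lab ω = (ω.1, ω.2.1)) ∧
      ∀ p l, E.dl p l = (l.1, l.2 / p) :=
    ⟨{ lab := fun ω => (ω.1, ω.2.1)
       dl := fun p l => (l.1, l.2 / p)
       D := fun p ω => (ω.1, ω.2.1 / p, ω.2.2 / p)
       lab_S := fun ω => by rw [hS]
       lab_D := fun p ω => rfl
       ν_D := fun p ω => by rw [hν, hν]
       dil := fun p hp φ hφ => by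
         rw [hdil p hp φ hφ]
         congr 1
         funext ω
         rw [hν] }, fun _ => rfl, fun _ _ => rfl⟩
  have hf1 : ∀ n, ‖f n‖ ≤ 1 := fun n => by
    rcases hf n with h | h | h <;> rw [h] <;> simp
  -- means that vanish
  have hzero : ∀ (φ : ℕ × ℕ × ℕ → ℝ) (C : ℝ), 0 ≤ C → (∀ ω, |φ ω| ≤ C) →
      (∀ δ : ℝ, 0 < δ → ∃ N₀ : ℕ, ∀ i N : ℕ, 1 ≤ N → N₀ ≤ N →
        |(1 / (N : ℝ)) * ∑ n ∈ Icc 1 N, φ (i, N, n)| ≤ δ) → M.m φ = 0 := by
    intro φ C hC hφ h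
    exact hlim φ ⟨C, hφ⟩ 0 (EX_tendsto' X hX (fun i N n => φ (i, N, n)) C hC
      (fun i N n => hφ _) h)
  -- means that are small
  have hsmall : ∀ (χ : ℕ × ℕ × ℕ → ℝ) (C δ : ℝ), 0 ≤ C → 0 ≤ δ → (∀ ω, |χ ω| ≤ C) →
      (∃ N₀ : ℕ, ∀ i N : ℕ, 1 ≤ N → N₀ ≤ N →
        (1 / (N : ℝ)) * ∑ n ∈ Icc 1 N, χ (i, N, n) ≤ δ) → M.m χ ≤ δ := by
    intro χ C δ hC hδ hχ h
    obtain ⟨N₀, hN₀⟩ := h
    obtain ⟨K, hK⟩ : ∃ K : ℕ × ℕ × ℕ → ℝ, K = fun ω => if ω.2.1 < N₀ then C else 0 := ⟨_, rfl⟩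
    have hK0 : ∀ ω, 0 ≤ K ω := fun ω => by rw [hK]; dsimp only; split_ifs <;> simp [hC]
    have hK1 : ∀ ω, |K ω| ≤ C := fun ω => by
      rw [abs_of_nonneg (hK0 ω), hK]; dsimp only; split_ifs <;> simp [hC]
    have hKz : M.m K = 0 := by
      refine hzero K C hC hK1 fun δ hδ => ⟨N₀, fun i N _ hN => ?_⟩
      have : ∀ n, K (i, N, n) = 0 := fun n => by
        rw [hK]; dsimp only; rw [if_neg (by omega)]
      simp only [this]
      simp [hδ.le]
    have hbχ : Bd χ := ⟨C, hχ⟩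
    have hbK : Bd K := ⟨C, hK1⟩
    have h1 := hlow (fun ω => δ - χ ω + K ω) (((Bd.const δ).sub hbχ).add hbK) 0 (fun i => by
      rcases Nat.eq_zero_or_pos (X i) with hX0 | hX0
      · rw [hX0]
        unfold EX
        simp
      refine EX_ge (X i) hX0 _ _ fun N hN => ?_
      have hN0 : (0 : ℝ) < N := by exact_mod_cast hN
      by_cases hlt : N < N₀
      · refine mul_nonneg (by positivity) (sum_nonneg fun n _ => ?_)
        have h2 : K (i, N, n) = C := by rw [hK]; dsimp only; rw [if_pos hlt]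
        rw [h2]
        have := (abs_le.1 (hχ (i, N, n))).2
        linarith
      · have h2 : ∀ n, K (i, N, n) = 0 := fun n => by rw [hK]; dsimp only; rw [if_neg hlt]
        have h3 := hN₀ i N hN (by omega)
        simp only [h2, add_zero]
        rw [sum_sub_distrib, mul_sub, sum_const, Nat.card_Icc, Nat.add_sub_cancel, nsmul_eq_mul]
        have h4 : (1 / (N : ℝ)) * (N * δ) = δ := by field_simp
        rw [h4]
        linarith)
    rw [M.add _ _ ((Bd.const δ).sub hbχ) hbK, M.sub (Bd.const δ) hbχ, hKz, M.const] at h1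
    linarith
  have hSit : ∀ (l : ℕ) (ω : ℕ × ℕ × ℕ), M.S^[l] ω = (ω.1, ω.2.1, ω.2.2 + l) := by
    intro l
    induction l with
    | zero => intro ω; rfl
    | succ l ih => intro ω; rw [Function.iterate_succ_apply', ih, hS]; rfl
  -- the functions
  obtain ⟨φf, hφf⟩ : ∃ φf : ℕ → ℕ → ℂ, φf = fun (i n : ℕ) => phi G f (g i) n := ⟨_, rfl⟩
  have hφf1 : ∀ i n, ‖φf i n‖ ≤ 1 := fun i n => by
    rw [hφf]
    exact norm_phi G f (g i) hf1 (hg1 i) n
  obtain ⟨h, hh⟩ : ∃ h : ℕ × ℕ → ℝ, h = fun l => ‖AvN l.2 (φf l.1)‖ := ⟨_, rfl⟩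
  have hh0 : ∀ l, 0 ≤ h l := fun l => by rw [hh]; exact norm_nonneg _
  have hh1 : ∀ l, h l ≤ 1 := fun l => by rw [hh]; exact norm_AvN_le (hφf1 _) _
  have hhb : ∃ C, ∀ l, |h l| ≤ C := ⟨1, fun l => by rw [abs_of_nonneg (hh0 l)]; exact hh1 l⟩
  obtain ⟨Mh, hMh⟩ : ∃ Mh : ℝ, Mh = M.m (fun ω => h (E.lab ω)) := ⟨_, rfl⟩
  have hMhε : ε ≤ Mh := by
    rw [hMh]
    refine hlow (fun ω => h (E.lab ω)) ⟨1, fun ω => by
      dsimp only; rw [abs_of_nonneg (hh0 _)]; exact hh1 _⟩ ε (fun i => ?_)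
    have := hcon i
    simp only [hE1, hh, hφf]
    exact this
  -- rounding
  obtain ⟨τ, hτ⟩ : ∃ τ : ℝ, τ = ε / (8 * (s + 1)) := ⟨_, rfl⟩
  have hτ0 : 0 < τ := by rw [hτ]; positivity
  have hsτ : s * τ ≤ ε / 8 := by
    rw [hτ]
    have h1 : (s : ℝ) * (ε / (8 * (s + 1))) = (s / (s + 1)) * (ε / 8) := by field_simp
    rw [h1]
    refine mul_le_of_le_one_left (by positivity) ?_
    rw [div_le_one (by positivity)]
    linarith
  obtain ⟨R, iR, enc, dec, hR⟩ := t_RND τ hτ0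
  obtain ⟨u, hu⟩ : ∃ u : ℕ → Fin s → ℕ → R, u = fun i j n => enc (g i j n) := ⟨_, rfl⟩
  obtain ⟨gt, hgt⟩ : ∃ gt : ℕ → Fin s → ℕ → ℂ, gt = fun i j n => dec (u i j n) := ⟨_, rfl⟩
  have hgt1 : ∀ i j n, ‖gt i j n‖ ≤ 1 := fun i j n => by
    rw [hgt, hu]; exact (hR _ (hg1 i j n)).1
  have hgtτ : ∀ i j n, ‖gt i j n - g i j n‖ ≤ τ := fun i j n => by
    rw [hgt, hu]; exact (hR _ (hg1 i j n)).2
  obtain ⟨κ, hκ⟩ : ∃ κ : ℕ → ℕ × ℕ → ℂ, κ = fun p l => if p.Prime then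
    (ph (∑ n ∈ Icc 1 (l.2 / p), φf l.1 n) * (- ∏ j, starRingEnd ℂ (g l.1 j p)))
    else 0 := ⟨_, rfl⟩
  have hκ1 : ∀ p l, ‖κ p l‖ ≤ 1 := fun p l => by
    rw [hκ]
    dsimp only
    split_ifs with hp
    · rw [norm_mul, norm_neg, norm_prod]
      refine mul_le_one₀ (norm_ph _) (prod_nonneg fun _ _ => norm_nonneg _)
        (prod_le_one (fun _ _ => norm_nonneg _) fun j _ => ?_)
      rw [RCLike.norm_conj, hgp _ _ _ hp]
    · simp
  obtain ⟨ψ, hψ⟩ : ∃ ψ : ℕ → (ℕ × ℕ × ℕ) → ℂ, ψ = fun p ω => psi G f (gt ω.1) p ω.2.2 := ⟨_, rfl⟩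
  have hψ1 : ∀ p ω, ‖ψ p ω‖ ≤ 1 := fun p ω => by
    rw [hψ]; exact norm_psi G f _ hf1 (hgt1 _) p _
  -- independence
  have hIND : Indp M (fun ω p => κ p (E.lab ω)) (fun e ω => if bit G ω.2.2 e then (1 : ℂ) else 0) := by
    intro n₀ Q r hQ hr φ hφ
    have hQ0 : (0 : ℝ) < Q := by exact_mod_cast hQ
    obtain ⟨U, hU⟩ : ∃ U : ℕ → (Fin n₀ → Fin n₀ → ℂ), U = fun n => fun (l e : Fin n₀) =>
      (if bit G (n + l) e then (1 : ℂ) else 0) := ⟨_, rfl⟩
    obtain ⟨Y, hY⟩ : ∃ Y : (ℕ × ℕ × ℕ) → ℝ, Y = fun ω => φ (fun p => κ p (E.lab ω))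
      (fun l e => if bit G (M.S^[(l : ℕ)] ω).2.2 e then (1 : ℂ) else 0) := ⟨_, rfl⟩
    have hYU : ∀ i N n, Y (i, N, n) = φ (fun p => κ p (i, N)) (U n) := by
      intro i N n
      rw [hY, hU]
      dsimp only
      rw [hE1]
      congr 1
      funext l e
      rw [hSit]
    have hY1 : ∀ ω, |Y ω| ≤ 1 := fun ω => by rw [hY]; exact hφ _ _
    have hYb : Bd Y := ⟨1, hY1⟩
    have hb1 : Bd (fun ω => if M.ν ω % Q = r then Y ω else 0) := ⟨1, fun ω => by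
      dsimp only
      split_ifs
      · exact hY1 ω
      · simp⟩
    have h1 : M.m (fun ω => (if M.ν ω % Q = r then Y ω else 0) - (1 / (Q : ℝ)) * Y ω) = 0 := by
      refine hzero _ 2 (by norm_num) (fun ω => ?_) ?_
      · refine (abs_sub _ _).trans ?_
        have h2 : |(if M.ν ω % Q = r then Y ω else 0)| ≤ 1 := by
          split_ifs
          · exact hY1 ω
          · simp
        have h3 : |(1 / (Q : ℝ)) * Y ω| ≤ 1 := by
          rw [abs_mul, abs_of_pos (by positivity)]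
          have : (1 : ℝ) / Q ≤ 1 := by
            rw [div_le_one hQ0]
            exact_mod_cast hQ
          exact mul_le_one₀ this (abs_nonneg _) (hY1 ω)
        linarith
      · intro δ hδ
        obtain ⟨N₀, hN₀⟩ := hind_of_per U (fun Q t δ hQ hδ => by
          rw [hU]
          convert bit_per G n₀ Q t δ hQ hδ) Q r hQ hr δ hδ
        refine ⟨N₀, fun i N hN hNN => ?_⟩
        have h2 := hN₀ N hN hNN (φ (fun p => κ p (i, N))) (fun y => hφ _ y)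
        have h3 : ∀ n, (if M.ν (i, N, n) % Q = r then Y (i, N, n) else 0) -
            (1 / (Q : ℝ)) * Y (i, N, n) = ((if n % Q = r then (1 : ℝ) else 0) - 1 / (Q : ℝ)) *
            φ (fun p => κ p (i, N)) (U n) := by
          intro n
          rw [hν, hYU]
          dsimp only
          split_ifs <;> ring
        simp only [h3]
        exact h2
    rw [M.sub hb1 (hYb.smul _), M.smul _ _ hYb, sub_eq_zero, hY] at h1
    exact h1
  -- the parameters of the windows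
  obtain ⟨L, hL⟩ : ∃ L : ℕ, ∀ j, G.θ j + 1 ≤ L := by
    obtain ⟨L, hL⟩ := exists_nat_ge (∑ j, G.θ j + 1)
    refine ⟨L, fun j => le_trans ?_ hL⟩
    have := single_le_sum (f := G.θ) (fun j _ => (G.θ0 j).le) (mem_univ j)
    linarith
  obtain ⟨y0, hy0⟩ : ∃ y0 : ℕ, ∀ j, G.C + 4 ≤ G.θ j * y0 := by
    obtain ⟨y0, hy0⟩ := exists_nat_ge (∑ j, (G.C + 4) / G.θ j)
    refine ⟨y0, fun j => ?_⟩
    have h1 := single_le_sum (f := fun j => (G.C + 4) / G.θ j)
      (fun j _ => by have := G.θ0 j; have := G.C0; positivity) (mem_univ j)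
    have h2 : (G.C + 4) / G.θ j ≤ y0 := h1.trans hy0
    rw [div_le_iff₀ (G.θ0 j)] at h2
    linarith
  -- large primes: the mean of each term is small
  obtain ⟨p₁, hp₁⟩ : ∃ p₁ : ℕ, ∀ p, p₁ ≤ p → ‖mc M (fun ω => κ p (E.lab ω) * ψ p ω)‖ ≤ ε / 8 := by
    obtain ⟨δ', hδ', p0, hp0⟩ := G.loc (ε / 16) (by positivity)
    obtain ⟨h₀, hh₀⟩ := hsh (ε / 16) (by positivity)
    obtain ⟨p₂, hp₂⟩ := exists_nat_ge ((h₀ + 2) / δ')
    refine ⟨max p0 p₂, fun p hp => ?_⟩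
    obtain ⟨H, hH⟩ : ∃ H : ℕ, H = ⌊δ' * p⌋₊ := ⟨_, rfl⟩
    have hpb : (h₀ + 2 : ℝ) ≤ δ' * p := by
      have h1 : (p₂ : ℝ) ≤ p := by exact_mod_cast (le_max_right p0 p₂).trans hp
      rw [div_le_iff₀ hδ'] at hp₂
      nlinarith
    have hH1 : h₀ + 1 ≤ H := by
      rw [hH]
      refine Nat.le_floor ?_
      push_cast
      linarith
    have hHp : (0 : ℝ) < H := by
      have : 1 ≤ H := by omega
      exact_mod_cast this
    obtain ⟨N₁, hN₁⟩ := hp0 p ((le_max_left _ _).trans hp)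
    obtain ⟨N₂, hN₂⟩ := hh₀ H (by omega)
    obtain ⟨Bad, hBad⟩ : ∃ Bad : ℕ → Prop, Bad = fun m : ℕ => ∃ l : ℕ, (l : ℝ) ≤ δ' * p ∧
      (¬ (G.E (((m + l : ℕ) : ℝ) / p) ↔ G.E ((m : ℝ) / p)) ∨
        ∃ j, G.A j (((m + l : ℕ) : ℝ) / p) ≠ G.A j ((m : ℝ) / p)) := ⟨_, rfl⟩
    obtain ⟨χ, hχ⟩ : ∃ χ : ℕ × ℕ × ℕ → ℝ, χ = fun ω =>
      (1 / (H : ℝ)) * ‖∑ l ∈ range H, f (ω.2.2 + l)‖ + (if Bad ω.2.2 then 1 else 0) := ⟨_, rfl⟩
    have hχ0 : ∀ ω, 0 ≤ χ ω := fun ω => by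
      rw [hχ]
      dsimp only
      split_ifs <;> positivity
    have hav : ∀ n, (1 / (H : ℝ)) * ‖∑ l ∈ range H, f (n + l)‖ ≤ 1 := by
      intro n
      have h1 : ‖∑ l ∈ range H, f (n + l)‖ ≤ H := by
        refine (norm_sum_le _ _).trans ((sum_le_sum fun l _ => hf1 _).trans ?_)
        simp
      calc _ ≤ (1 / (H : ℝ)) * H := by gcongr
        _ = 1 := by field_simp
    have hχ1 : ∀ ω, |χ ω| ≤ 2 := fun ω => by
      rw [abs_of_nonneg (hχ0 ω), hχ]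
      dsimp only
      have := hav ω.2.2
      split_ifs <;> linarith
    have hχm : M.m χ ≤ ε / 8 := by
      refine hsmall χ 2 (ε / 8) (by norm_num) (by positivity) hχ1 ⟨max N₁ N₂, fun i N hN hNN => ?_⟩
      have hN0 : (0 : ℝ) < N := by exact_mod_cast hN
      have h1 := hN₁ N ((le_max_left _ _).trans hNN)
      have h2 := hN₂ N ((le_max_right _ _).trans hNN)
      have h3 : ∑ n ∈ Icc 1 N, χ (i, N, n) = (1 / (H : ℝ)) * ∑ n ∈ Icc 1 N, ‖∑ l ∈ range H, f (n + l)‖ +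
          (((Icc 1 N).filter (fun m => Bad m)).card : ℝ) := by
        rw [hχ]
        dsimp only
        rw [sum_add_distrib, ← mul_sum, ← sum_filter, sum_const, nsmul_eq_mul, mul_one]
      rw [h3]
      have h4 : (((Icc 1 N).filter (fun m => Bad m)).card : ℝ) ≤ ε / 16 * N := by
        rw [hBad]
        exact h1
      have h5 : (1 / (H : ℝ)) * ∑ n ∈ Icc 1 N, ‖∑ l ∈ range H, f (n + l)‖ ≤ ε / 16 * N := by
        calc _ ≤ (1 / (H : ℝ)) * (ε / 16 * H * N) := by gcongr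
          _ = _ := by field_simp
      calc _ ≤ (1 / (N : ℝ)) * (ε / 16 * N + ε / 16 * N) := by gcongr
        _ = ε / 8 := by field_simp; ring
    -- averaging
    obtain ⟨Φ, hΦ⟩ : ∃ Φ : (ℕ × ℕ × ℕ) → ℂ, Φ = fun ω => κ p (E.lab ω) * ψ p ω := ⟨_, rfl⟩
    have hΦ1 : ∀ ω, ‖Φ ω‖ ≤ 1 := fun ω => by
      rw [hΦ]
      dsimp only
      rw [norm_mul]
      exact mul_le_one₀ (hκ1 _ _) (norm_nonneg _) (hψ1 _ _)
    have hΦb : BC Φ := ⟨1, hΦ1⟩
    rw [← hΦ]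
    have h1 : mc M Φ = (1 / (H : ℂ)) * mc M (fun ω => ∑ l ∈ range H, Φ (M.S^[l] ω)) := by
      rw [mc_sum M (range H) (fun l _ => hΦb.comp _)]
      simp only [mc_iter M hΦb]
      rw [sum_const, card_range, nsmul_eq_mul]
      have : (H : ℂ) ≠ 0 := by
        have : (H : ℝ) ≠ 0 := hHp.ne'
        exact_mod_cast this
      field_simp
    have h2 : ∀ ω, ‖(1 / (H : ℂ)) * ∑ l ∈ range H, Φ (M.S^[l] ω)‖ ≤ χ ω := by
      intro ω
      have e0 : ‖(1 / (H : ℂ))‖ = 1 / (H : ℝ) := by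
        rw [norm_div, norm_one, Complex.norm_natCast]
      by_cases hb : Bad ω.2.2
      · rw [norm_mul, e0, hχ]
        dsimp only
        rw [if_pos hb]
        have e1 : ‖∑ l ∈ range H, Φ (M.S^[l] ω)‖ ≤ H := by
          refine (norm_sum_le _ _).trans ((sum_le_sum fun l _ => hΦ1 _).trans ?_)
          simp
        have e2 : (1 / (H : ℝ)) * ‖∑ l ∈ range H, Φ (M.S^[l] ω)‖ ≤ 1 := by
          calc _ ≤ (1 / (H : ℝ)) * H := by gcongr
            _ = 1 := by field_simp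
        have e3 : 0 ≤ (1 / (H : ℝ)) * ‖∑ l ∈ range H, f (ω.2.2 + l)‖ := by positivity
        linarith
      · obtain ⟨c, hc⟩ : ∃ c : ℂ, c = κ p (E.lab ω) * ((if G.E ((ω.2.2 : ℝ) / p) then 1 else 0) *
          ∏ j, gt ω.1 j ((p : ℤ) * G.A j ((ω.2.2 : ℝ) / p)).toNat) := ⟨_, rfl⟩
        have hc1 : ‖c‖ ≤ 1 := by
          rw [hc, norm_mul, norm_mul, norm_prod]
          refine mul_le_one₀ (hκ1 _ _) (by positivity) (mul_le_one₀ ?_
            (prod_nonneg fun _ _ => norm_nonneg _)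
            (prod_le_one (fun _ _ => norm_nonneg _) fun j _ => hgt1 _ _ _))
          split_ifs <;> simp
        have e1 : ∀ l ∈ range H, Φ (M.S^[l] ω) = c * f (ω.2.2 + l) := by
          intro l hl
          have e2 : (l : ℝ) ≤ δ' * p := by
            have e3 : (l : ℝ) ≤ H := by exact_mod_cast (mem_range.1 hl).le
            have e4 : (H : ℝ) ≤ δ' * p := by
              rw [hH]
              exact Nat.floor_le (by positivity)
            linarith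
          rw [hBad] at hb
          push Not at hb
          obtain ⟨e5, e6⟩ := hb l e2
          rw [hΦ, hψ, hc]
          unfold psi
          dsimp only
          rw [hSit, hE1, hE1]
          dsimp only
          simp only [e5, e6]
          ring
        rw [sum_congr rfl e1, ← mul_sum, norm_mul, norm_mul, e0, hχ]
        dsimp only
        rw [if_neg hb, add_zero]
        have e2 : ‖c‖ * ‖∑ l ∈ range H, f (ω.2.2 + l)‖ ≤ ‖∑ l ∈ range H, f (ω.2.2 + l)‖ :=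
          mul_le_of_le_one_left (norm_nonneg _) hc1
        gcongr
    have hΦs : BC (fun ω => ∑ l ∈ range H, Φ (M.S^[l] ω)) := BC.sum _ fun l _ => hΦb.comp _
    have hΦs' : BC (fun ω => (1 / (H : ℂ)) * ∑ l ∈ range H, Φ (M.S^[l] ω)) :=
      (BC.const _).mul hΦs
    rw [h1, ← mc_smul M _ hΦs]
    refine (mc_norm_le_mean M hΦs').trans (le_trans ?_ hχm)
    exact M.mono hΦs'.norm ⟨2, hχ1⟩ h2
  -- the choice of the scale
  obtain ⟨C₂, hC₂0, hC₂⟩ := exc_card G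
  obtain ⟨J₁, hJ₁⟩ : ∃ J₁ : ℕ, 16 * C₂ / ε + p₁ < 2 ^ J₁ := pow_unbounded_of_one_lt _ (by norm_num)
  obtain ⟨j, hjJ, hj⟩ := good3 M (fun ω => ltr G f L (u ω.1) ω.2.2) (fun ω p => κ p (E.lab ω))
    (fun ω e => bit G ω.2.2 e) ψ (fun ω p => hκ1 p _) (fun ω => by funext p; rw [E.lab_S]) hψ1 hIND
    (2 * y0 + 1) y0 (by omega) (fun j₀ => by
      obtain ⟨i0, hi0⟩ := det_lem G f hf dec L hL y0 hy0 j₀
      refine ⟨i0, fun p hp l hl ω ω' hwin hbits => ?_⟩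
      rw [hψ, hgt]
      dsimp only
      rw [hSit, hSit]
      dsimp only
      refine hi0 p hp l hl ω.2.2 ω'.2.2 (u ω.1) (u ω'.1) (fun x hx => ?_) (fun l' hl' e he => ?_)
      · have h1 := congrFun hwin ⟨x, hx⟩
        unfold win at h1
        dsimp only at h1
        rw [hSit, hSit] at h1
        exact h1
      · have h1 := hbits l' hl' e he
        rw [hSit, hSit] at h1
        exact h1) (ε / 8) (by positivity) (J₁ + 1)
  have hj1 : 1 ≤ j := by omega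
  have hcard := PD_pos hj1
  have hcard' : (0 : ℝ) < (PD j).card := by exact_mod_cast hcard
  have hplarge : ∀ p ∈ PD j, 16 * C₂ / ε + p₁ ≤ (p : ℝ) := by
    intro p hp
    have h11 := (mem_Ioc.1 (mem_filter.1 hp).1).1
    have h12 : 2 ^ J₁ ≤ 2 ^ (j - 1) := Nat.pow_le_pow_right (by norm_num) (by omega)
    have h13 : (2 : ℝ) ^ J₁ ≤ p := by exact_mod_cast h12.trans h11.le
    linarith
  obtain ⟨A1, hA1⟩ : ∃ A1 : ℕ → (ℕ × ℕ × ℕ) → ℂ, A1 = fun p ω => (if p ∣ M.ν ω then (p : ℂ) else 0) *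
    (κ p (E.lab ω) * ψ p ω) := ⟨_, rfl⟩
  obtain ⟨A2, hA2⟩ : ∃ A2 : ℕ → (ℕ × ℕ × ℕ) → ℂ, A2 = fun p ω => κ p (E.lab ω) * ψ p ω := ⟨_, rfl⟩
  have hA2b : ∀ p ω, ‖A2 p ω‖ ≤ 1 := fun p ω => by
    rw [hA2]
    dsimp only
    rw [norm_mul]
    exact mul_le_one₀ (hκ1 _ _) (norm_nonneg _) (hψ1 _ _)
  have hA1b : ∀ p ω, ‖A1 p ω‖ ≤ p := fun p ω => by
    have h1 := hA2b p ω
    rw [hA2] at h1
    dsimp only at h1
    rw [hA1]
    dsimp only
    have h2 : ‖(if p ∣ M.ν ω then (p : ℂ) else 0)‖ ≤ p := by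
      split_ifs <;> simp
    rw [norm_mul]
    calc _ ≤ (p : ℝ) * 1 := mul_le_mul h2 h1 (norm_nonneg _) (by positivity)
      _ = p := mul_one _
  have hjA : ‖(∑ p ∈ PD j, mc M (A1 p)) - ∑ p ∈ PD j, mc M (A2 p)‖ ≤ ε / 8 * (PD j).card := by
    rw [hA1, hA2]
    exact hj
  -- the first sum
  have hlo : ∀ p ∈ PD j, Mh - ε / 8 - ε / 8 ≤ (mc M (A1 p)).re := by
    intro p hp
    have hpp : p.Prime := (mem_filter.1 hp).2
    have hp0 : (0 : ℝ) < p := by exact_mod_cast hpp.pos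
    have hkp : 2 * C₂ / (p : ℝ) ≤ ε / 8 := by
      have h1 := hplarge p hp
      have h2 : 16 * C₂ / ε ≤ p := by
        have : (0 : ℝ) ≤ p₁ := by positivity
        linarith
      rw [div_le_iff₀ hε] at h2
      rw [div_le_iff₀ hp0]
      linarith
    -- the error term
    obtain ⟨W, hW⟩ : ∃ W : (ℕ × ℕ × ℕ) → ℝ, W = fun ω => (2 * C₂ + 1) * p / ω.2.1 := ⟨_, rfl⟩
    have hWn : ∀ ω, 0 ≤ W ω := fun ω => by
      rw [hW]
      dsimp only
      positivity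
    have hWb : ∀ ω, |W ω| ≤ (2 * C₂ + 1) * p := fun ω => by
      rw [abs_of_nonneg (hWn ω), hW]
      dsimp only
      rcases Nat.eq_zero_or_pos ω.2.1 with h0 | h0
      · rw [h0]
        simp
        positivity
      · exact div_le_self (by positivity) (by exact_mod_cast h0)
    have hW0 : M.m W = 0 := by
      refine hzero W ((2 * C₂ + 1) * p) (by positivity) hWb ?_
      intro δ hδ
      obtain ⟨i₂, hi₂⟩ := exists_nat_ge ((2 * C₂ + 1) * p / δ)
      refine ⟨i₂, fun i N hN hNN => ?_⟩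
      have hN0 : (0 : ℝ) < N := by exact_mod_cast hN
      have h5 : ∀ n, W (i, N, n) = (2 * C₂ + 1) * p / N := by
        intro n
        rw [hW]
      simp only [h5, sum_const, Nat.card_Icc, Nat.add_sub_cancel, nsmul_eq_mul]
      have h6 : (1 / (N : ℝ)) * (N * ((2 * C₂ + 1) * p / N)) = (2 * C₂ + 1) * p / N := by field_simp
      rw [h6, abs_of_nonneg (by positivity), div_le_iff₀ hN0]
      have h8 : (i₂ : ℝ) ≤ N := by exact_mod_cast hNN
      rw [div_le_iff₀ hδ] at hi₂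
      nlinarith
    have hb1 : Bd (fun ω => (A1 p ω).re) := BC.re ⟨p, hA1b p⟩
    have hb2 : Bd (fun ω => h ((E.lab ω).1, (E.lab ω).2 / p)) := ⟨1, fun ω => by
      dsimp only; rw [abs_of_nonneg (hh0 _)]; exact hh1 _⟩
    have hbW : Bd W := ⟨_, hWb⟩
    have h1 := hlow (fun ω => (A1 p ω).re - h ((E.lab ω).1, (E.lab ω).2 / p) + W ω)
      ((hb1.sub hb2).add hbW) (-(ε / 8 + ε / 8)) (fun i => by
        rcases Nat.eq_zero_or_pos (X i) with hX0 | hX0
        · rw [hX0]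
          unfold EX
          simp
          positivity
        refine EX_ge (X i) hX0 _ _ fun N hN => ?_
        have hN0 : (0 : ℝ) < N := by exact_mod_cast hN
        have h1 := dil_fin3 G C₂ hC₂0 hC₂ f hf1 (g i) (gt i) (hg1 i) (hgt1 i) τ (hgtτ i) p hpp
          (fun n => hfp p n hpp) (fun j => hgp i j p hpp) (fun j n => hgm i j p n hpp) N hN
        have h4 : ∀ n, (A1 p (i, N, n)).re - h ((E.lab (i, N, n)).1, (E.lab (i, N, n)).2 / p) +
            W (i, N, n) = ((if p ∣ n then (p : ℂ) else 0) *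
            ((ph (∑ n ∈ Icc 1 (N / p), phi G f (g i) n) * (- ∏ j, starRingEnd ℂ (g i j p))) *
            psi G f (gt i) p n)).re +
            ((2 * C₂ + 1) * p / N - ‖AvN (N / p) (phi G f (g i))‖) := by
          intro n
          have e1 : W (i, N, n) = (2 * C₂ + 1) * p / N := by rw [hW]
          have e2 : h ((E.lab (i, N, n)).1, (E.lab (i, N, n)).2 / p) =
              ‖AvN (N / p) (phi G f (g i))‖ := by
            rw [hE1, hh, hφf]
          have e3 : A1 p (i, N, n) = (if p ∣ n then (p : ℂ) else 0) *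
              ((ph (∑ n ∈ Icc 1 (N / p), phi G f (g i) n) * (- ∏ j, starRingEnd ℂ (g i j p))) *
              psi G f (gt i) p n) := by
            rw [hA1, hκ, hψ, hφf]
            dsimp only
            rw [if_pos hpp, hE1, hν]
          rw [e1, e2, e3]
          ring
        simp only [h4]
        rw [sum_add_distrib, mul_add, sum_const, Nat.card_Icc, Nat.add_sub_cancel, nsmul_eq_mul]
        have h5 : (1 / (N : ℝ)) * (N * ((2 * C₂ + 1) * p / N - ‖AvN (N / p) (phi G f (g i))‖)) =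
            (2 * C₂ + 1) * p / N - ‖AvN (N / p) (phi G f (g i))‖ := by field_simp
        rw [h5]
        linarith)
    rw [M.add _ _ (hb1.sub hb2) hbW, M.sub hb1 hb2, hW0] at h1
    have h2 : M.m (fun ω => h ((E.lab ω).1, (E.lab ω).2 / p)) = Mh := by
      have h3 := dil_lab M E (h := h) hhb p hpp.one_le
      rw [hMh, ← h3]
      congr 1
      funext ω
      rw [hE2]
    rw [h2] at h1
    have h3 : (mc M (A1 p)).re = M.m (fun ω => (A1 p ω).re) := rfl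
    rw [h3]
    linarith
  -- the second sum
  have hup : ‖∑ p ∈ PD j, mc M (A2 p)‖ ≤ ε / 8 * (PD j).card := by
    refine (norm_sum_le _ _).trans ((sum_le_sum (g := fun _ => ε / 8) fun p hp => ?_).trans ?_)
    · rw [hA2]
      refine hp₁ p ?_
      have h1 := hplarge p hp
      have h2 : (p₁ : ℝ) ≤ p := by
        have : (0 : ℝ) ≤ 16 * C₂ / ε := by positivity
        linarith
      exact_mod_cast h2
    · rw [sum_const, nsmul_eq_mul, mul_comm]
  have h1 : ((PD j).card : ℝ) * (Mh - ε / 8 - ε / 8) ≤ (∑ p ∈ PD j, mc M (A1 p)).re := by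
    rw [Complex.re_sum, ← nsmul_eq_mul, ← sum_const]
    exact sum_le_sum hlo
  have h2 := Complex.re_le_norm (∑ p ∈ PD j, mc M (A1 p))
  have h3 := norm_sub_norm_le (∑ p ∈ PD j, mc M (A1 p)) (∑ p ∈ PD j, mc M (A2 p))
  nlinarith

end Pool.Agent.Q270.EH
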