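import Pool.Agent.Q270.EH.Geo

/-!
Project EH (helper270): sparse sets.
-/

set_option autoImplicit false

namespace Pool.Agent.Q270.EH

open Finset Filter Topology

/-- the distance to the nearest integer is at most `η` -/
def nz (x η : ℝ) : Prop := ∃ z : ℤ, |x - z| ≤ η

lemma floor_shift {x η w : ℝ} (h : ¬ nz x η) (hw : |w| ≤ η) : ⌊x + w⌋ = ⌊x⌋ := by
  have h1 := Int.floor_le x
  have h2 := Int.lt_floor_add_one x
  have h3 : η < x - ⌊x⌋ := by
    by_contra hc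
    push Not at hc
    exact h ⟨⌊x⌋, by rw [abs_of_nonneg (by linarith)]; exact hc⟩
  have h4 : η < ⌊x⌋ + 1 - x := by
    by_contra hc
    push Not at hc
    refine h ⟨⌊x⌋ + 1, ?_⟩
    push_cast
    rw [abs_of_nonpos (by linarith)]
    linarith
  rw [abs_le] at hw
  rw [Int.floor_eq_iff]
  constructor <;> linarith

lemma nz_neg {x η : ℝ} : nz (-x) η ↔ nz x η := by
  unfold nz
  constructor
  · rintro ⟨z, hz⟩
    refine ⟨-z, ?_⟩
    push_cast
    rw [← abs_neg]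
    have : -(x - -(z : ℝ)) = -x - z := by ring
    rwa [this]
  · rintro ⟨z, hz⟩
    refine ⟨-z, ?_⟩
    push_cast
    rw [← abs_neg]
    have : -(-x - -(z : ℝ)) = x - z := by ring
    rwa [this]

lemma ceil_shift {x η w : ℝ} (h : ¬ nz x η) (hw : |w| ≤ η) : ⌈x + w⌉ = ⌈x⌉ := by
  have h1 := floor_shift (x := -x) (η := η) (w := -w) (by rwa [nz_neg]) (by rwa [abs_neg])
  rw [← neg_add, Int.floor_neg, Int.floor_neg] at h1
  omega

open scoped Classical in
/-- the number of `m` in `[1, N]` with `p m` -/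
noncomputable def cnt (N : ℕ) (p : ℕ → Prop) : ℝ := (((Icc 1 N).filter p).card : ℝ)

lemma cnt_eq (N : ℕ) (p : ℕ → Prop) [DecidablePred p] : (((Icc 1 N).filter p).card : ℝ) = cnt N p := by
  unfold cnt
  congr

lemma cnt_or (N : ℕ) (p q : ℕ → Prop) : cnt N (fun m => p m ∨ q m) ≤ cnt N p + cnt N q := by
  classical
  unfold cnt
  have h1 : (Icc 1 N).filter (fun m => p m ∨ q m) ⊆ (Icc 1 N).filter p ∪ (Icc 1 N).filter q := by
    intro m hm
    rw [mem_filter] at hm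
    rw [mem_union, mem_filter, mem_filter]
    tauto
  have h2 := (card_le_card h1).trans (card_union_le _ _)
  have h3 : ∀ (q : ℕ → Prop) (i1 i2 : DecidablePred q), (@filter ℕ q i1 (Icc 1 N)).card =
      (@filter ℕ q i2 (Icc 1 N)).card := fun q i1 i2 => by congr
  rw [h3 _ _ (fun m => Classical.propDecidable _), h3 p _ (fun m => Classical.propDecidable _),
    h3 q _ (fun m => Classical.propDecidable _)] at h2
  exact_mod_cast h2

lemma cnt_mono (N : ℕ) {p q : ℕ → Prop} (h : ∀ m, p m → q m) : cnt N p ≤ cnt N q := by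
  classical
  unfold cnt
  have h1 : (@filter ℕ p (fun m => Classical.propDecidable _) (Icc 1 N)) ⊆
      (@filter ℕ q (fun m => Classical.propDecidable _) (Icc 1 N)) := by
    intro m hm
    rw [mem_filter] at hm ⊢
    exact ⟨hm.1, h m hm.2⟩
  exact_mod_cast card_le_card h1

lemma cnt_ex {ι : Type} [Fintype ι] (N : ℕ) (p : ι → ℕ → Prop) :
    cnt N (fun m => ∃ i, p i m) ≤ ∑ i, cnt N (p i) := by
  classical
  rw [← cnt_eq]
  have h1 : (Icc 1 N).filter (fun m => ∃ i, p i m) ⊆ univ.biUnion (fun i => (Icc 1 N).filter (p i)) := by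
    intro m hm
    rw [mem_filter] at hm
    obtain ⟨h1, i, hi⟩ := hm
    exact mem_biUnion.2 ⟨i, mem_univ _, mem_filter.2 ⟨h1, hi⟩⟩
  calc _ ≤ ∑ i, (((Icc 1 N).filter (p i)).card : ℝ) := by
        exact_mod_cast (card_le_card h1).trans card_biUnion_le
    _ = _ := sum_congr rfl fun i _ => cnt_eq N (p i)

/-- sparse families -/
def Sp (S : ℝ → ℕ → Prop) : Prop := ∀ τ : ℝ, 0 < τ → ∀ᶠ η in 𝓝[>] (0 : ℝ), ∀ᶠ N : ℕ in atTop,
  cnt N (S η) ≤ τ * N

lemma Sp.or {S T : ℝ → ℕ → Prop} (hS : Sp S) (hT : Sp T) : Sp (fun η m => S η m ∨ T η m) := by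
  intro τ hτ
  filter_upwards [hS (τ / 2) (by positivity), hT (τ / 2) (by positivity)] with η h1 h2
  filter_upwards [h1, h2] with N h3 h4
  refine (cnt_or _ _ _).trans ?_
  linarith

lemma fin_aux (n : ℕ) (τ N : ℝ) (hτ : 0 < τ) (hN : 0 ≤ N) : (n : ℝ) * (τ / (n + 1) * N) ≤ τ * N := by
  have h4 : (n : ℝ) * (τ / (n + 1) * N) = (n / (n + 1)) * (τ * N) := by field_simp
  rw [h4]
  refine mul_le_of_le_one_left (by positivity) ?_
  rw [div_le_one (by positivity)]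
  linarith

lemma Sp.ex {ι : Type} [Fintype ι] {S : ι → ℝ → ℕ → Prop} (hS : ∀ i, Sp (S i)) :
    Sp (fun η m => ∃ i, S i η m) := by
  intro τ hτ
  have h1 : ∀ i, ∀ᶠ η in 𝓝[>] (0 : ℝ), ∀ᶠ N : ℕ in atTop,
      cnt N (S i η) ≤ τ / (Fintype.card ι + 1) * N := fun i => hS i _ (by positivity)
  filter_upwards [eventually_all.2 h1] with η h2
  filter_upwards [eventually_all.2 h2] with N h3
  refine (cnt_ex _ _).trans ((sum_le_sum fun i _ => h3 i).trans ?_)
  rw [sum_const, card_univ, nsmul_eq_mul]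
  exact fin_aux _ _ _ hτ (by positivity)

lemma Sp.mono {S T : ℝ → ℕ → Prop} (hT : Sp T) (h : ∀ η m, S η m → T η m) : Sp S := by
  intro τ hτ
  filter_upwards [hT τ hτ] with η h1
  filter_upwards [h1] with N h2
  exact (cnt_mono N (h η)).trans h2

/-- small multiples of an irrational number are far from the integers -/
lemma far (y : ℝ) (hy : Irrational y) (R : ℕ) : ∀ᶠ η in 𝓝[>] (0 : ℝ), ∀ h : ℕ, 1 ≤ h → h < R →
    ∀ z : ℤ, 2 * η < |y * h - z| := by
  have h1 : ∀ h ∈ Finset.range R, ∀ᶠ η in 𝓝[>] (0 : ℝ), 1 ≤ h → ∀ z : ℤ, 2 * η < |y * h - z| := by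
    intro h _
    by_cases hh : 1 ≤ h
    · have hpos : 0 < |y * h - round (y * h)| := by
        rw [abs_pos, sub_ne_zero]
        intro he
        have h2 : Irrational (y * h) := hy.mul_natCast (by omega)
        exact h2 ⟨(round (y * h) : ℚ), by push_cast; exact he.symm⟩
      have h3 : ∀ᶠ η in 𝓝[>] (0 : ℝ), η < |y * h - round (y * h)| / 2 :=
        (eventually_lt_nhds (by positivity)).filter_mono nhdsWithin_le_nhds
      filter_upwards [h3] with η h4 _ z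
      have h5 := round_le (y * h) z
      linarith
    · exact Eventually.of_forall fun η h2 => absurd h2 hh
  filter_upwards [(eventually_all_finset _).2 h1] with η h2 h hh hR z
  exact h2 h (mem_range.2 hR) hh z

/-- few `m` with `y m + c` near the integers -/
lemma sparse (y : ℝ) (hy : Irrational y) (τ : ℝ) (hτ : 0 < τ) : ∀ᶠ η in 𝓝[>] (0 : ℝ),
    ∀ (c : ℝ) (N : ℕ), cnt N (fun m : ℕ => nz (y * m + c) η) ≤ τ * N + 1 := by
  classical
  obtain ⟨R, hR⟩ := exists_nat_gt (1 / τ)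
  have hR0 : (0 : ℝ) < R := lt_trans (by positivity) hR
  have hR1 : 1 ≤ R := by exact_mod_cast hR0
  filter_upwards [far y hy R] with η hη c N
  refine (card_gap R N hR1 _ (filter_subset _ _) fun m hm m' hm' hlt => ?_).trans ?_
  · obtain ⟨z, hz⟩ := (mem_filter.1 hm).2
    obtain ⟨z', hz'⟩ := (mem_filter.1 hm').2
    by_contra hc
    push Not at hc
    have h1 := hη (m' - m) (by omega) hc (z' - z)
    have h2 : y * ((m' - m : ℕ) : ℝ) - ((z' - z : ℤ) : ℝ) = (y * m' + c - z') - (y * m + c - z) := by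
      rw [Nat.cast_sub hlt.le]
      push_cast
      ring
    rw [h2] at h1
    have h3 := abs_sub (y * m' + c - z') (y * m + c - z)
    linarith
  · have h1 : (N : ℝ) / R ≤ τ * N := by
      rw [div_le_iff₀ hR0]
      rw [div_lt_iff₀ hτ] at hR
      have h2 : (0 : ℝ) ≤ N := by positivity
      nlinarith
    linarith

lemma Sp_lin (y c : ℝ) (hy : Irrational y) : Sp (fun η m => nz (y * m + c) η) := by
  intro τ hτ
  filter_upwards [sparse y hy (τ / 2) (by positivity)] with η hη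
  filter_upwards [eventually_ge_atTop ⌈2 / τ⌉₊] with N hN
  refine (hη c N).trans ?_
  have h1 : 2 / τ ≤ N := Nat.ceil_le.1 hN
  rw [div_le_iff₀ hτ] at h1
  nlinarith

open scoped Classical in
/-- few integers `n` in an interval with `y n + c` near the integers -/
lemma sparseZ (y : ℝ) (hy : Irrational y) (τ : ℝ) (hτ : 0 < τ) : ∀ᶠ η in 𝓝[>] (0 : ℝ),
    ∀ (c : ℝ) (A B : ℤ), A ≤ B → (((Icc A B).filter (fun n : ℤ => nz (y * n + c) η)).card : ℝ) ≤
      τ * (B - A + 1) + 1 := by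
  filter_upwards [sparse y hy τ hτ] with η hη c A B hAB
  have h1 := hη (c + y * (A - 1)) ((B - A + 1).toNat)
  have h2 : (((B - A + 1).toNat : ℕ) : ℝ) = B - A + 1 := by
    have : (((B - A + 1).toNat : ℕ) : ℤ) = B - A + 1 := Int.toNat_of_nonneg (by omega)
    have h3 : (((B - A + 1).toNat : ℕ) : ℝ) = ((B - A + 1 : ℤ) : ℝ) := by exact_mod_cast this
    rw [h3]
    push_cast
    ring
  rw [h2, ← cnt_eq] at h1
  refine le_trans ?_ h1
  have h3 : ((Icc A B).filter (fun n : ℤ => nz (y * n + c) η)).card ≤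
      ((Icc 1 ((B - A + 1).toNat)).filter (fun m : ℕ => nz (y * m + (c + y * (A - 1))) η)).card := by
    refine card_le_card_of_injOn (fun n => (n - A + 1).toNat) ?_ ?_
    · intro n hn
      rw [mem_coe, mem_filter, mem_Icc] at hn
      rw [mem_coe, mem_filter, mem_Icc]
      obtain ⟨⟨h4, h5⟩, h6⟩ := hn
      dsimp only
      refine ⟨⟨by omega, by omega⟩, ?_⟩
      have h7 : (((n - A + 1).toNat : ℕ) : ℤ) = n - A + 1 := Int.toNat_of_nonneg (by omega)
      have h8 : (((n - A + 1).toNat : ℕ) : ℝ) = ((n - A + 1 : ℤ) : ℝ) := by exact_mod_cast h7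
      rw [h8]
      have h9 : y * ((n - A + 1 : ℤ) : ℝ) + (c + y * (A - 1)) = y * n + c := by
        push_cast
        ring
      rw [h9]
      exact h6
    · intro n hn n' hn' h
      rw [mem_coe, mem_filter, mem_Icc] at hn hn'
      dsimp only at h
      omega
  exact_mod_cast h3

open scoped Classical in
/-- counting by cells -/
lemma cellcount (y z : ℝ) (hy : 0 < y) (N : ℕ) (Bad : ℤ → Prop) :
    cnt N (fun m : ℕ => Bad ⌈((m : ℝ) - z) / y⌉) ≤
      (y + 1) * ((Icc ⌈((1 : ℝ) - z) / y⌉ ⌈((N : ℝ) - z) / y⌉).filter Bad).card := by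
  have hmaps : ∀ m ∈ (Icc 1 N).filter (fun m : ℕ => Bad ⌈((m : ℝ) - z) / y⌉),
      ⌈((m : ℝ) - z) / y⌉ ∈ (Icc ⌈((1 : ℝ) - z) / y⌉ ⌈((N : ℝ) - z) / y⌉).filter Bad := by
    intro m hm
    rw [mem_filter, mem_Icc] at hm
    obtain ⟨⟨h1, h2⟩, h3⟩ := hm
    have h4 : (1 : ℝ) ≤ m := by exact_mod_cast h1
    have h5 : (m : ℝ) ≤ N := by exact_mod_cast h2
    rw [mem_filter, mem_Icc]
    exact ⟨⟨Int.ceil_le_ceil (by gcongr), Int.ceil_le_ceil (by gcongr)⟩, h3⟩
  rw [← cnt_eq, card_eq_sum_card_fiberwise hmaps]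
  push_cast
  have h1 : ∀ n ∈ (Icc ⌈((1 : ℝ) - z) / y⌉ ⌈((N : ℝ) - z) / y⌉).filter Bad,
      ((((Icc 1 N).filter (fun m : ℕ => Bad ⌈((m : ℝ) - z) / y⌉)).filter
        (fun m : ℕ => ⌈((m : ℝ) - z) / y⌉ = n)).card : ℝ) ≤ y + 1 := by
    intro n _
    have h2 := card_near (y * n + z - y / 2) (y / 2) (by positivity)
      (((Icc 1 N).filter (fun m : ℕ => Bad ⌈((m : ℝ) - z) / y⌉)).filter
        (fun m : ℕ => ⌈((m : ℝ) - z) / y⌉ = n)) (fun m hm => by
        have h3 := (mem_filter.1 hm).2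
        rw [Int.ceil_eq_iff] at h3
        obtain ⟨h4, h5⟩ := h3
        rw [lt_div_iff₀ hy] at h4
        rw [div_le_iff₀ hy] at h5
        rw [abs_le]
        constructor <;> nlinarith)
    linarith
  refine (sum_le_sum h1).trans ?_
  rw [sum_const, nsmul_eq_mul, mul_comm]

lemma Sp_cell (y0 c y z : ℝ) (hy0 : Irrational y0) (hy : 0 < y) (r : ℕ) :
    Sp (fun η m => nz (y0 * ((⌈((m : ℝ) - z) / y⌉ + r : ℤ) : ℝ) + c) η) := by
  classical
  intro τ hτ
  obtain ⟨τ', hτ'⟩ : ∃ τ', τ' = τ / (2 * ((y + 1) / y)) := ⟨_, rfl⟩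
  have hτ'0 : 0 < τ' := by rw [hτ']; positivity
  filter_upwards [sparseZ y0 hy0 τ' hτ'0] with η hη
  filter_upwards [eventually_ge_atTop ⌈2 * ((y + 1) * (τ' * 2 + 1)) / τ⌉₊, eventually_ge_atTop 1] with N hN hN1
  have h1 := cellcount y z hy N (fun n => nz (y0 * ((n + r : ℤ) : ℝ) + c) η)
  refine h1.trans ?_
  have hN1' : (1 : ℝ) ≤ N := by exact_mod_cast hN1
  have hAB : ⌈((1 : ℝ) - z) / y⌉ ≤ ⌈((N : ℝ) - z) / y⌉ := Int.ceil_le_ceil (by gcongr)
  have h2 := hη (c + y0 * r) ⌈((1 : ℝ) - z) / y⌉ ⌈((N : ℝ) - z) / y⌉ hAB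
  have h3 : ∀ n : ℤ, y0 * ((n + r : ℤ) : ℝ) + c = y0 * n + (c + y0 * r) := fun n => by
    push_cast
    ring
  simp only [h3]
  have h4 : (⌈((N : ℝ) - z) / y⌉ : ℝ) - ⌈((1 : ℝ) - z) / y⌉ + 1 ≤ N / y + 2 := by
    have e1 := Int.ceil_lt_add_one (((N : ℝ) - z) / y)
    have e2 := Int.le_ceil (((1 : ℝ) - z) / y)
    have e3 : ((N : ℝ) - z) / y - ((1 : ℝ) - z) / y = N / y - 1 / y := by ring
    have e4 : 0 < 1 / y := by positivity
    linarith
  have h5 : (((Icc ⌈((1 : ℝ) - z) / y⌉ ⌈((N : ℝ) - z) / y⌉).filter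
      (fun n : ℤ => nz (y0 * n + (c + y0 * r)) η)).card : ℝ) ≤ τ' * (N / y + 2) + 1 :=
    h2.trans (by gcongr)
  calc _ ≤ (y + 1) * (τ' * (N / y + 2) + 1) := by gcongr
    _ = ((y + 1) / y * τ') * N + (y + 1) * (τ' * 2 + 1) := by field_simp; ring
    _ = τ / 2 * N + (y + 1) * (τ' * 2 + 1) := by
      congr 2
      rw [hτ']
      field_simp
    _ ≤ _ := by
      have e1 : 2 * ((y + 1) * (τ' * 2 + 1)) / τ ≤ N := Nat.ceil_le.1 hN
      rw [div_le_iff₀ hτ] at e1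
      linarith

/-- locally constant families -/
def Lc (S : ℝ → ℕ → ℕ → Prop) : Prop := ∀ δ : ℝ, 0 < δ → ∀ᶠ δ' in 𝓝[>] (0 : ℝ), ∀ᶠ p : ℕ in atTop,
  ∀ᶠ N : ℕ in atTop, cnt N (S δ' p) ≤ δ * N

lemma Lc.or {S T : ℝ → ℕ → ℕ → Prop} (hS : Lc S) (hT : Lc T) :
    Lc (fun δ' p m => S δ' p m ∨ T δ' p m) := by
  intro τ hτ
  filter_upwards [hS (τ / 2) (by positivity), hT (τ / 2) (by positivity)] with η h1 h2
  filter_upwards [h1, h2] with p h3 h4
  filter_upwards [h3, h4] with N h5 h6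
  refine (cnt_or _ _ _).trans ?_
  linarith

lemma Lc.ex {ι : Type} [Fintype ι] {S : ι → ℝ → ℕ → ℕ → Prop} (hS : ∀ i, Lc (S i)) :
    Lc (fun δ' p m => ∃ i, S i δ' p m) := by
  intro τ hτ
  have h1 : ∀ i, ∀ᶠ δ' in 𝓝[>] (0 : ℝ), ∀ᶠ p : ℕ in atTop, ∀ᶠ N : ℕ in atTop,
      cnt N (S i δ' p) ≤ τ / (Fintype.card ι + 1) * N := fun i => hS i _ (by positivity)
  filter_upwards [eventually_all.2 h1] with η h2
  filter_upwards [eventually_all.2 h2] with p h2
  filter_upwards [eventually_all.2 h2] with N h3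
  refine (cnt_ex _ _).trans ((sum_le_sum fun i _ => h3 i).trans ?_)
  rw [sum_const, card_univ, nsmul_eq_mul]
  exact fin_aux _ _ _ hτ (by positivity)

lemma Lc_base (y z : ℝ) (hy : 0 < y) :
    Lc (fun δ' p m => ∃ k : ℤ, |(m : ℝ) - p * (y * k + z)| ≤ δ' * p) := by
  classical
  intro δ hδ
  have h0 : ∀ᶠ δ' in 𝓝[>] (0 : ℝ), δ' < δ * y / 8 :=
    (eventually_lt_nhds (by positivity)).filter_mono nhdsWithin_le_nhds
  filter_upwards [h0, self_mem_nhdsWithin] with δ' hδ' hδ'0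
  rw [Set.mem_Ioi] at hδ'0
  filter_upwards [eventually_ge_atTop ⌈4 / (δ * y)⌉₊, eventually_ge_atTop 1] with p hp hp1
  have hp0 : (0 : ℝ) < p := by exact_mod_cast hp1
  have hp' : 4 / (δ * y) ≤ p := Nat.ceil_le.1 hp
  filter_upwards [eventually_ge_atTop ⌈2 * ((2 * (δ' * p) + 1) * (2 * (δ' * p) / (p * y) + 1)) / δ⌉₊] with N hN
  have hN' : 2 * ((2 * (δ' * p) + 1) * (2 * (δ' * p) / (p * y) + 1)) / δ ≤ N := Nat.ceil_le.1 hN
  obtain ⟨w, hw⟩ : ∃ w, w = δ' * p := ⟨_, rfl⟩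
  have hw0 : 0 < w := by rw [hw]; positivity
  rw [← hw] at hN'
  have hgoal : cnt N (fun m => ∃ k : ℤ, |(m : ℝ) - p * (y * k + z)| ≤ δ' * p) =
      (((Icc 1 N).filter (fun m : ℕ => ∃ k : ℤ, |(m : ℝ) - p * (y * k + z)| ≤ w)).card : ℝ) := by
    rw [cnt_eq, hw]
  rw [hgoal]
  -- choose k
  have hch : ∀ m : ℕ, ∃ k : ℤ, (∃ k : ℤ, |(m : ℝ) - p * (y * k + z)| ≤ w) → |(m : ℝ) - p * (y * k + z)| ≤ w := by
    intro m
    by_cases h : ∃ k : ℤ, |(m : ℝ) - p * (y * k + z)| ≤ w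
    · obtain ⟨k, hk⟩ := h
      exact ⟨k, fun _ => hk⟩
    · exact ⟨0, fun h' => absurd h' h⟩
  choose κ hκ using hch
  have hpy : 0 < p * y := by positivity
  have hmaps : ∀ m ∈ (Icc 1 N).filter (fun m : ℕ => ∃ k : ℤ, |(m : ℝ) - p * (y * k + z)| ≤ w),
      κ m ∈ Icc ⌈(1 - w - p * z) / (p * y)⌉ ⌊(N + w - p * z) / (p * y)⌋ := by
    intro m hm
    rw [mem_filter, mem_Icc] at hm
    obtain ⟨⟨h1, h2⟩, h3⟩ := hm
    have h4 : (1 : ℝ) ≤ m := by exact_mod_cast h1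
    have h5 : (m : ℝ) ≤ N := by exact_mod_cast h2
    have h6 := abs_le.1 (hκ m h3)
    rw [mem_Icc, Int.ceil_le, Int.le_floor, div_le_iff₀ hpy, le_div_iff₀ hpy]
    constructor <;> nlinarith [h6.1, h6.2]
  rw [card_eq_sum_card_fiberwise hmaps]
  push_cast
  have h1 : ∀ k ∈ Icc ⌈(1 - w - p * z) / (p * y)⌉ ⌊(N + w - p * z) / (p * y)⌋,
      ((((Icc 1 N).filter (fun m : ℕ => ∃ k : ℤ, |(m : ℝ) - p * (y * k + z)| ≤ w)).filter
        (fun m : ℕ => κ m = k)).card : ℝ) ≤ 2 * w + 1 := by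
    intro k _
    refine card_near (p * (y * k + z)) w hw0.le _ (fun m hm => ?_)
    obtain ⟨h3, h4⟩ := mem_filter.1 hm
    rw [← h4]
    exact hκ m (mem_filter.1 h3).2
  refine (sum_le_sum h1).trans ?_
  rw [sum_const, nsmul_eq_mul]
  have h2 : ((Icc ⌈(1 - w - p * z) / (p * y)⌉ ⌊(N + w - p * z) / (p * y)⌋).card : ℝ) ≤
      (N + 2 * w) / (p * y) + 1 := by
    rw [Int.card_Icc]
    have e1 : ((⌊(N + w - p * z) / (p * y)⌋ + 1 - ⌈(1 - w - p * z) / (p * y)⌉).toNat : ℝ) ≤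
        max (((⌊(N + w - p * z) / (p * y)⌋ + 1 - ⌈(1 - w - p * z) / (p * y)⌉ : ℤ) : ℝ)) 0 := by
      rcases le_total 0 (⌊(N + w - p * z) / (p * y)⌋ + 1 - ⌈(1 - w - p * z) / (p * y)⌉) with h | h
      · refine le_max_of_le_left ?_
        have : (((⌊(N + w - p * z) / (p * y)⌋ + 1 - ⌈(1 - w - p * z) / (p * y)⌉).toNat : ℕ) : ℤ) =
          ⌊(N + w - p * z) / (p * y)⌋ + 1 - ⌈(1 - w - p * z) / (p * y)⌉ := Int.toNat_of_nonneg h
        exact_mod_cast this.le
      · refine le_max_of_le_right ?_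
        rw [Int.toNat_of_nonpos h]
        simp
    refine e1.trans (max_le ?_ (by positivity))
    push_cast
    have e2 := Int.floor_le ((N + w - p * z) / (p * y))
    have e3 := Int.le_ceil ((1 - w - p * z) / (p * y))
    have e4 : (N + w - p * z) / (p * y) - (1 - w - p * z) / (p * y) = (N + 2 * w) / (p * y) - 1 / (p * y) := by
      ring
    have e5 : 0 < 1 / (p * y) := by positivity
    linarith
  calc _ ≤ ((N + 2 * w) / (p * y) + 1) * (2 * w + 1) := by gcongr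
    _ = (2 * w + 1) / (p * y) * N + (2 * w + 1) * (2 * w / (p * y) + 1) := by ring
    _ ≤ δ / 2 * N + δ / 2 * N := by
      have e1 : (2 * w + 1) / (p * y) ≤ δ / 2 := by
        rw [div_le_iff₀ hpy, hw]
        rw [div_le_iff₀ (by positivity)] at hp'
        have e2 : 2 * (δ' * p) ≤ δ * y / 4 * p := by nlinarith
        have e3 : 1 ≤ δ * y / 4 * p := by linarith
        linarith
      have e2 : (2 * w + 1) * (2 * w / (p * y) + 1) ≤ δ / 2 * N := by
        rw [div_le_iff₀ hδ] at hN'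
        linarith
      gcongr
    _ = _ := by ring

end Pool.Agent.Q270.EH
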